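import Pool.Agent.R973.Cp.Low
import Pool.Agent.Helper764.Cop_int

/-!
# Log-convexity of the constrained partition function and averaging over blocks
-/

set_option autoImplicit false

open MeasureTheory ProbabilityTheory Filter Topology

namespace Pool.Agent.R973.Cp

open Cop764 (G G_eq phi S KHyp disorder)

lemma holder_sum {ι : Type*} (A : Finset ι) (a b : ι → ℝ) {s t : ℝ} (hs : 0 < s) (ht : 0 < t)
    (hst : s + t = 1) (ha : ∀ i ∈ A, 0 ≤ a i) (hb : ∀ i ∈ A, 0 ≤ b i) :
    ∑ i ∈ A, a i ^ s * b i ^ t ≤ (∑ i ∈ A, a i) ^ s * (∑ i ∈ A, b i) ^ t := by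
  have hA0 : 0 ≤ ∑ i ∈ A, a i := Finset.sum_nonneg ha
  have hB0 : 0 ≤ ∑ i ∈ A, b i := Finset.sum_nonneg hb
  rcases hA0.eq_or_lt with hA | hA
  · have h1 : ∀ i ∈ A, a i = 0 := (Finset.sum_eq_zero_iff_of_nonneg ha).1 hA.symm
    rw [Finset.sum_eq_zero fun i hi => by rw [h1 i hi, Real.zero_rpow hs.ne', zero_mul]]
    exact mul_nonneg (Real.rpow_nonneg hA0 _) (Real.rpow_nonneg hB0 _)
  rcases hB0.eq_or_lt with hB | hB
  · have h1 : ∀ i ∈ A, b i = 0 := (Finset.sum_eq_zero_iff_of_nonneg hb).1 hB.symm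
    rw [Finset.sum_eq_zero fun i hi => by rw [h1 i hi, Real.zero_rpow ht.ne', mul_zero]]
    exact mul_nonneg (Real.rpow_nonneg hA0 _) (Real.rpow_nonneg hB0 _)
  set SA := ∑ i ∈ A, a i with hSA
  set SB := ∑ i ∈ A, b i with hSB
  have hC : 0 < SA ^ s * SB ^ t := mul_pos (Real.rpow_pos_of_pos hA _) (Real.rpow_pos_of_pos hB _)
  have h1 : ∀ i ∈ A, a i ^ s * b i ^ t ≤ (s * (a i / SA) + t * (b i / SB)) * (SA ^ s * SB ^ t) := by
    intro i hi
    have h2 := Real.geom_mean_le_arith_mean2_weighted hs.le ht.le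
      (div_nonneg (ha i hi) hA.le) (div_nonneg (hb i hi) hB.le) hst
    rw [Real.div_rpow (ha i hi) hA.le, Real.div_rpow (hb i hi) hB.le] at h2
    have h3 : a i ^ s * b i ^ t = (a i ^ s / SA ^ s * (b i ^ t / SB ^ t)) * (SA ^ s * SB ^ t) := by
      have h4 : SA ^ s ≠ 0 := (Real.rpow_pos_of_pos hA _).ne'
      have h5 : SB ^ t ≠ 0 := (Real.rpow_pos_of_pos hB _).ne'
      field_simp
    rw [h3]
    exact mul_le_mul_of_nonneg_right h2 hC.le
  calc ∑ i ∈ A, a i ^ s * b i ^ t
      ≤ ∑ i ∈ A, (s * (a i / SA) + t * (b i / SB)) * (SA ^ s * SB ^ t) := Finset.sum_le_sum h1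
    _ = (s * (SA / SA) + t * (SB / SB)) * (SA ^ s * SB ^ t) := by
        rw [← Finset.sum_mul, Finset.sum_add_distrib, ← Finset.mul_sum, ← Finset.mul_sum,
          ← Finset.sum_div, ← Finset.sum_div]
    _ = SA ^ s * SB ^ t := by
        rw [div_self hA.ne', div_self hB.ne']
        rw [mul_one, mul_one, hst, one_mul]

lemma S_conv (w w' : ℕ → ℝ) (s t : ℝ) (i j : ℕ) :
    S (s • w + t • w') i j = s * S w i j + t * S w' i j := by
  unfold S
  rw [Finset.mul_sum, Finset.mul_sum, ← Finset.sum_add_distrib]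
  apply Finset.sum_congr rfl
  intro n _
  simp

lemma phi_conv (w w' : ℕ → ℝ) {s t : ℝ} (hs : 0 < s) (ht : 0 < t) (hst : s + t = 1) (i j : ℕ) :
    phi (s • w + t • w') i j ≤ phi w i j ^ s * phi w' i j ^ t := by
  have h := holder_sum (Finset.univ : Finset Bool)
    (fun b => if b then (1 : ℝ) / 2 else Real.exp (S w i j) / 2)
    (fun b => if b then (1 : ℝ) / 2 else Real.exp (S w' i j) / 2) hs ht hst
    (by intro b _; split_ifs <;> positivity)
    (by intro b _; split_ifs <;> positivity)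
  rw [Fintype.sum_bool, Fintype.sum_bool, Fintype.sum_bool] at h
  simp only [if_true, Bool.false_eq_true, if_false] at h
  have e1 : (1 / 2 : ℝ) ^ s * (1 / 2) ^ t = 1 / 2 := by
    rw [← Real.rpow_add (by norm_num), hst, Real.rpow_one]
  have e2 : (Real.exp (S w i j) / 2) ^ s * (Real.exp (S w' i j) / 2) ^ t
      = Real.exp (s * S w i j + t * S w' i j) / 2 := by
    rw [Real.div_rpow (Real.exp_pos _).le (by norm_num), Real.div_rpow (Real.exp_pos _).le
      (by norm_num), ← Real.exp_mul, ← Real.exp_mul, div_mul_div_comm, ← Real.exp_add,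
      ← Real.rpow_add (by norm_num), hst, Real.rpow_one]
    congr 2
    ring
  rw [e1, e2] at h
  unfold phi
  rw [S_conv]
  have e3 : ∀ x : ℝ, (1 + Real.exp x) / 2 = 1 / 2 + Real.exp x / 2 := by intro x; ring
  rw [e3, e3, e3]
  exact h

lemma G_conv {K : ℕ → ℝ} (hK : ∀ n, 0 ≤ K n) (w w' : ℕ → ℝ) {s t : ℝ} (hs : 0 < s) (ht : 0 < t)
    (hst : s + t = 1) (j : ℕ) (d : ℕ) : ∀ i, i ≤ j → j - i = d →
    G K (s • w + t • w') i j ≤ G K w i j ^ s * G K w' i j ^ t := by
  have hG0 := (Cop764.M_G.J_G) K w hK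
  have hG0' := (Cop764.M_G.J_G) K w' hK
  have hphi : ∀ (w : ℕ → ℝ) i j, 0 ≤ phi w i j := fun w i j => by unfold phi; positivity
  induction d using Nat.strong_induction_on with
  | _ d ih =>
    intro i hij hd
    rcases Nat.eq_or_lt_of_le hij with h | h
    · subst h
      rw [hG0.1, hG0'.1, (Cop764.M_G.J_G K (s • w + t • w') hK).1]
      simp
    · rw [G_eq K (s • w + t • w') i j, G_eq K w i j, G_eq K w' i j, if_neg (by omega),
        if_neg (by omega), if_neg (by omega)]
      refine le_trans ?_ (holder_sum (Finset.Ioc i j) (fun k => K (k - i) * phi w i k * G K w k j)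
        (fun k => K (k - i) * phi w' i k * G K w' k j) hs ht hst
        (fun k _ => mul_nonneg (mul_nonneg (hK _) (hphi _ _ _)) (hG0.2.1 _ _))
        (fun k _ => mul_nonneg (mul_nonneg (hK _) (hphi _ _ _)) (hG0'.2.1 _ _)))
      apply Finset.sum_le_sum
      intro k hk
      rw [Finset.mem_Ioc] at hk
      have h1 := ih (j - k) (by omega) k hk.2 rfl
      have h2 := phi_conv w w' hs ht hst i k
      have h3 : K (k - i) = K (k - i) ^ s * K (k - i) ^ t := by
        rcases (hK (k - i)).eq_or_lt with h0 | h0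
        · rw [← h0, Real.zero_rpow hs.ne', zero_mul]
        · rw [← Real.rpow_add h0, hst, Real.rpow_one]
      have h4 : (K (k - i) * phi w i k * G K w k j) ^ s * (K (k - i) * phi w' i k * G K w' k j) ^ t
          = (K (k - i) ^ s * K (k - i) ^ t) * (phi w i k ^ s * phi w' i k ^ t) *
            (G K w k j ^ s * G K w' k j ^ t) := by
        rw [Real.mul_rpow (mul_nonneg (hK _) (hphi _ _ _)) (hG0.2.1 _ _),
          Real.mul_rpow (mul_nonneg (hK _) (hphi _ _ _)) (hG0'.2.1 _ _),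
          Real.mul_rpow (hK _) (hphi _ _ _), Real.mul_rpow (hK _) (hphi _ _ _)]
        ring
      rw [h4, ← h3]
      apply mul_le_mul (mul_le_mul_of_nonneg_left h2 (hK _)) h1
      · exact ((Cop764.M_G.J_G K (s • w + t • w') hK)).2.1 _ _
      · exact mul_nonneg (hK _) (mul_nonneg (Real.rpow_nonneg (hphi _ _ _) _)
          (Real.rpow_nonneg (hphi _ _ _) _))

lemma G_pos {K : ℕ → ℝ} (hK : ∀ n, 0 ≤ K n) {N : ℕ} (hN : 1 ≤ N) (hKN : 0 < K N) (w : ℕ → ℝ) :
    0 < G K w 0 N := by
  have h := (Cop764.M_G.J_G K w hK).2.2.1 0 N (by omega)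
  rw [Nat.sub_zero] at h
  have h2 : 0 < phi w 0 N := by unfold phi; positivity
  exact lt_of_lt_of_le (mul_pos hKN h2) h

lemma logG_convexOn {K : ℕ → ℝ} (hK : ∀ n, 0 ≤ K n) {N : ℕ} (hN : 1 ≤ N) (hKN : 0 < K N) :
    ConvexOn ℝ Set.univ (fun w : ℕ → ℝ => Real.log (G K w 0 N)) := by
  refine ⟨convex_univ, ?_⟩
  intro w _ w' _ s t hs ht hst
  simp only [smul_eq_mul]
  rcases hs.eq_or_lt with h0 | h0
  · have : t = 1 := by linarith
    rw [← h0, this]; simp
  rcases ht.eq_or_lt with h1 | h1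
  · have : s = 1 := by linarith
    rw [← h1, this]; simp
  have h2 := G_conv hK w w' h0 h1 hst N N 0 (by omega) (by omega)
  have hp := G_pos hK hN hKN w
  have hp' := G_pos hK hN hKN w'
  calc Real.log (G K (s • w + t • w') 0 N) ≤ Real.log (G K w 0 N ^ s * G K w' 0 N ^ t) :=
        Real.log_le_log (G_pos hK hN hKN _) h2
    _ = s * Real.log (G K w 0 N) + t * Real.log (G K w' 0 N) := by
        rw [Real.log_mul (Real.rpow_pos_of_pos hp _).ne' (Real.rpow_pos_of_pos hp' _).ne',
          Real.log_rpow hp, Real.log_rpow hp']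

/-- Rotation inside blocks of length `L`. -/
def rot (L k n : ℕ) : ℕ := if n = 0 then 0 else ((n - 1) / L) * L + ((n - 1) % L + k) % L + 1

lemma rot_inj {L : ℕ} (hL : 1 ≤ L) (k : ℕ) : Function.Injective (rot L k) := by
  intro a b hab
  unfold rot at hab
  by_cases ha : a = 0
  · by_cases hb : b = 0
    · omega
    · rw [if_pos ha, if_neg hb] at hab; omega
  · by_cases hb : b = 0
    · rw [if_neg ha, if_pos hb] at hab; omega
    · rw [if_neg ha, if_neg hb] at hab
      have h1 : ((a - 1) % L + k) % L < L := Nat.mod_lt _ hL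
      have h2 : ((b - 1) % L + k) % L < L := Nat.mod_lt _ hL
      have h3 : (a - 1) / L * L + ((a - 1) % L + k) % L = (b - 1) / L * L + ((b - 1) % L + k) % L := by
        omega
      have h4 : (a - 1) / L = (b - 1) / L := by
        have e1 : ((a - 1) / L * L + ((a - 1) % L + k) % L) / L = (a - 1) / L := by
          rw [add_comm, Nat.add_mul_div_right _ _ hL, Nat.div_eq_of_lt h1, zero_add]
        have e2 : ((b - 1) / L * L + ((b - 1) % L + k) % L) / L = (b - 1) / L := by
          rw [add_comm, Nat.add_mul_div_right _ _ hL, Nat.div_eq_of_lt h2, zero_add]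
        rw [← e1, ← e2, h3]
      rw [h4] at h3
      have h5 : ((a - 1) % L + k) % L = ((b - 1) % L + k) % L := by omega
      have h6 : ((a - 1) % L) % L = ((b - 1) % L) % L := Nat.ModEq.add_right_cancel' k h5
      rw [Nat.mod_mod, Nat.mod_mod] at h6
      have h7 := Nat.div_add_mod (a - 1) L
      have h8 := Nat.div_add_mod (b - 1) L
      rw [h4, h6] at h7
      omega

lemma sum_rot {L : ℕ} (hL : 1 ≤ L) (f : ℕ → ℝ) {n : ℕ} (hn : 1 ≤ n) :
    ∑ k ∈ Finset.range L, f (rot L k n)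
      = ∑ m ∈ Finset.Ioc ((n - 1) / L * L) (((n - 1) / L + 1) * L), f m := by
  set b := (n - 1) / L with hb
  set r := (n - 1) % L with hr
  have hrL : r < L := Nat.mod_lt _ hL
  have h1 : ∀ k, rot L k n = b * L + (r + k) % L + 1 := by
    intro k
    unfold rot
    rw [if_neg (by omega)]
  simp only [h1]
  have h2 : (b + 1) * L = b * L + L := by ring
  refine Finset.sum_nbij (fun k => b * L + (r + k) % L + 1) ?_ ?_ ?_ ?_
  · intro k _
    have : (r + k) % L < L := Nat.mod_lt _ hL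
    rw [Finset.mem_Ioc]
    omega
  · intro k hk k' hk' hkk
    rw [Finset.mem_coe, Finset.mem_range] at hk hk'
    simp only at hkk
    have h3 : (r + k) % L = (r + k') % L := by omega
    have h4 : k % L = k' % L := Nat.ModEq.add_left_cancel' r h3
    rwa [Nat.mod_eq_of_lt hk, Nat.mod_eq_of_lt hk'] at h4
  · intro m hm
    rw [Finset.mem_coe, Finset.mem_Ioc] at hm
    simp only [Set.mem_image, Finset.coe_range, Set.mem_Iio]
    set q := m - 1 - b * L with hq
    have hqL : q < L := by omega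
    refine ⟨(q + (L - r)) % L, Nat.mod_lt _ hL, ?_⟩
    have h3 : (r + (q + (L - r)) % L) % L = q := by
      rw [Nat.add_mod_mod, show r + (q + (L - r)) = q + L by omega, Nat.add_mod_right,
        Nat.mod_eq_of_lt hqL]
    rw [h3]
    omega
  · intro k _
    rfl

/-- Block sums of a weight sequence. -/
noncomputable def bs (L : ℕ) (w : ℕ → ℝ) (b : ℕ) : ℝ := ∑ m ∈ Finset.Ioc (b * L) ((b + 1) * L), w m

/-- Pointwise averaging inequality. -/
lemma logG_avg {K : ℕ → ℝ} (hK : ∀ n, 0 ≤ K n) {N : ℕ} (hN : 1 ≤ N) (hKN : 0 < K N) {L : ℕ}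
    (hL : 1 ≤ L) (w : ℕ → ℝ) :
    Real.log (G K (wb L (bs L w)) 0 N)
      ≤ ∑ k ∈ Finset.range L, (1 / (L : ℝ)) * Real.log (G K (fun n => w (rot L k n)) 0 N) := by
  have hL' : (0 : ℝ) < L := by exact_mod_cast hL
  have h := (logG_convexOn hK hN hKN).map_sum_le (t := Finset.range L)
    (w := fun _ => 1 / (L : ℝ)) (p := fun k n => w (rot L k n)) (fun _ _ => by positivity)
    (by rw [Finset.sum_const, Finset.card_range, nsmul_eq_mul]; field_simp) (fun _ _ => trivial)
  simp only [smul_eq_mul] at h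
  refine le_trans (le_of_eq ?_) h
  congr 1
  apply ((Cop764.M_loc.J_loc).2.2.2 K _ _ 0 N ?_).1
  intro n hn
  rw [Finset.mem_Ioc] at hn
  rw [Finset.sum_apply]
  simp only [Pi.smul_apply, smul_eq_mul]
  rw [← Finset.mul_sum, sum_rot hL w (by omega)]
  unfold wb bs
  rw [one_div, inv_mul_eq_div]

end Pool.Agent.R973.Cp
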