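import Mathlib

/-!
# The coarse-grained functional
-/

set_option autoImplicit false

open MeasureTheory ProbabilityTheory

namespace Pool.Agent.R973.Cp

/-- Sum over `[a, b)`. -/
noncomputable def Sm (a b : ℕ) (x : ℕ → ℝ) : ℝ := ∑ l ∈ Finset.Ico a b, x l

/-- Shift of a sequence. -/
def sh (k : ℕ) (x : ℕ → ℝ) : ℕ → ℝ := fun n => x (n + k)

/-- Log-probability of a jump over `j` blocks. -/
noncomputable def jc (α cst : ℝ) (j : ℕ) : ℝ := cst - (1 + α) * Real.log j

/-- The value functional: best score of a path going from window `0` to window `M`. -/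
noncomputable def W (α cst : ℝ) : (M : ℕ) → (ℕ → ℝ) → ℝ
  | 0, _ => 0
  | (M + 1), x => -|x 0| + (Finset.univ : Finset (Fin (M + 1))).sup' Finset.univ_nonempty
      (fun j => jc α cst (j.val + 1) + max 0 (Sm 1 (j.val + 1) x) +
        W α cst (M - j.val) (sh (j.val + 1) x))
termination_by M => M
decreasing_by omega

variable {α cst : ℝ}

lemma W_zero (x : ℕ → ℝ) : W α cst 0 x = 0 := by rw [W]

lemma W_succ (M : ℕ) (x : ℕ → ℝ) : W α cst (M + 1) x =
    -|x 0| + (Finset.univ : Finset (Fin (M + 1))).sup' Finset.univ_nonempty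
      (fun j => jc α cst (j.val + 1) + max 0 (Sm 1 (j.val + 1) x) +
        W α cst (M - j.val) (sh (j.val + 1) x)) := by rw [W]

lemma W_ge {M j : ℕ} (hj : 1 ≤ j) (hjM : j ≤ M) (x : ℕ → ℝ) :
    -|x 0| + jc α cst j + max 0 (Sm 1 j x) + W α cst (M - j) (sh j x) ≤ W α cst M x := by
  obtain ⟨M, rfl⟩ : ∃ m, M = m + 1 := ⟨M - 1, by omega⟩
  obtain ⟨j, rfl⟩ : ∃ m, j = m + 1 := ⟨j - 1, by omega⟩
  rw [W_succ]
  have h := Finset.le_sup' (s := (Finset.univ : Finset (Fin (M + 1))))
    (f := fun j : Fin (M + 1) => jc α cst (j.val + 1) + max 0 (Sm 1 (j.val + 1) x) +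
        W α cst (M - j.val) (sh (j.val + 1) x)) (Finset.mem_univ (⟨j, by omega⟩ : Fin (M + 1)))
  simp only at h
  have e : M + 1 - (j + 1) = M - j := by omega
  rw [e]
  linarith

lemma W_cases {M : ℕ} (hM : 1 ≤ M) (x : ℕ → ℝ) : ∃ j, 1 ≤ j ∧ j ≤ M ∧
    W α cst M x = -|x 0| + jc α cst j + max 0 (Sm 1 j x) + W α cst (M - j) (sh j x) := by
  obtain ⟨M, rfl⟩ : ∃ m, M = m + 1 := ⟨M - 1, by omega⟩
  rw [W_succ]
  obtain ⟨j, -, hj⟩ := Finset.exists_mem_eq_sup' (s := (Finset.univ : Finset (Fin (M + 1))))
    Finset.univ_nonempty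
    (fun j : Fin (M + 1) => jc α cst (j.val + 1) + max 0 (Sm 1 (j.val + 1) x) +
        W α cst (M - j.val) (sh (j.val + 1) x))
  refine ⟨j.val + 1, by omega, by omega, ?_⟩
  rw [hj]
  have e : M + 1 - (j.val + 1) = M - j.val := by omega
  rw [e]
  ring

lemma sum_Ico_abs (a b : ℕ) (x y : ℕ → ℝ) :
    |Sm a b x - Sm a b y| ≤ ∑ l ∈ Finset.Ico a b, |x l - y l| := by
  unfold Sm
  rw [← Finset.sum_sub_distrib]
  exact Finset.abs_sum_le_sum_abs _ _

lemma W_le_add (M : ℕ) : ∀ x y : ℕ → ℝ,
    W α cst M x ≤ W α cst M y + ∑ l ∈ Finset.range M, |x l - y l| := by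
  induction M using Nat.strong_induction_on with
  | _ M ih =>
    intro x y
    rcases Nat.eq_zero_or_pos M with h | h
    · subst h; simp [W_zero]
    · obtain ⟨j, hj1, hj2, hj⟩ := W_cases (α := α) (cst := cst) h x
      have h1 := W_ge (α := α) (cst := cst) hj1 hj2 y
      have h2 := ih (M - j) (by omega) (sh j x) (sh j y)
      have h3 : |y 0| ≤ |x 0| + |x 0 - y 0| := by
        have := abs_sub_abs_le_abs_sub (y 0) (x 0)
        rw [abs_sub_comm] at this
        linarith
      have h4 : max 0 (Sm 1 j x) ≤ max 0 (Sm 1 j y) + ∑ l ∈ Finset.Ico 1 j, |x l - y l| := by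
        have h5 := sum_Ico_abs 1 j x y
        have h6 : Sm 1 j x ≤ Sm 1 j y + ∑ l ∈ Finset.Ico 1 j, |x l - y l| := by
          have := (abs_le.1 h5).2
          linarith
        have h7 : 0 ≤ ∑ l ∈ Finset.Ico 1 j, |x l - y l| :=
          Finset.sum_nonneg fun _ _ => abs_nonneg _
        apply max_le
        · have := le_max_left 0 (Sm 1 j y)
          linarith
        · have := le_max_right 0 (Sm 1 j y)
          linarith
      have h8 : ∑ l ∈ Finset.range (M - j), |sh j x l - sh j y l|
          = ∑ l ∈ Finset.Ico j M, |x l - y l| := by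
        rw [Finset.sum_Ico_eq_sum_range]
        apply Finset.sum_congr rfl
        intro l _
        unfold sh
        rw [add_comm j l]
      have h9 : ∑ l ∈ Finset.range M, |x l - y l|
          = |x 0 - y 0| + ∑ l ∈ Finset.Ico 1 j, |x l - y l| + ∑ l ∈ Finset.Ico j M, |x l - y l| := by
        rw [Finset.range_eq_Ico, ← Finset.sum_Ico_consecutive _ (by omega : 0 ≤ j) hj2,
          ← Finset.sum_Ico_consecutive _ (by omega : 0 ≤ 1) hj1]
        simp
      rw [h9]
      linarith

lemma W_lip (M : ℕ) (x y : ℕ → ℝ) :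
    |W α cst M x - W α cst M y| ≤ ∑ l ∈ Finset.range M, |x l - y l| := by
  rw [abs_le]
  constructor
  · have := W_le_add (α := α) (cst := cst) M y x
    have h : ∑ l ∈ Finset.range M, |y l - x l| = ∑ l ∈ Finset.range M, |x l - y l| :=
      Finset.sum_congr rfl fun l _ => abs_sub_comm _ _
    linarith
  · have := W_le_add (α := α) (cst := cst) M x y
    linarith

lemma measurable_Sm (a b : ℕ) : Measurable (Sm a b) := by
  unfold Sm
  exact Finset.measurable_sum _ fun l _ => measurable_pi_apply l

lemma measurable_sh (k : ℕ) : Measurable (sh k) := by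
  unfold sh
  exact measurable_pi_iff.2 fun n => measurable_pi_apply (n + k)

lemma measurable_W (M : ℕ) : Measurable (W α cst M) := by
  induction M using Nat.strong_induction_on with
  | _ M ih =>
    rcases Nat.eq_zero_or_pos M with h | h
    · subst h
      have : W α cst 0 = fun _ => 0 := by funext x; exact W_zero x
      rw [this]; exact measurable_const
    · obtain ⟨M, rfl⟩ : ∃ m, M = m + 1 := ⟨M - 1, by omega⟩
      have : W α cst (M + 1) = fun x => -|x 0| +
        (Finset.univ : Finset (Fin (M + 1))).sup' Finset.univ_nonempty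
        (fun j => jc α cst (j.val + 1) + max 0 (Sm 1 (j.val + 1) x) +
          W α cst (M - j.val) (sh (j.val + 1) x)) := by funext x; exact W_succ M x
      rw [this]
      apply Measurable.add
      · exact (measurable_pi_apply 0).abs.neg
      · have h2 : ∀ j : Fin (M + 1), Measurable fun x : ℕ → ℝ =>
            jc α cst (j.val + 1) + max 0 (Sm 1 (j.val + 1) x) +
              W α cst (M - j.val) (sh (j.val + 1) x) := by
          intro j
          exact (measurable_const.add (measurable_const.max (measurable_Sm _ _))).add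
            ((ih (M - j.val) (by omega)).comp (measurable_sh _))
        have h3 := Finset.measurable_sup' (s := (Finset.univ : Finset (Fin (M + 1))))
          Finset.univ_nonempty (fun j _ => h2 j)
        convert h3 using 1
        funext x
        rw [Finset.sup'_apply]

/-- `W M` depends on the first `M` coordinates only. -/
lemma W_congr (M : ℕ) {x y : ℕ → ℝ} (h : ∀ l < M, x l = y l) : W α cst M x = W α cst M y := by
  have := W_lip (α := α) (cst := cst) M x y
  have h2 : ∑ l ∈ Finset.range M, |x l - y l| = 0 := by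
    apply Finset.sum_eq_zero
    intro l hl
    rw [h l (Finset.mem_range.1 hl)]; simp
  rw [h2] at this
  have := abs_nonpos_iff.1 this
  linarith

/-- A crude bound. -/
lemma W_abs_le (M : ℕ) (x : ℕ → ℝ) :
    |W α cst M x| ≤ |W α cst M 0| + ∑ l ∈ Finset.range M, |x l| := by
  have := W_lip (α := α) (cst := cst) M x 0
  have h2 : ∑ l ∈ Finset.range M, |x l - (0 : ℕ → ℝ) l| = ∑ l ∈ Finset.range M, |x l| := by
    apply Finset.sum_congr rfl
    intro l _
    simp
  rw [h2] at this
  have h3 := abs_sub_abs_le_abs_sub (W α cst M x) (W α cst M 0)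
  linarith

end Pool.Agent.R973.Cp
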