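import Pool.Agent.R973.Cp.Prob

/-!
# Convergence of expectations of Lipschitz functions of block sums
-/

set_option autoImplicit false

open MeasureTheory ProbabilityTheory Filter Topology
open scoped ENNReal NNReal BoundedContinuousFunction

namespace Pool.Agent.R973.Cp

open Cop764 (disorder)

/-- Truncation. -/
noncomputable def trc (K u : ℝ) : ℝ := max (-K) (min u K)

lemma trc_abs_le {K : ℝ} (hK : 0 ≤ K) (u : ℝ) : |trc K u| ≤ K := by
  unfold trc
  rw [abs_le]
  exact ⟨le_max_left _ _, max_le (by linarith) (min_le_right _ _)⟩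

lemma trc_err {K : ℝ} (hK : 0 < K) (u : ℝ) : |u - trc K u| ≤ u ^ 2 / K := by
  unfold trc
  rw [le_div_iff₀ hK]
  rcases le_total u K with h | h
  · rw [min_eq_left h]
    rcases le_total (-K) u with h' | h'
    · rw [max_eq_right h']; simp; positivity
    · rw [max_eq_left h', abs_of_nonpos (by linarith)]
      nlinarith
  · rw [min_eq_right h, max_eq_right (by linarith), abs_of_nonneg (by linarith)]
    nlinarith

lemma continuous_trc (K : ℝ) : Continuous (trc K) := by
  unfold trc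
  exact continuous_const.max (continuous_id.min continuous_const)

/-- Bounds for an integrand of linear growth under a product of laws with second moment at most
one. -/
lemma pi_bounds {R : ℕ} (μ : Measure ℝ) [IsProbabilityMeasure μ]
    (h2 : Integrable (fun z => z ^ 2) μ) (hv : ∫ z, z ^ 2 ∂μ ≤ 1) (F : (Fin R → ℝ) → ℝ)
    (hFc : Continuous F) (A : ℝ) (hA : 0 ≤ A) (hF : ∀ v, |F v| ≤ A + 2 * ∑ i, |v i|) {K : ℝ}
    (hK : 0 < K) :
    Integrable F (Measure.pi fun _ : Fin R => μ) ∧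
    |∫ v, F v ∂(Measure.pi fun _ : Fin R => μ) - ∫ v, trc K (F v) ∂(Measure.pi fun _ : Fin R => μ)|
      ≤ (2 * A ^ 2 + 8 * (R : ℝ) * R) / K := by
  have hz2 : ∀ i : Fin R, Integrable (fun v : Fin R → ℝ => (v i) ^ 2)
      (Measure.pi fun _ : Fin R => μ) := by
    intro i
    have hmp := measurePreserving_eval (fun _ : Fin R => μ) i
    exact hmp.integrable_comp_of_integrable h2
  have hz2i : ∀ i : Fin R, ∫ v : Fin R → ℝ, (v i) ^ 2 ∂(Measure.pi fun _ : Fin R => μ) ≤ 1 := by
    intro i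
    have hmp := measurePreserving_eval (fun _ : Fin R => μ) i
    have h3 : ∫ z, z ^ 2 ∂μ = ∫ z, z ^ 2 ∂((Measure.pi fun _ : Fin R => μ).map
        (Function.eval i)) := by rw [hmp.map_eq]
    rw [integral_map hmp.measurable.aemeasurable (by fun_prop)] at h3
    simp only [Function.eval] at h3
    rw [← h3]
    exact hv
  have hQ : Integrable (fun v : Fin R → ℝ => 2 * A ^ 2 + 8 * (R : ℝ) * ∑ i, (v i) ^ 2)
      (Measure.pi fun _ : Fin R => μ) :=
    (integrable_const _).add ((integrable_finsetSum _ fun i _ => hz2 i).const_mul _)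
  have hsq : ∀ v : Fin R → ℝ, (F v) ^ 2 ≤ 2 * A ^ 2 + 8 * (R : ℝ) * ∑ i, (v i) ^ 2 := by
    intro v
    have h1 : (∑ i, |v i|) ^ 2 ≤ (R : ℝ) * ∑ i, (v i) ^ 2 := by
      have := sq_sum_le_card_mul_sum_sq (s := (Finset.univ : Finset (Fin R))) (f := fun i => |v i|)
      simpa using this
    have h3 : 0 ≤ ∑ i, |v i| := Finset.sum_nonneg fun _ _ => abs_nonneg _
    have h4 : (F v) ^ 2 ≤ (A + 2 * ∑ i, |v i|) ^ 2 := by
      rw [← sq_abs (F v)]
      exact pow_le_pow_left₀ (abs_nonneg _) (hF v) 2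
    nlinarith [sq_nonneg (A - 2 * ∑ i, |v i|)]
  have hFint : Integrable F (Measure.pi fun _ : Fin R => μ) := by
    have h1 : Integrable (fun v : Fin R → ℝ => 1 + (2 * A ^ 2 + 8 * (R : ℝ) * ∑ i, (v i) ^ 2))
        (Measure.pi fun _ : Fin R => μ) := (integrable_const _).add hQ
    apply h1.mono hFc.aestronglyMeasurable
    filter_upwards with v
    rw [Real.norm_eq_abs, Real.norm_eq_abs]
    refine le_trans ?_ (le_abs_self _)
    have h3 := hsq v
    have h4 : |F v| ≤ 1 + (F v) ^ 2 := by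
      rw [← sq_abs (F v)]
      nlinarith [sq_nonneg (|F v| - 1), abs_nonneg (F v)]
    linarith
  have hTint : Integrable (fun v => trc K (F v)) (Measure.pi fun _ : Fin R => μ) := by
    apply Integrable.of_bound ((continuous_trc K).comp hFc).aestronglyMeasurable K
    filter_upwards with v
    rw [Real.norm_eq_abs]
    exact trc_abs_le hK.le _
  refine ⟨hFint, ?_⟩
  rw [← integral_sub hFint hTint]
  calc |∫ v, (F v - trc K (F v)) ∂(Measure.pi fun _ : Fin R => μ)|
      ≤ ∫ v, |F v - trc K (F v)| ∂(Measure.pi fun _ : Fin R => μ) := abs_integral_le_integral_abs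
    _ ≤ ∫ v, (2 * A ^ 2 + 8 * (R : ℝ) * ∑ i, (v i) ^ 2) / K ∂(Measure.pi fun _ : Fin R => μ) := by
        apply integral_mono (hFint.sub hTint).abs (hQ.div_const K)
        intro v
        exact (trc_err hK _).trans (div_le_div_of_nonneg_right (hsq v) hK.le)
    _ = (2 * A ^ 2 + 8 * (R : ℝ) * ∑ i, ∫ v : Fin R → ℝ, (v i) ^ 2
          ∂(Measure.pi fun _ : Fin R => μ)) / K := by
        rw [integral_div, integral_add (integrable_const _)
          ((integrable_finsetSum _ fun i _ => hz2 i).const_mul _),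
          integral_const_mul (8 * (R : ℝ)), integral_finsetSum _ fun i _ => hz2 i]
        simp
    _ ≤ _ := by
        apply div_le_div_of_nonneg_right _ hK.le
        have h1 : ∑ i : Fin R, ∫ v : Fin R → ℝ, (v i) ^ 2 ∂(Measure.pi fun _ : Fin R => μ)
            ≤ ∑ i : Fin R, (1 : ℝ) := Finset.sum_le_sum fun i _ => hz2i i
        simp only [Finset.sum_const, Finset.card_univ, Fintype.card_fin, nsmul_eq_mul,
          mul_one] at h1
        have h3 := mul_le_mul_of_nonneg_left h1 (show (0 : ℝ) ≤ 8 * R by positivity)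
        linarith

theorem pi_tendsto {R : ℕ} (μs : ℕ → ProbabilityMeasure ℝ) (μ : ProbabilityMeasure ℝ)
    (hconv : Tendsto μs atTop (𝓝 μ))
    (h2s : ∀ n, Integrable (fun z => z ^ 2) (μs n : Measure ℝ))
    (hvs : ∀ n, ∫ z, z ^ 2 ∂(μs n : Measure ℝ) ≤ 1)
    (h2 : Integrable (fun z => z ^ 2) (μ : Measure ℝ)) (hv : ∫ z, z ^ 2 ∂(μ : Measure ℝ) ≤ 1)
    (F : (Fin R → ℝ) → ℝ) (hFc : Continuous F) (A : ℝ) (hA : 0 ≤ A)
    (hF : ∀ v, |F v| ≤ A + 2 * ∑ i, |v i|) :
    Tendsto (fun n => ∫ v, F v ∂(Measure.pi fun _ : Fin R => (μs n : Measure ℝ))) atTop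
      (𝓝 (∫ v, F v ∂(Measure.pi fun _ : Fin R => (μ : Measure ℝ)))) := by
  have hpi : Tendsto (fun n => ProbabilityMeasure.pi fun _ : Fin R => μs n) atTop
      (𝓝 (ProbabilityMeasure.pi fun _ : Fin R => μ)) := by
    have h1 : Tendsto (fun n => (fun _ : Fin R => μs n)) atTop (𝓝 (fun _ : Fin R => μ)) :=
      tendsto_pi_nhds.2 fun _ => hconv
    exact (ProbabilityMeasure.continuous_pi.tendsto _).comp h1
  rw [ProbabilityMeasure.tendsto_iff_forall_integral_tendsto] at hpi
  rw [Metric.tendsto_atTop]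
  intro ε hε
  set Q : ℝ := 2 * A ^ 2 + 8 * (R : ℝ) * R with hQ
  have hQ0 : 0 ≤ Q := by positivity
  set K : ℝ := 3 * (Q + 1) / ε with hK
  have hK0 : 0 < K := by positivity
  have hQK : Q / K < ε / 3 := by
    rw [hK, div_div_eq_mul_div, div_lt_iff₀ (by positivity)]
    nlinarith
  set g : (Fin R → ℝ) →ᵇ ℝ := BoundedContinuousFunction.ofNormedAddCommGroup
    (fun v => trc K (F v)) ((continuous_trc K).comp hFc) K
    (fun v => by rw [Real.norm_eq_abs]; exact trc_abs_le hK0.le _) with hg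
  have h3 := hpi g
  rw [Metric.tendsto_atTop] at h3
  obtain ⟨N, hN⟩ := h3 (ε / 3) (by positivity)
  refine ⟨N, fun n hn => ?_⟩
  have h4 := hN n hn
  rw [Real.dist_eq] at h4 ⊢
  have e1 : ∫ ω, g ω ∂((ProbabilityMeasure.pi fun _ : Fin R => μs n : ProbabilityMeasure
      (Fin R → ℝ)) : Measure (Fin R → ℝ)) = ∫ v, trc K (F v)
      ∂(Measure.pi fun _ : Fin R => (μs n : Measure ℝ)) := rfl
  have e2 : ∫ ω, g ω ∂((ProbabilityMeasure.pi fun _ : Fin R => μ : ProbabilityMeasure
      (Fin R → ℝ)) : Measure (Fin R → ℝ)) = ∫ v, trc K (F v)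
      ∂(Measure.pi fun _ : Fin R => (μ : Measure ℝ)) := rfl
  rw [e1, e2] at h4
  have h5 := (pi_bounds (μs n : Measure ℝ) (h2s n) (hvs n) F hFc A hA hF hK0).2
  have h6 := (pi_bounds (μ : Measure ℝ) h2 hv F hFc A hA hF hK0).2
  rw [abs_le] at h5 h6
  rw [abs_lt] at h4 ⊢
  constructor <;> linarith [h5.1, h5.2, h6.1, h6.2, h4.1, h4.2]

end Pool.Agent.R973.Cp
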