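import Pool.Agent.R973.Cp.Main

/-!
# Weak coupling: the slope is strictly larger than `1/(1+α)`
-/

set_option autoImplicit false

open MeasureTheory ProbabilityTheory Filter Topology
open scoped ENNReal NNReal

namespace Pool.Agent.R973.Cp

open Cop764 (disorder Data G freeEnergy)

/-- the elementary estimates on the parameters -/
lemma param {θ δ lam L : ℝ} (hθ0 : 0 < θ) (hθ1 : θ < 1) (hδ : 0 < δ) (hlam : 0 < lam)
    (hl : lam ^ 2 < 1 / 4) (h1 : 1 ≤ lam ^ 2 * L) (h2 : lam ^ 2 * L ≤ 1 + 4 * lam ^ 2) :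
    |(-2 * lam * Real.sqrt L) + 2| + |(-2 * lam * ((θ + δ) * lam) * L) + 2 * θ|
      ≤ 16 * lam ^ 2 + 4 * δ := by
  have hL : 0 ≤ L := by
    by_contra hcon
    rw [not_le] at hcon
    nlinarith [pow_pos hlam 2]
  have hs : lam * Real.sqrt L = Real.sqrt (lam ^ 2 * L) := by
    rw [Real.sqrt_mul (by positivity), Real.sqrt_sq hlam.le]
  have hs1 : 1 ≤ Real.sqrt (lam ^ 2 * L) := Real.one_le_sqrt.2 h1
  have hs2 : Real.sqrt (lam ^ 2 * L) ≤ lam ^ 2 * L := by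
    rw [Real.sqrt_le_left (by linarith)]
    nlinarith
  have e1 : |(-2 * lam * Real.sqrt L) + 2| ≤ 8 * lam ^ 2 := by
    have : (-2 * lam * Real.sqrt L) + 2 = -2 * (Real.sqrt (lam ^ 2 * L) - 1) := by
      rw [← hs]; ring
    rw [this, abs_mul, abs_of_nonneg (by linarith : 0 ≤ Real.sqrt (lam ^ 2 * L) - 1)]
    norm_num
    linarith
  have e2 : |(-2 * lam * ((θ + δ) * lam) * L) + 2 * θ| ≤ 8 * lam ^ 2 + 4 * δ := by
    have : (-2 * lam * ((θ + δ) * lam) * L) + 2 * θ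
        = -(2 * θ * (lam ^ 2 * L - 1) + 2 * δ * (lam ^ 2 * L)) := by ring
    rw [this, abs_neg, abs_of_nonneg (by
      have := mul_nonneg hθ0.le (sub_nonneg.2 h1)
      have := mul_nonneg hδ.le (zero_le_one.trans h1)
      nlinarith)]
    have h3 : θ * (lam ^ 2 * L - 1) ≤ 1 * (4 * lam ^ 2) := by
      apply mul_le_mul hθ1.le (by linarith) (by linarith) zero_le_one
    have h4 : δ * (lam ^ 2 * L) ≤ δ * 2 := mul_le_mul_of_nonneg_left (by linarith) hδ.le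
    linarith
  linarith

theorem strict_data (κ : PMF ℕ) (κ0 : κ 0 = 0) (α cK : ℝ) (hα : 0 < α) (hα1 : α < 1)
    (hcK : 0 < cK)
    (htail : Tendsto (fun n : ℕ => (n : ℝ) ^ (1 + α) * (κ n).toReal) atTop (𝓝 cK))
    (ν : Measure ℝ) [hν : IsProbabilityMeasure ν] (mean : ∫ x, x ∂ν = 0)
    (var : ∫ x, x ^ 2 ∂ν = 1) (expm : ∀ t : ℝ, Integrable (fun x => Real.exp (t * x)) ν) :
    ∃ δ : ℝ, 0 < δ ∧ ∃ lam0 : ℝ, 0 < lam0 ∧ ∀ lam : ℝ, 0 < lam → lam < lam0 →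
      0 < freeEnergy κ ν lam ((1 / (1 + α) + δ) * lam) := by
  set D1 : Data := ⟨κ, κ0, α, cK, hα, hcK, htail, ν, hν, mean, var, expm, 1, one_pos⟩ with hD1
  obtain ⟨c0, C1, n0, hK⟩ := exists_KH D1 hα1
  set θ := 1 / (1 + α) with hθ
  have hθα : θ * (1 + α) = 1 := by rw [hθ]; field_simp
  have hθ0 : 0 < θ := by rw [hθ]; positivity
  have hθ1 : θ < 1 := by nlinarith
  obtain ⟨R, hR1, hR⟩ := gauss_growth (cJ α c0 C1) hα hα1 hθα
  have hR' : (0 : ℝ) < R := by exact_mod_cast hR1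
  set e0 := ∫ x, W α (cJ α c0 C1) R x ∂(disorder (gaussianReal (-2 * θ) 4)) with he0
  have hlim := Ph_tendsto (α := α) (cst := cJ α c0 C1) ν (var_int D1) mean var hθ0.le R
  rw [← he0] at hlim
  obtain ⟨L0, hL0⟩ := eventually_atTop.1
    (hlim.eventually (lt_mem_nhds (by linarith : 3 * e0 / 4 < e0)))
  refine ⟨e0 / (32 * R), by positivity, ?_⟩
  have hn0 : 1 ≤ n0 := hK.base.n0_pos
  have hn0' : (1 : ℝ) ≤ n0 := by exact_mod_cast hn0
  set B := min (1 / 4) (min (e0 / (128 * R)) (1 / ((L0 : ℝ) + 4 * n0))) with hB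
  have hB0 : 0 < B := by
    rw [hB]
    refine lt_min (by norm_num) (lt_min (by positivity) (by positivity))
  refine ⟨Real.sqrt B, Real.sqrt_pos.2 hB0, ?_⟩
  intro lam hlam hlam'
  have hsq : lam ^ 2 < B := (Real.lt_sqrt hlam.le).1 hlam'
  have hb1 : lam ^ 2 < 1 / 4 := hsq.trans_le (min_le_left _ _)
  have hb2 : lam ^ 2 < e0 / (128 * R) := hsq.trans_le ((min_le_right _ _).trans (min_le_left _ _))
  have hb3 : lam ^ 2 < 1 / ((L0 : ℝ) + 4 * n0) :=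
    hsq.trans_le ((min_le_right _ _).trans (min_le_right _ _))
  set ℓ := ⌈1 / (4 * lam ^ 2)⌉₊ with hℓ
  have hl2 : 0 < lam ^ 2 := by positivity
  have hℓ1 : 1 / (4 * lam ^ 2) ≤ ℓ := Nat.le_ceil _
  have hℓ2 : (ℓ : ℝ) < 1 / (4 * lam ^ 2) + 1 := Nat.ceil_lt_add_one (by positivity)
  have hL1 : 1 ≤ lam ^ 2 * ((4 * ℓ : ℕ) : ℝ) := by
    push_cast
    rw [div_le_iff₀ (by positivity)] at hℓ1
    linarith
  have hL2 : lam ^ 2 * ((4 * ℓ : ℕ) : ℝ) ≤ 1 + 4 * lam ^ 2 := by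
    push_cast
    have := mul_lt_mul_of_pos_left hℓ2 (by positivity : 0 < 4 * lam ^ 2)
    have e : 4 * lam ^ 2 * (1 / (4 * lam ^ 2) + 1) = 1 + 4 * lam ^ 2 := by
      field_simp
    linarith
  have hbig : (L0 : ℝ) + 4 * n0 ≤ 4 * ℓ := by
    rw [lt_div_iff₀ (by positivity)] at hb3
    have h3 : lam ^ 2 * ((L0 : ℝ) + 4 * n0) < lam ^ 2 * ((4 * ℓ : ℕ) : ℝ) := by linarith
    have h4 := lt_of_mul_lt_mul_left h3 hl2.le
    push_cast at h4
    exact h4.le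
  have hℓn0 : n0 ≤ ℓ := by
    have h5 : (n0 : ℝ) ≤ ℓ := by
      have : (0 : ℝ) ≤ L0 := by positivity
      linarith
    exact_mod_cast h5
  have hℓL0 : L0 ≤ 4 * ℓ := by
    have h5 : (L0 : ℝ) ≤ ((4 * ℓ : ℕ) : ℝ) := by
      push_cast
      linarith
    exact_mod_cast h5
  set D : Data := ⟨κ, κ0, α, cK, hα, hcK, htail, ν, hν, mean, var, expm, lam, hlam⟩ with hD
  have hKD : KH D.K D.α c0 C1 n0 := hK
  have hδ : 0 < e0 / (32 * R) := by positivity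
  refine f_pos_of_W (h := (θ + e0 / (32 * R)) * lam) D hKD (by positivity) hℓn0 R ?_
  have h6 := int_W_ge (α := α) (cst := cJ α c0 C1) ν (var_int D1) mean var (4 * ℓ)
    (-2 * lam * Real.sqrt (4 * ℓ : ℕ)) (-2 * lam * ((θ + e0 / (32 * R)) * lam) * (4 * ℓ : ℕ)) θ R
  refine lt_of_lt_of_le ?_ h6
  have h7 := param hθ0 hθ1 hδ hlam hb1 hL1 hL2
  have h8 := mul_le_mul_of_nonneg_left h7 hR'.le
  have h9 : (R : ℝ) * (16 * lam ^ 2 + 4 * (e0 / (32 * R))) ≤ e0 / 4 := by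
    have h10 : (R : ℝ) * (4 * (e0 / (32 * R))) = e0 / 8 := by
      field_simp
      norm_num
    have h11 : (R : ℝ) * (16 * lam ^ 2) ≤ e0 / 8 := by
      rw [lt_div_iff₀ (by positivity)] at hb2
      nlinarith
    linarith
  have h12 := hL0 (4 * ℓ) hℓL0
  linarith

end Pool.Agent.R973.Cp
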