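import Pool.Agent.R973.Cp.Model
import Pool.Agent.R973.Cp.Strict

/-!
# The critical curve
-/

set_option autoImplicit false

open MeasureTheory ProbabilityTheory Filter Topology

namespace Pool.Agent.R973.Copolymer

variable {κ : PMF ℕ} {α : ℝ} {ν : Measure ℝ} [IsProbabilityMeasure ν]

lemma freeEnergy_eq (lam h : ℝ) : freeEnergy κ ν lam h = Cop764.freeEnergy κ ν lam h := rfl

lemma exists_hc (hα0 : 0 < α) (hκ : IsGapLaw κ α) (hν : IsChargeLaw ν) {lam : ℝ}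
    (hlam : 0 < lam) :
    (∀ h : ℝ, 0 ≤ h → Tendsto (feN κ ν lam h) atTop (𝓝 (freeEnergy κ ν lam h))) ∧
    ∃ c : ℝ, 0 < c ∧ ∀ h : ℝ, 0 ≤ h → (0 < freeEnergy κ ν lam h ↔ h < c) := by
  obtain ⟨cK, hcK, htail⟩ := hκ.tail
  set D : Cop764.Data := ⟨κ, hκ.zero, α, cK, hα0, hcK, htail, ν, inferInstance, hν.mean, hν.var,
    hν.expm, lam, hlam⟩ with hD
  refine ⟨fun h hh => ((Cop764.M_fe.J_fe) D h hh).1, ?_⟩
  obtain ⟨c, hc, hc2, _⟩ := (Cop764.M_hc.J_hc) D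
  exact ⟨c, hc, hc2⟩

lemma hc_spec (hα0 : 0 < α) (hκ : IsGapLaw κ α) (hν : IsChargeLaw ν) {lam : ℝ}
    (hlam : 0 < lam) : 0 < hc κ ν lam ∧ hcNonneg κ ν lam = hc κ ν lam ∧
    ∀ h : ℝ, 0 ≤ h → (0 < freeEnergy κ ν lam h ↔ h < hc κ ν lam) := by
  obtain ⟨_, c, hc0, hc2⟩ := exists_hc hα0 hκ hν hlam
  have h1 : hcNonneg κ ν lam = c := by
    unfold hcNonneg
    have : {h : ℝ | 0 ≤ h ∧ 0 < freeEnergy κ ν lam h} = Set.Ico 0 c := by
      ext h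
      constructor
      · rintro ⟨h1, h2⟩
        exact ⟨h1, (hc2 h h1).1 h2⟩
      · rintro ⟨h1, h2⟩
        exact ⟨h1, (hc2 h h1).2 h2⟩
    rw [this]
    exact csSup_Ico hc0
  have h2 : hc κ ν lam = c := by
    unfold hc
    apply IsLUB.csSup_eq
    · constructor
      · intro h hh
        rcases le_or_gt 0 h with h0 | h0
        · exact ((hc2 h h0).1 hh).le
        · exact h0.le.trans hc0.le
      · intro u hu
        apply le_of_forall_lt_imp_le_of_dense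
        intro a ha
        have h3 : max a 0 < c := max_lt ha hc0
        exact (le_max_left a 0).trans (hu ((hc2 _ (le_max_right a 0)).2 h3))
    · exact ⟨0, (hc2 0 le_rfl).2 hc0⟩
  rw [h1, h2]
  exact ⟨hc0, rfl, hc2⟩

theorem slope_lower (hα0 : 0 < α) (hα1 : α < 1) (hκ : IsGapLaw κ α) (hν : IsChargeLaw ν) :
    ∃ δ : ℝ, 0 < δ ∧ ∀ᶠ lam in 𝓝[>] (0 : ℝ), 1 / (1 + α) + δ ≤ hc κ ν lam / lam := by
  obtain ⟨cK, hcK, htail⟩ := hκ.tail
  obtain ⟨δ, hδ, lam0, hlam0, h⟩ := Pool.Agent.R973.Cp.strict_data κ hκ.zero α cK hα0 hα1 hcK htail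
    ν hν.mean hν.var hν.expm
  refine ⟨δ, hδ, ?_⟩
  filter_upwards [Ioo_mem_nhdsGT hlam0] with lam hlam
  have h1 := h lam hlam.1 hlam.2
  have hpos : 0 ≤ (1 / (1 + α) + δ) * lam := by
    have := hlam.1
    positivity
  have h2 := ((hc_spec hα0 hκ hν hlam.1).2.2 _ hpos).1 h1
  rw [le_div_iff₀ hlam.1]
  exact h2.le

end Pool.Agent.R973.Copolymer
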