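import Pool.Agent.R973.Cp.Limit

/-!
# Positivity of the value functional for the Gaussian law at the critical slope
-/

set_option autoImplicit false

open MeasureTheory ProbabilityTheory Filter Topology
open scoped ENNReal NNReal

namespace Pool.Agent.R973.Cp

open Cop764 (disorder)

theorem gauss_growth {α θ : ℝ} (cst : ℝ) (hα0 : 0 < α) (hα1 : α < 1) (hθα : θ * (1 + α) = 1) :
    ∃ R : ℕ, 1 ≤ R ∧ 0 < ∫ x, W α cst R x ∂(disorder (gaussianReal (-2 * θ) 4)) := by
  have hθ0 : 0 < θ := by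
    by_contra hcon
    nlinarith [not_lt.1 hcon]
  have hθ1 : θ < 1 := by nlinarith
  obtain ⟨c, y0, hc, hhit⟩ := gauss_hit hθ0 hθ1
  have habs : Integrable (fun u : ℝ => |u|) (gaussianReal (-2 * θ) 4) := by
    have h1 : Integrable (fun u : ℝ => u) (gaussianReal (-2 * θ) 4) :=
      (memLp_id_gaussianReal (μ := -2 * θ) (v := 4) 1).integrable le_rfl
    exact h1.abs
  have h1 : ∫ u, Real.exp (θ * u) ∂(gaussianReal (-2 * θ) 4) = 1 := by
    rw [gauss_mgf]
    rw [show -2 * θ * θ + 2 * θ ^ 2 = 0 by ring, Real.exp_zero]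
  have hρ : Real.exp (-2 * θ * (θ / 2) + 2 * (θ / 2) ^ 2) < 1 := by
    apply Real.exp_lt_one_iff.2
    nlinarith [pow_pos hθ0 2]
  have hw : 0 < (gaussianReal (-2 * θ) 4).real {u : ℝ | |u| ≤ 1} := by
    have h2 : {u : ℝ | |u| ≤ 1} = Set.Icc (-1) 1 := by
      ext u
      simp only [Set.mem_setOf_eq, Set.mem_Icc]
      exact abs_le
    rw [h2, measureReal_def, ENNReal.toReal_pos_iff]
    refine ⟨?_, measure_lt_top _ _⟩
    have h3 : (0 : ℝ≥0∞) < (gaussianReal (-2 * θ) 4) (Set.Ioo (-1) 1) := by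
      rw [pos_iff_ne_zero]
      intro h0
      have h4 := (gaussianReal_absolutelyContinuous' (-2 * θ) (v := 4) (by norm_num)) h0
      rw [Real.volume_Ioo] at h4
      norm_num at h4
    exact h3.trans_le (measure_mono Set.Ioo_subset_Icc_self)
  obtain ⟨C, R0, hR0, hM⟩ := coarse_growth (γ := gaussianReal (-2 * θ) 4) cst hα0 hα1 hθα habs
    (integrable_exp_mul_gaussianReal _) h1 (integrable_exp_mul_gaussianReal _)
    (gauss_mgf θ (θ / 2)) hρ hw hc hhit
  have hR0' : (0 : ℝ) < R0 := by exact_mod_cast hR0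
  obtain ⟨M, hM'⟩ := exists_nat_gt ((|C| + 1) * R0)
  have hMpos : 1 ≤ M := by
    by_contra hcon
    have h0 : M = 0 := by omega
    subst h0
    have : 0 < (|C| + 1) * R0 := by positivity
    push_cast at hM'
    linarith
  refine ⟨M, hMpos, lt_of_lt_of_le ?_ (hM M)⟩
  have h5 : |C| + 1 < (M : ℝ) / R0 := by
    rw [lt_div_iff₀ hR0']
    exact hM'
  linarith [le_abs_self C]

end Pool.Agent.R973.Cp
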