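import Pool.Agent.R973.Cp.Growth

/-!
# Gaussian steps: hitting probabilities
-/

set_option autoImplicit false

open MeasureTheory ProbabilityTheory Filter Topology
open scoped ENNReal NNReal

namespace Pool.Agent.R973.Cp

open Cop764 (disorder)

lemma second_moment {Ω : Type*} [MeasurableSpace Ω] (P : Measure Ω) [IsProbabilityMeasure P]
    (E : ℕ → Set Ω) (hE : ∀ r, MeasurableSet (E r)) (I : Finset ℕ) {C : ℝ} (hC : 0 < C)
    (h : ∑ r ∈ I, ∑ r' ∈ I, P.real (E r ∩ E r') ≤ C * ∑ r ∈ I, P.real (E r)) :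
    ∑ r ∈ I, P.real (E r) ≤ C * P.real (⋃ r ∈ I, E r) := by
  classical
  set N : Ω → ℝ := fun x => ∑ r ∈ I, (E r).indicator (fun _ => (1 : ℝ)) x with hN
  have hmi : ∀ r, Integrable ((E r).indicator fun _ => (1 : ℝ)) P := fun r =>
    (integrable_const 1).indicator (hE r)
  have hmii : ∀ r r', Integrable ((E r ∩ E r').indicator fun _ => (1 : ℝ)) P := fun r r' =>
    (integrable_const 1).indicator ((hE r).inter (hE r'))
  have hNint : Integrable N P := integrable_finsetSum _ fun r _ => hmi r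
  have hU : MeasurableSet (⋃ r ∈ I, E r) := Finset.measurableSet_biUnion _ fun r _ => hE r
  have hUint : Integrable ((⋃ r ∈ I, E r).indicator fun _ => (1 : ℝ)) P :=
    (integrable_const 1).indicator hU
  have hNsq : ∀ x, N x * N x = ∑ r ∈ I, ∑ r' ∈ I, (E r ∩ E r').indicator (fun _ => (1 : ℝ)) x := by
    intro x
    rw [hN]
    simp only
    rw [Finset.sum_mul_sum]
    apply Finset.sum_congr rfl
    intro r _
    apply Finset.sum_congr rfl
    intro r' _
    simp only [Set.indicator_apply, Set.mem_inter_iff]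
    by_cases h1 : x ∈ E r <;> by_cases h2 : x ∈ E r' <;> simp [h1, h2]
  have hNsqint : Integrable (fun x => N x * N x) P := by
    simp only [hNsq]
    exact integrable_finsetSum _ fun r _ => integrable_finsetSum _ fun r' _ => hmii r r'
  have e1 : ∫ x, N x ∂P = ∑ r ∈ I, P.real (E r) := by
    rw [hN, integral_finsetSum _ fun r _ => hmi r]
    apply Finset.sum_congr rfl
    intro r _
    rw [integral_indicator (hE r)]; simp
  have e2 : ∫ x, N x * N x ∂P = ∑ r ∈ I, ∑ r' ∈ I, P.real (E r ∩ E r') := by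
    simp only [hNsq]
    rw [integral_finsetSum _ fun r _ => integrable_finsetSum _ fun r' _ => hmii r r']
    apply Finset.sum_congr rfl
    intro r _
    rw [integral_finsetSum _ fun r' _ => hmii r r']
    apply Finset.sum_congr rfl
    intro r' _
    rw [integral_indicator ((hE r).inter (hE r'))]; simp
  have e3 : ∫ x, (⋃ r ∈ I, E r).indicator (fun _ => (1 : ℝ)) x ∂P = P.real (⋃ r ∈ I, E r) := by
    rw [integral_indicator hU]; simp
  have hpt : ∀ x, 2 * C * N x ≤ N x * N x + C ^ 2 * (⋃ r ∈ I, E r).indicator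
      (fun _ => (1 : ℝ)) x := by
    intro x
    by_cases hx : x ∈ ⋃ r ∈ I, E r
    · rw [Set.indicator_of_mem hx]
      nlinarith [sq_nonneg (N x - C)]
    · rw [Set.indicator_of_notMem hx]
      have : N x = 0 := by
        rw [hN]
        apply Finset.sum_eq_zero
        intro r hr
        apply Set.indicator_of_notMem
        intro h1
        exact hx (Set.mem_biUnion hr h1)
      rw [this]; simp
  have hint := integral_mono (hNint.const_mul (2 * C)) (hNsqint.add (hUint.const_mul (C ^ 2))) hpt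
  simp only [Pi.add_apply] at hint
  rw [integral_const_mul, integral_add hNsqint (hUint.const_mul (C ^ 2)), integral_const_mul, e1,
    e2, e3] at hint
  nlinarith

variable (γ : Measure ℝ) [IsProbabilityMeasure γ]

/-- From lower bounds on the one-time probabilities to hitting probabilities. -/
lemma hit_of_local {θ ρ : ℝ} (hθ : 0 < θ)
    (hi2 : Integrable (fun u => Real.exp (θ / 2 * u)) γ)
    (h2 : ∫ u, Real.exp (θ / 2 * u) ∂γ = ρ) (hρ : ρ < 1) (y : ℝ) (r0 s H : ℕ) (hH : r0 + s ≤ H) :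
    ∑ r ∈ Finset.Ico r0 (r0 + s), (disorder γ).real {x | y ≤ Sm 0 r x ∧ Sm 0 r x ≤ y + 1}
      ≤ (2 * Real.exp (θ / 2) / (1 - ρ) + 1) * (disorder γ).real (Ev H 0 y) := by
  set P := disorder γ with hP
  set E : ℕ → Set (ℕ → ℝ) := fun r => {x | y ≤ Sm 0 r x ∧ Sm 0 r x ≤ y + 1} with hE
  have hρ0 : 0 ≤ ρ := by
    rw [← h2]
    exact integral_nonneg fun u => (Real.exp_pos _).le
  have hEm : ∀ r, MeasurableSet (E r) := fun r =>
    (measurableSet_le measurable_const (measurable_Sm _ _)).inter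
      (measurableSet_le (measurable_Sm _ _) measurable_const)
  have hEd : ∀ r, DepS (Finset.Ico 0 r) (E r) := by
    intro r x z h
    simp only [hE, Set.mem_ofPred_eq]
    rw [dep_Sm 0 r x z h]
  set C : ℝ := 2 * Real.exp (θ / 2) / (1 - ρ) + 1 with hC
  have hC0 : 0 < C := by
    have : 0 < 1 - ρ := by linarith
    positivity
  -- pair bound
  have hpair : ∀ r d : ℕ, P.real (E r ∩ E (r + d)) ≤ P.real (E r) * (Real.exp (θ / 2) * ρ ^ d) := by
    intro r d
    have hB : MeasurableSet {x : ℕ → ℝ | -1 ≤ Sm r (r + d) x} :=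
      measurableSet_le measurable_const (measurable_Sm _ _)
    have hBd : DepS (Finset.Ico r (r + d)) {x : ℕ → ℝ | -1 ≤ Sm r (r + d) x} := by
      intro x z h
      simp only [Set.mem_ofPred_eq]
      rw [dep_Sm r (r + d) x z h]
    have h3 : E r ∩ E (r + d) ⊆ E r ∩ {x | -1 ≤ Sm r (r + d) x} := by
      rintro x ⟨hx1, hx2⟩
      refine ⟨hx1, ?_⟩
      simp only [hE, Set.mem_ofPred_eq] at hx1 hx2 ⊢
      have := Sm_add (show 0 ≤ r by omega) (show r ≤ r + d by omega) x
      linarith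
    have h4 : P.real {x | -1 ≤ Sm r (r + d) x} ≤ Real.exp (θ / 2) * ρ ^ d := by
      have h5 := mgf_Sm γ (θ / 2) hi2 r d
      have h6 : P.real {x | -1 ≤ Sm r (r + d) x}
          = ∫ x, {x | -1 ≤ Sm r (r + d) x}.indicator (fun _ => (1 : ℝ)) x ∂P := by
        rw [integral_indicator hB]; simp
      rw [h6]
      calc ∫ x, {x | -1 ≤ Sm r (r + d) x}.indicator (fun _ => (1 : ℝ)) x ∂P
          ≤ ∫ x, Real.exp (θ / 2) * Real.exp (θ / 2 * Sm r (r + d) x) ∂P := by
            apply integral_mono ((integrable_const 1).indicator hB) (h5.1.const_mul _)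
            intro x
            by_cases hx : x ∈ {x : ℕ → ℝ | -1 ≤ Sm r (r + d) x}
            · rw [Set.indicator_of_mem hx]
              simp only
              rw [← Real.exp_add]
              apply Real.one_le_exp
              simp only [Set.mem_ofPred_eq] at hx
              nlinarith
            · rw [Set.indicator_of_notMem hx]
              simp only
              positivity
        _ = Real.exp (θ / 2) * ρ ^ d := by
            rw [integral_const_mul, h5.2, h2]
    calc P.real (E r ∩ E (r + d)) ≤ P.real (E r ∩ {x | -1 ≤ Sm r (r + d) x}) :=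
          measureReal_mono h3 (measure_ne_top _ _)
      _ = P.real (E r) * P.real {x | -1 ≤ Sm r (r + d) x} :=
          prob_inter γ disj_Ico (hEm r) hB (hEd r) hBd
      _ ≤ _ := mul_le_mul_of_nonneg_left h4 measureReal_nonneg
  have hgeo : ∀ (J : Finset ℕ), ∑ d ∈ J, ρ ^ d ≤ 1 / (1 - ρ) := by
    intro J
    rw [one_div, ← tsum_geometric_of_lt_one hρ0 hρ]
    exact (summable_geometric_of_lt_one hρ0 hρ).sum_le_tsum _ fun j _ => pow_nonneg hρ0 j
  set I := Finset.Ico r0 (r0 + s) with hI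
  have hrow : ∀ r ∈ I, ∑ r' ∈ I.filter (fun r' => r ≤ r'), P.real (E r ∩ E r')
      ≤ P.real (E r) * (Real.exp (θ / 2) / (1 - ρ)) := by
    intro r hr
    calc ∑ r' ∈ I.filter (fun r' => r ≤ r'), P.real (E r ∩ E r')
        ≤ ∑ r' ∈ I.filter (fun r' => r ≤ r'), P.real (E r) * (Real.exp (θ / 2) * ρ ^ (r' - r)) := by
          apply Finset.sum_le_sum
          intro r' hr'
          rw [Finset.mem_filter] at hr'
          have := hpair r (r' - r)
          rwa [show r + (r' - r) = r' by omega] at this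
      _ = P.real (E r) * (Real.exp (θ / 2) *
          ∑ d ∈ (I.filter (fun r' => r ≤ r')).image (fun r' => r' - r), ρ ^ d) := by
          rw [Finset.sum_image]
          · rw [Finset.mul_sum, Finset.mul_sum]
          · intro a ha b hb hab
            simp only [Finset.coe_filter, Set.mem_ofPred_eq] at ha hb
            simp only at hab
            omega
      _ ≤ P.real (E r) * (Real.exp (θ / 2) * (1 / (1 - ρ))) := by
          apply mul_le_mul_of_nonneg_left _ measureReal_nonneg
          exact mul_le_mul_of_nonneg_left (hgeo _) (Real.exp_pos _).le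
      _ = _ := by ring
  have hsum : ∑ r ∈ I, ∑ r' ∈ I, P.real (E r ∩ E r') ≤ C * ∑ r ∈ I, P.real (E r) := by
    have h3 : ∑ r ∈ I, ∑ r' ∈ I, P.real (E r ∩ E r')
        ≤ ∑ r ∈ I, ∑ r' ∈ I.filter (fun r' => r ≤ r'), P.real (E r ∩ E r')
        + ∑ r ∈ I, ∑ r' ∈ I.filter (fun r' => r ≤ r'), P.real (E r ∩ E r') := by
      have h4 : ∑ r ∈ I, ∑ r' ∈ I, P.real (E r ∩ E r')
          = ∑ r ∈ I, ∑ r' ∈ I.filter (fun r' => r ≤ r'), P.real (E r ∩ E r')
          + ∑ r ∈ I, ∑ r' ∈ I.filter (fun r' => ¬ r ≤ r'), P.real (E r ∩ E r') := by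
        rw [← Finset.sum_add_distrib]
        apply Finset.sum_congr rfl
        intro r _
        exact (Finset.sum_filter_add_sum_filter_not I (fun r' => r ≤ r') _).symm
      rw [h4]
      apply add_le_add_right
      have h5 : ∑ r ∈ I, ∑ r' ∈ I.filter (fun r' => ¬ r ≤ r'), P.real (E r ∩ E r')
          = ∑ r' ∈ I, ∑ r ∈ I.filter (fun r => ¬ r ≤ r'), P.real (E r ∩ E r') := by
        simp only [Finset.sum_filter]
        exact Finset.sum_comm
      rw [h5]
      apply Finset.sum_le_sum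
      intro r' _
      calc ∑ r ∈ I.filter (fun r => ¬ r ≤ r'), P.real (E r ∩ E r')
          = ∑ r ∈ I.filter (fun r => ¬ r ≤ r'), P.real (E r' ∩ E r) := by
            apply Finset.sum_congr rfl
            intro r _
            rw [Set.inter_comm]
        _ ≤ _ := by
            apply Finset.sum_le_sum_of_subset_of_nonneg
            · intro r hr
              rw [Finset.mem_filter] at hr ⊢
              exact ⟨hr.1, by omega⟩
            · intro _ _ _
              exact measureReal_nonneg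
    have h6 : ∑ r ∈ I, ∑ r' ∈ I.filter (fun r' => r ≤ r'), P.real (E r ∩ E r')
        ≤ (Real.exp (θ / 2) / (1 - ρ)) * ∑ r ∈ I, P.real (E r) := by
      rw [Finset.mul_sum]
      apply Finset.sum_le_sum
      intro r hr
      rw [mul_comm]
      exact hrow r hr
    have h7 : 0 ≤ ∑ r ∈ I, P.real (E r) := Finset.sum_nonneg fun _ _ => measureReal_nonneg
    have h8 : C * ∑ r ∈ I, P.real (E r) = 2 * ((Real.exp (θ / 2) / (1 - ρ)) *
        ∑ r ∈ I, P.real (E r)) + ∑ r ∈ I, P.real (E r) := by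
      rw [hC]; ring
    rw [h8]
    linarith
  refine (second_moment P E hEm I hC0 hsum).trans ?_
  apply mul_le_mul_of_nonneg_left _ hC0.le
  apply measureReal_mono _ (measure_ne_top _ _)
  intro x hx
  simp only [Set.mem_iUnion, exists_prop, hI, Finset.mem_Ico] at hx
  obtain ⟨r, hr, hx1⟩ := hx
  refine ⟨r, by omega, ?_⟩
  rw [zero_add]
  exact hx1.1

lemma law_Sm (m : ℝ) (v : ℝ≥0) (r : ℕ) :
    (disorder (gaussianReal m v)).map (Sm 0 r) = gaussianReal (r * m) (r * v) := by
  induction r with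
  | zero =>
    have : Sm 0 0 = fun _ => (0 : ℝ) := by funext x; exact Sm_self 0 x
    rw [this, Measure.map_const]
    simp
  | succ r ih =>
    have h1 : Sm 0 (r + 1) = Sm 0 r + fun x => x r := by
      funext x
      rw [Pi.add_apply, Sm_succ (by omega)]
    have hind : IndepFun (Sm 0 r) (fun x : ℕ → ℝ => x r) (disorder (gaussianReal m v)) := by
      apply Cop764.M_indep.J_indep (gaussianReal m v) (Finset.Ico 0 r) (Finset.Ico r (r + 1))
        disj_Ico _ _ (measurable_Sm _ _) (measurable_pi_apply _) (dep_Sm _ _)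
      intro x y h
      exact h r (by simp)
    have h2 : (disorder (gaussianReal m v)).map (fun x : ℕ → ℝ => x r) = gaussianReal m v :=
      (measurePreserving_eval_infinitePi (fun _ : ℕ => gaussianReal m v) r).map_eq
    rw [h1, gaussianReal_add_gaussianReal_of_indepFun hind ih h2]
    push_cast
    congr 1
    · ring
    · ring

lemma gauss_Icc_lower {μ : ℝ} {v : ℝ≥0} (hv : v ≠ 0) {y δ : ℝ}
    (hδ : ∀ u ∈ Set.Icc y (y + 1), δ ≤ gaussianPDFReal μ v u) :
    δ ≤ (gaussianReal μ v).real (Set.Icc y (y + 1)) := by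
  unfold Measure.real
  rw [gaussianReal_apply_eq_integral _ hv, ENNReal.toReal_ofReal
    (integral_nonneg fun u => gaussianPDFReal_nonneg _ _ _)]
  have h1 : ∫ _ in Set.Icc y (y + 1), δ = δ := by
    rw [setIntegral_const]
    simp
  calc δ = ∫ _ in Set.Icc y (y + 1), δ := h1.symm
    _ ≤ ∫ u in Set.Icc y (y + 1), gaussianPDFReal μ v u := by
        apply setIntegral_mono_on
        · exact integrableOn_const (by simp)
        · exact (integrable_gaussianPDFReal _ _).integrableOn
        · exact measurableSet_Icc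
        · exact hδ

/-- Local lower bound. -/
lemma local_lower {θ : ℝ} (hθ0 : 0 < θ) (hθ1 : θ < 1) {y : ℝ} {r r0 s : ℕ} (hs : 1 ≤ s)
    (hs2 : (s : ℝ) ^ 2 ≤ r0) (hy1 : 2 * θ * (r0 - 1) ≤ y) (hy2 : y ≤ 2 * θ * r0)
    (hr : r ∈ Finset.Ico r0 (r0 + s)) :
    Real.exp (-3) / 8 * Real.exp (-(θ * y)) / Real.sqrt r0 ≤
      (disorder (gaussianReal (-2 * θ) 4)).real {x | y ≤ Sm 0 r x ∧ Sm 0 r x ≤ y + 1} := by
  rw [Finset.mem_Ico] at hr
  have hs1 : (1 : ℝ) ≤ s := by exact_mod_cast hs
  have hr0 : (1 : ℝ) ≤ r0 := by nlinarith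
  have hr0n : 1 ≤ r0 := by exact_mod_cast hr0
  have hrr : (r0 : ℝ) ≤ r := by exact_mod_cast hr.1
  have hrs : (r : ℝ) ≤ r0 + s - 1 := by
    have : r + 1 ≤ r0 + s := hr.2
    have : ((r + 1 : ℕ) : ℝ) ≤ ((r0 + s : ℕ) : ℝ) := by exact_mod_cast this
    push_cast at this
    linarith
  have hrpos : (0 : ℝ) < r := by linarith
  have hset : (disorder (gaussianReal (-2 * θ) 4)).real {x | y ≤ Sm 0 r x ∧ Sm 0 r x ≤ y + 1}
      = (gaussianReal (r * (-2 * θ)) (r * 4)).real (Set.Icc y (y + 1)) := by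
    rw [← law_Sm (-2 * θ) 4 r, map_measureReal_apply (measurable_Sm _ _) measurableSet_Icc]
    rfl
  rw [hset]
  have hv : (r * 4 : ℝ≥0) ≠ 0 := by
    have : (r : ℝ≥0) ≠ 0 := by
      have : r ≠ 0 := by omega
      exact_mod_cast this
    positivity
  apply gauss_Icc_lower hv
  intro u hu
  have hvr : ((r * 4 : ℝ≥0) : ℝ) = 4 * r := by push_cast; ring
  rw [gaussianPDFReal_def, hvr]
  have hsq : Real.sqrt (2 * Real.pi * (4 * r)) ≤ 8 * Real.sqrt r0 := by
    have h1 : (8 * Real.sqrt r0) = Real.sqrt (64 * r0) := by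
      rw [Real.sqrt_mul (by norm_num), show (64 : ℝ) = 8 ^ 2 by norm_num,
        Real.sqrt_sq (by norm_num)]
    rw [h1]
    apply Real.sqrt_le_sqrt
    have hpi := Real.pi_lt_d2
    have h2 : (r : ℝ) ≤ 2 * r0 := by nlinarith
    nlinarith [Real.pi_pos]
  have hsqpos : 0 < Real.sqrt (2 * Real.pi * (4 * r)) := by
    apply Real.sqrt_pos.2
    have := Real.pi_pos
    positivity
  have hexp : -3 - θ * y ≤ -(u - r * (-2 * θ)) ^ 2 / (2 * (4 * r)) := by
    rw [le_div_iff₀ (by positivity)]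
    have hu1 := hu.1
    have hu2 := hu.2
    set z := u - 2 * θ * r with hz
    have hz1 : z ≤ 1 := by nlinarith
    have hz2 : -(2 * s) ≤ z := by nlinarith
    have hzsq : z ^ 2 ≤ 4 * s ^ 2 := by nlinarith
    have hzsq2 : z ^ 2 ≤ 4 * r := by nlinarith
    have h3 : (u - r * (-2 * θ)) ^ 2 = z ^ 2 + 8 * θ * r * u := by rw [hz]; ring
    rw [h3]
    have h4 : θ * u ≤ θ * y + 1 := by nlinarith
    nlinarith [mul_le_mul_of_nonneg_left h4 hrpos.le]
  calc Real.exp (-3) / 8 * Real.exp (-(θ * y)) / Real.sqrt r0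
      = (8 * Real.sqrt r0)⁻¹ * Real.exp (-3 - θ * y) := by
        rw [sub_eq_add_neg, Real.exp_add]
        have : Real.sqrt r0 ≠ 0 := by positivity
        field_simp
    _ ≤ (Real.sqrt (2 * Real.pi * (4 * r)))⁻¹ * Real.exp (-3 - θ * y) := by
        apply mul_le_mul_of_nonneg_right _ (Real.exp_pos _).le
        exact inv_anti₀ hsqpos hsq
    _ ≤ _ := by
        apply mul_le_mul_of_nonneg_left (Real.exp_le_exp.2 hexp) (by positivity)

lemma gauss_mgf (θ t : ℝ) : ∫ u, Real.exp (t * u) ∂(gaussianReal (-2 * θ) 4)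
    = Real.exp (-2 * θ * t + 2 * t ^ 2) := by
  have h := mgf_gaussianReal (μ := -2 * θ) (v := 4) (p := gaussianReal (-2 * θ) 4) (X := id)
    (by rw [Measure.map_id]) t
  unfold mgf at h
  simp only [id] at h
  rw [h]
  congr 1
  push_cast
  ring

/-- Hitting probabilities for the Gaussian walk with drift `-2θ` and variance `4`. -/
theorem gauss_hit {θ : ℝ} (hθ0 : 0 < θ) (hθ1 : θ < 1) :
    ∃ c y0 : ℝ, 0 < c ∧ ∀ y, y0 ≤ y → ∀ H : ℕ, y / θ + 1 ≤ H →
      c * Real.exp (-(θ * y)) ≤ (disorder (gaussianReal (-2 * θ) 4)).real (Ev H 0 y) := by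
  set ρ := Real.exp (-2 * θ * (θ / 2) + 2 * (θ / 2) ^ 2) with hρ
  have hρ1 : ρ < 1 := by
    rw [hρ]
    apply Real.exp_lt_one_iff.2
    nlinarith [pow_pos hθ0 2]
  set C : ℝ := 2 * Real.exp (θ / 2) / (1 - ρ) + 1 with hC
  have hC0 : 0 < C := by
    have : 0 < 1 - ρ := by linarith
    positivity
  refine ⟨Real.exp (-3) / 16 / C, 8, by positivity, ?_⟩
  intro y hy H hH
  -- r0 = ceil (y / (2θ)), s = floor sqrt r0
  set r0 : ℕ := ⌈y / (2 * θ)⌉₊ with hr0
  set s : ℕ := Nat.sqrt r0 with hs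
  have hy0 : 0 < y := by linarith
  have h1 : y / (2 * θ) ≤ r0 := Nat.le_ceil _
  have h2 : (r0 : ℝ) < y / (2 * θ) + 1 := Nat.ceil_lt_add_one (by positivity)
  have hy2 : y ≤ 2 * θ * r0 := by
    rw [div_le_iff₀ (by positivity)] at h1; linarith
  have hy1 : 2 * θ * (r0 - 1) ≤ y := by
    have h3 : (r0 : ℝ) - 1 < y / (2 * θ) := by linarith
    rw [lt_div_iff₀ (by positivity)] at h3; linarith
  have hr04 : (4 : ℝ) ≤ r0 := by nlinarith
  have hr0n : 4 ≤ r0 := by exact_mod_cast hr04
  have hs1 : 1 ≤ s := Nat.le_sqrt.2 (by omega)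
  have hs2 : (s : ℝ) ^ 2 ≤ r0 := by
    have : s * s ≤ r0 := Nat.sqrt_le r0
    have : ((s * s : ℕ) : ℝ) ≤ r0 := by exact_mod_cast this
    push_cast at this
    nlinarith
  have hs3 : Real.sqrt r0 ≤ 2 * s := by
    have h3 : r0 < (s + 1) * (s + 1) := Nat.lt_succ_sqrt r0
    have h4 : (r0 : ℝ) ≤ (2 * s) ^ 2 := by
      have : r0 ≤ (2 * s) ^ 2 := by nlinarith
      exact_mod_cast this
    rw [Real.sqrt_le_left (by positivity)]
    exact h4
  have hlen : r0 + s ≤ H := by
    have h3 : (s : ℝ) ≤ r0 / 2 := by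
      have hs1' : (1 : ℝ) ≤ s := by exact_mod_cast hs1
      by_cases h4 : (2 : ℝ) ≤ s
      · nlinarith
      · have : s < 2 := by
          by_contra hcon
          exact h4 (by exact_mod_cast not_lt.1 hcon)
        have : s = 1 := by omega
        rw [this]; push_cast; linarith
    have h5 : ((r0 + s : ℕ) : ℝ) ≤ H := by
      push_cast
      have h6 : y / θ = 2 * (y / (2 * θ)) := by field_simp
      have h7 : 4 ≤ y / (2 * θ) := by
        rw [le_div_iff₀ (by positivity)]
        nlinarith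
      linarith
    exact_mod_cast h5
  have hloc : ∀ r ∈ Finset.Ico r0 (r0 + s), Real.exp (-3) / 8 * Real.exp (-(θ * y)) /
      Real.sqrt r0 ≤ (disorder (gaussianReal (-2 * θ) 4)).real
        {x | y ≤ Sm 0 r x ∧ Sm 0 r x ≤ y + 1} := fun r hr =>
    local_lower hθ0 hθ1 hs1 hs2 hy1 hy2 hr
  have hsum := Finset.sum_le_sum hloc
  rw [Finset.sum_const, Nat.card_Ico, Nat.add_sub_cancel_left, nsmul_eq_mul] at hsum
  have hit := hit_of_local (gaussianReal (-2 * θ) 4) hθ0
    (integrable_exp_mul_gaussianReal _) (gauss_mgf θ (θ / 2)) hρ1 y r0 s H hlen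
  have h8 : Real.exp (-3) / 16 * Real.exp (-(θ * y)) ≤
      s * (Real.exp (-3) / 8 * Real.exp (-(θ * y)) / Real.sqrt r0) := by
    have hsq : 0 < Real.sqrt r0 := Real.sqrt_pos.2 (by linarith)
    rw [mul_div_assoc', le_div_iff₀ hsq]
    have := mul_le_mul_of_nonneg_left hs3
      (show 0 ≤ Real.exp (-3) / 16 * Real.exp (-(θ * y)) by positivity)
    linarith
  rw [div_mul_eq_mul_div, div_le_iff₀ hC0]
  linarith

end Pool.Agent.R973.Cp
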