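import Pool.Agent.R973.Cp.Prob

/-!
# Success probabilities on a grid of starting points
-/

set_option autoImplicit false

open MeasureTheory ProbabilityTheory
open scoped ENNReal NNReal

namespace Pool.Agent.R973.Cp

open Cop764 (disorder)

variable (γ : Measure ℝ) [IsProbabilityMeasure γ]

lemma near_pair {θ ρ : ℝ} (hθ : 0 < θ) (hi : Integrable (fun u => Real.exp (θ * u)) γ)
    (h1 : ∫ u, Real.exp (θ * u) ∂γ = 1) (hi2 : Integrable (fun u => Real.exp (θ / 2 * u)) γ)
    (h2 : ∫ u, Real.exp (θ / 2 * u) ∂γ = ρ) (n a j : ℕ) (y : ℝ) :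
    (disorder γ).real (Ev n a y ∩ Ev n (a + j) y)
      ≤ Real.exp (-(θ * y)) * ρ ^ j + Real.exp (-(θ * y)) * Real.exp (-(θ * y)) := by
  set U : (ℕ → ℝ) → ℝ := Sm a (a + j) with hU
  set V : (ℕ → ℝ) → ℝ := fun x =>
    (Finset.range (n + 1)).sup' Finset.nonempty_range_add_one (fun r => Sm (a + j) (a + j + r) x)
    with hV
  have hUm : Measurable U := measurable_Sm _ _
  have hVm : Measurable V := by
    have := Finset.measurable_sup' (s := Finset.range (n + 1)) Finset.nonempty_range_add_one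
      (f := fun r => Sm (a + j) (a + j + r)) (fun r _ => measurable_Sm _ _)
    convert this using 1
    funext x
    rw [Finset.sup'_apply]
  have hVge : ∀ (m : ℝ) (x : ℕ → ℝ), m ≤ V x ↔ x ∈ Ev n (a + j) m := by
    intro m x
    rw [hV]
    simp only [Finset.le_sup'_iff, Finset.mem_range, Ev, Set.mem_ofPred_eq]
    constructor
    · rintro ⟨r, h1, h2⟩; exact ⟨r, by omega, h2⟩
    · rintro ⟨r, h1, h2⟩; exact ⟨r, by omega, h2⟩
  have hUd : Dep (Finset.Ico a (a + j)) U := dep_Sm _ _
  have hVd : Dep (Finset.Ico (a + j) (a + j + n)) V := by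
    intro x z h
    apply le_antisymm
    · rw [hVge, ← dep_Ev n (a + j) (V x) x z h, ← hVge]
    · rw [hVge, dep_Ev n (a + j) (V z) x z h, ← hVge]
  have hind : IndepFun U V (disorder γ) :=
    Cop764.M_indep.J_indep γ _ _ disj_Ico U V hUm hVm hUd hVd
  set Bd : Set (ℕ → ℝ) := {x | max y (y - U x) ≤ V x} with hBd
  have hsub : Ev n a y ∩ Ev n (a + j) y ⊆ (Ev j a y ∩ Ev n (a + j) y) ∪ Bd := by
    rintro x ⟨⟨r, hr, hrx⟩, ⟨r', hr', hrx'⟩⟩
    by_cases hrj : r ≤ j
    · left
      exact ⟨⟨r, hrj, hrx⟩, ⟨r', hr', hrx'⟩⟩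
    · right
      rw [hBd, Set.mem_ofPred_eq, hVge]
      have h3 : Sm a (a + r) x = U x + Sm (a + j) (a + j + (r - j)) x := by
        rw [show a + j + (r - j) = a + r by omega, hU, ← Sm_add (by omega) (by omega)]
      rcases le_total 0 (U x) with h4 | h4
      · refine ⟨r', hr', ?_⟩
        rw [max_eq_left (by linarith)]
        exact hrx'
      · refine ⟨r - j, by omega, ?_⟩
        rw [max_eq_right (by linarith)]
        linarith
  have hp1 : (disorder γ).real (Ev j a y ∩ Ev n (a + j) y)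
      ≤ Real.exp (-(θ * y)) * Real.exp (-(θ * y)) := by
    rw [prob_inter γ disj_Ico (meas_Ev _ _ _) (meas_Ev _ _ _) (dep_Ev j a y)
      (dep_Ev n (a + j) y)]
    exact mul_le_mul (prob_Ev_le γ hθ hi h1 _ _ _) (prob_Ev_le γ hθ hi h1 _ _ _)
      measureReal_nonneg (Real.exp_pos _).le
  have hp2 : (disorder γ).real Bd ≤ Real.exp (-(θ * y)) * ρ ^ j := by
    have hD : MeasurableSet {p : ℝ × ℝ | max y (y - p.1) ≤ p.2} := by
      apply measurableSet_le
      · fun_prop
      · exact measurable_snd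
    have h3 : (disorder γ) Bd = ((disorder γ).map U).prod ((disorder γ).map V)
        {p : ℝ × ℝ | max y (y - p.1) ≤ p.2} := by
      rw [← (indepFun_iff_map_prod_eq_prod_map_map hUm.aemeasurable hVm.aemeasurable).1 hind,
        Measure.map_apply (hUm.prodMk hVm) hD]
      rfl
    have h4 : (disorder γ) Bd ≤ ENNReal.ofReal (Real.exp (-(θ * y)) * ρ ^ j) := by
      rw [h3, Measure.prod_apply hD]
      calc ∫⁻ u, (Measure.map V (disorder γ)) (Prod.mk u ⁻¹' {p : ℝ × ℝ | max y (y - p.1) ≤ p.2})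
            ∂(Measure.map U (disorder γ))
          ≤ ∫⁻ u, ENNReal.ofReal (Real.exp (-(θ * y)) * Real.exp (θ / 2 * u))
            ∂(Measure.map U (disorder γ)) := by
            apply lintegral_mono
            intro u
            have h5 : (Measure.map V (disorder γ)) (Prod.mk u ⁻¹'
                {p : ℝ × ℝ | max y (y - p.1) ≤ p.2}) = (disorder γ) (Ev n (a + j)
                  (max y (y - u))) := by
              rw [Measure.map_apply hVm (measurable_prodMk_left hD)]
              congr 1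
              ext x
              rw [← hVge]
              rfl
            simp only [h5]
            have h6 := prob_Ev_le γ hθ hi h1 n (a + j) (max y (y - u))
            rw [← ofReal_measureReal (measure_ne_top _ _)]
            apply ENNReal.ofReal_le_ofReal
            refine h6.trans ?_
            rw [← Real.exp_add]
            apply Real.exp_le_exp.2
            rcases le_total 0 u with h7 | h7
            · rw [max_eq_left (by linarith)]
              nlinarith
            · rw [max_eq_right (by linarith)]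
              nlinarith
        _ = ∫⁻ x, ENNReal.ofReal (Real.exp (-(θ * y)) * Real.exp (θ / 2 * U x))
            ∂(disorder γ) := by
            rw [lintegral_map (by fun_prop) hUm]
        _ = ENNReal.ofReal (∫ x, Real.exp (-(θ * y)) * Real.exp (θ / 2 * U x) ∂(disorder γ)) := by
            rw [ofReal_integral_eq_lintegral_ofReal]
            · exact ((mgf_Sm γ (θ / 2) hi2 a j).1).const_mul _
            · filter_upwards with x
              positivity
        _ = ENNReal.ofReal (Real.exp (-(θ * y)) * ρ ^ j) := by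
            rw [integral_const_mul, hU, (mgf_Sm γ (θ / 2) hi2 a j).2, h2]
    have h8 : 0 ≤ ρ := by
      rw [← h2]
      exact integral_nonneg fun u => (Real.exp_pos _).le
    unfold Measure.real
    exact ENNReal.toReal_le_of_le_ofReal (by positivity) h4
  calc (disorder γ).real (Ev n a y ∩ Ev n (a + j) y)
      ≤ (disorder γ).real ((Ev j a y ∩ Ev n (a + j) y) ∪ Bd) :=
        measureReal_mono hsub (measure_ne_top _ _)
    _ ≤ (disorder γ).real (Ev j a y ∩ Ev n (a + j) y) + (disorder γ).real Bd :=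
        measureReal_union_le _ _
    _ ≤ _ := by linarith

/-- The event of a good stretch with window at `a`. -/
def Gd (H a : ℕ) (y : ℝ) : Set (ℕ → ℝ) := {x | |x a| ≤ 1} ∩ Ev H (a + 1) y

lemma meas_win (a : ℕ) : MeasurableSet {x : ℕ → ℝ | |x a| ≤ 1} :=
  measurableSet_le (measurable_pi_apply a).abs measurable_const

lemma dep_win (a : ℕ) : DepS (Finset.Ico a (a + 1)) {x : ℕ → ℝ | |x a| ≤ 1} := by
  intro x y h
  simp only [Set.mem_ofPred_eq]
  rw [h a (by simp)]

lemma meas_Gd (H a : ℕ) (y : ℝ) : MeasurableSet (Gd H a y) := (meas_win a).inter (meas_Ev _ _ _)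

lemma dep_Gd (H a : ℕ) (y : ℝ) : DepS (Finset.Ico a (a + 1 + H)) (Gd H a y) :=
  ((dep_win a).mono (Finset.Ico_subset_Ico le_rfl (by omega))).inter
    ((dep_Ev H (a + 1) y).mono (Finset.Ico_subset_Ico (by omega) le_rfl))

lemma prob_Gd (H a : ℕ) (y : ℝ) : (disorder γ).real (Gd H a y)
    = γ.real {u | |u| ≤ 1} * (disorder γ).real (Ev H (a + 1) y) := by
  unfold Gd
  rw [prob_inter γ disj_Ico (meas_win a) (meas_Ev _ _ _) (dep_win a) (dep_Ev H (a + 1) y)]
  congr 1
  exact prob_coord γ (measurableSet_le measurable_id.abs measurable_const) a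

lemma prob_Ev_shift (n a : ℕ) (y : ℝ) :
    (disorder γ).real (Ev n a y) = (disorder γ).real (Ev n 0 y) := by
  have h := (Cop764.M_stat.J_stat γ a).measure_preimage (meas_Ev n 0 y).nullMeasurableSet
  unfold Measure.real
  rw [← h]
  congr 2
  ext x
  simp only [Ev, Set.mem_ofPred_eq, Set.mem_preimage]
  have h2 : ∀ r, Sm 0 (0 + r) (fun n => x (n + a)) = Sm a (a + r) x := by
    intro r
    unfold Sm
    rw [Finset.sum_Ico_eq_sum_range, Finset.sum_Ico_eq_sum_range]
    simp only [Nat.add_sub_cancel_left]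
    exact Finset.sum_congr rfl fun l _ => by rw [zero_add, add_comm]
  simp only [h2]

/-- Bonferroni's inequality. -/
lemma bonferroni {Ω : Type*} [MeasurableSpace Ω] (P : Measure Ω) [IsFiniteMeasure P]
    (A : ℕ → Set Ω) (hA : ∀ i, MeasurableSet (A i)) (n : ℕ) :
    ∑ i ∈ Finset.range n, (P.real (A i) - ∑ j ∈ Finset.range i, P.real (A j ∩ A i))
      ≤ P.real (⋃ i ∈ Finset.range n, A i) := by
  induction n with
  | zero => simp
  | succ n ih =>
    rw [Finset.sum_range_succ]
    have h1 : ⋃ i ∈ Finset.range (n + 1), A i = (⋃ i ∈ Finset.range n, A i) ∪ A n := by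
      ext x
      simp only [Set.mem_iUnion, Finset.mem_range, Set.mem_union, exists_prop]
      constructor
      · rintro ⟨i, hi, hx⟩
        rcases Nat.lt_succ_iff_lt_or_eq.1 hi with h | h
        · exact Or.inl ⟨i, h, hx⟩
        · subst h; exact Or.inr hx
      · rintro (⟨i, hi, hx⟩ | hx)
        · exact ⟨i, by omega, hx⟩
        · exact ⟨n, by omega, hx⟩
    have hm : MeasurableSet (⋃ i ∈ Finset.range n, A i) :=
      Finset.measurableSet_biUnion _ fun i _ => hA i
    have h2 := measureReal_union_add_inter (μ := P) (s := ⋃ i ∈ Finset.range n, A i) (hA n)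
      (measure_ne_top _ _) (measure_ne_top _ _)
    have h3 : P.real ((⋃ i ∈ Finset.range n, A i) ∩ A n)
        ≤ ∑ j ∈ Finset.range n, P.real (A j ∩ A n) := by
      have : (⋃ i ∈ Finset.range n, A i) ∩ A n = ⋃ i ∈ Finset.range n, (A i ∩ A n) := by
        ext x
        simp only [Set.mem_iUnion, Finset.mem_range, Set.mem_inter_iff, exists_prop]
        constructor
        · rintro ⟨⟨i, h1, h2⟩, h3⟩; exact ⟨i, h1, h2, h3⟩
        · rintro ⟨i, h1, h2, h3⟩; exact ⟨⟨i, h1, h2⟩, h3⟩
      rw [this]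
      exact measureReal_biUnion_finset_le _ _
    rw [h1]
    linarith

/-- Product formula for events depending on consecutive blocks. -/
lemma prod_blocks (B : ℕ → Set (ℕ → ℝ)) (s : ℕ → ℕ) (hs : Monotone s)
    (hB : ∀ i, MeasurableSet (B i)) (hd : ∀ i, DepS (Finset.Ico (s i) (s (i + 1))) (B i)) (n : ℕ) :
    (disorder γ).real (⋂ i ∈ Finset.range n, B i) = ∏ i ∈ Finset.range n,
      (disorder γ).real (B i) ∧ DepS (Finset.Ico (s 0) (s n)) (⋂ i ∈ Finset.range n, B i) := by
  induction n with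
  | zero =>
    refine ⟨by simp, ?_⟩
    intro x y _
    simp
  | succ n ih =>
    have h1 : ⋂ i ∈ Finset.range (n + 1), B i = (⋂ i ∈ Finset.range n, B i) ∩ B n := by
      ext x
      simp only [Set.mem_iInter, Finset.mem_range, Set.mem_inter_iff]
      constructor
      · intro h
        exact ⟨fun i hi => h i (by omega), h n (by omega)⟩
      · rintro ⟨h, h'⟩ i hi
        rcases Nat.lt_succ_iff_lt_or_eq.1 hi with h2 | h2
        · exact h i h2
        · subst h2; exact h'
    have hm : MeasurableSet (⋂ i ∈ Finset.range n, B i) :=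
      Finset.measurableSet_biInter _ fun i _ => hB i
    rw [h1]
    constructor
    · rw [prob_inter γ (s := Finset.Ico (s 0) (s n)) (t := Finset.Ico (s n) (s (n + 1))) disj_Ico
        hm (hB n) ih.2 (hd n), ih.1, Finset.prod_range_succ]
    · exact (ih.2.mono (Finset.Ico_subset_Ico le_rfl (hs (by omega)))).inter
        ((hd n).mono (Finset.Ico_subset_Ico (hs (by omega)) le_rfl))

lemma grid_lower {θ ρ c : ℝ} (hθ : 0 < θ) (hi : Integrable (fun u => Real.exp (θ * u)) γ)
    (h1 : ∫ u, Real.exp (θ * u) ∂γ = 1) (hi2 : Integrable (fun u => Real.exp (θ / 2 * u)) γ)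
    (h2 : ∫ u, Real.exp (θ / 2 * u) ∂γ = ρ) (hρ : ρ < 1) (s R H n : ℕ) (hR : 1 ≤ R) (y : ℝ)
    (hhit : c * Real.exp (-(θ * y)) ≤ (disorder γ).real (Ev H 0 y))
    (hκ : ρ ^ R / (1 - ρ ^ R) ≤ γ.real {u | |u| ≤ 1} * c / 4)
    (hn : n * Real.exp (-(θ * y)) ≤ γ.real {u | |u| ≤ 1} * c / 4) :
    γ.real {u | |u| ≤ 1} * c / 2 * (n * Real.exp (-(θ * y)))
      ≤ (disorder γ).real (⋃ i ∈ Finset.range n, Gd H (s + i * R) y) := by
  set q := Real.exp (-(θ * y)) with hq
  set w := γ.real {u | |u| ≤ 1} with hw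
  have hq0 : 0 < q := Real.exp_pos _
  have hw0 : 0 ≤ w := measureReal_nonneg
  have hρ0 : 0 ≤ ρ := by
    rw [← h2]
    exact integral_nonneg fun u => (Real.exp_pos _).le
  have hρR : ρ ^ R < 1 := pow_lt_one₀ hρ0 hρ (by omega)
  have hρR0 : 0 ≤ ρ ^ R := pow_nonneg hρ0 _
  refine le_trans ?_ (bonferroni (disorder γ) (fun i => Gd H (s + i * R) y)
    (fun i => meas_Gd _ _ _) n)
  have hpair : ∀ i j : ℕ, j < i → (disorder γ).real (Gd H (s + j * R) y ∩ Gd H (s + i * R) y)
      ≤ q * (ρ ^ R) ^ (i - j) + q * q := by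
    intro i j hij
    have h3 := near_pair γ hθ hi h1 hi2 h2 H (s + j * R + 1) ((i - j) * R) y
    have h4 : s + j * R + 1 + (i - j) * R = s + i * R + 1 := by
      obtain ⟨d, rfl⟩ : ∃ d, i = j + d := ⟨i - j, by omega⟩
      rw [Nat.add_sub_cancel_left]; ring
    rw [h4] at h3
    have h5 : (ρ ^ R) ^ (i - j) = ρ ^ ((i - j) * R) := by rw [← pow_mul, mul_comm]
    rw [h5]
    refine le_trans (measureReal_mono ?_ (measure_ne_top _ _)) h3
    rintro x ⟨hx1, hx2⟩
    exact ⟨hx1.2, hx2.2⟩
  have hgeo : ∀ i : ℕ, ∑ j ∈ Finset.range i, (ρ ^ R) ^ (i - j) ≤ ρ ^ R / (1 - ρ ^ R) := by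
    intro i
    have h3 : ∑ j ∈ Finset.range i, (ρ ^ R) ^ (i - j) = ∑ j ∈ Finset.range i, (ρ ^ R) ^ (j + 1) := by
      rw [← Finset.sum_range_reflect]
      apply Finset.sum_congr rfl
      intro j hj
      rw [Finset.mem_range] at hj
      congr 1
      omega
    rw [h3]
    have h4 : ∑ j ∈ Finset.range i, (ρ ^ R) ^ (j + 1) = ρ ^ R * ∑ j ∈ Finset.range i, (ρ ^ R) ^ j := by
      rw [Finset.mul_sum]
      exact Finset.sum_congr rfl fun j _ => by rw [pow_succ, mul_comm]
    rw [h4, div_eq_mul_inv]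
    apply mul_le_mul_of_nonneg_left _ hρR0
    rw [← tsum_geometric_of_lt_one hρR0 hρR]
    exact (summable_geometric_of_lt_one hρR0 hρR).sum_le_tsum _ fun j _ => pow_nonneg hρR0 j
  have hterm : ∀ i ∈ Finset.range n, w * c / 2 * q ≤
      (disorder γ).real (Gd H (s + i * R) y) - ∑ j ∈ Finset.range i,
        (disorder γ).real (Gd H (s + j * R) y ∩ Gd H (s + i * R) y) := by
    intro i hin
    rw [Finset.mem_range] at hin
    have h3 : w * (c * q) ≤ (disorder γ).real (Gd H (s + i * R) y) := by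
      rw [prob_Gd, prob_Ev_shift]
      exact mul_le_mul_of_nonneg_left hhit hw0
    have h4 : ∑ j ∈ Finset.range i, (disorder γ).real (Gd H (s + j * R) y ∩ Gd H (s + i * R) y)
        ≤ q * (ρ ^ R / (1 - ρ ^ R)) + n * (q * q) := by
      calc _ ≤ ∑ j ∈ Finset.range i, (q * (ρ ^ R) ^ (i - j) + q * q) :=
            Finset.sum_le_sum fun j hj => hpair i j (Finset.mem_range.1 hj)
        _ = q * ∑ j ∈ Finset.range i, (ρ ^ R) ^ (i - j) + i * (q * q) := by
            rw [Finset.sum_add_distrib, ← Finset.mul_sum]; simp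
        _ ≤ _ := by
            have h5 : (i : ℝ) ≤ n := by exact_mod_cast hin.le
            have h6 := mul_le_mul_of_nonneg_left (hgeo i) hq0.le
            have h7 : (i : ℝ) * (q * q) ≤ n * (q * q) :=
              mul_le_mul_of_nonneg_right h5 (by positivity)
            linarith
    have h8 : q * (ρ ^ R / (1 - ρ ^ R)) ≤ q * (w * c / 4) := mul_le_mul_of_nonneg_left hκ hq0.le
    have h9 : n * (q * q) ≤ q * (w * c / 4) := by
      calc n * (q * q) = q * (n * q) := by ring
        _ ≤ _ := mul_le_mul_of_nonneg_left hn hq0.le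
    linarith
  calc w * c / 2 * (n * q) = ∑ i ∈ Finset.range n, w * c / 2 * q := by
        rw [Finset.sum_const, Finset.card_range, nsmul_eq_mul]; ring
    _ ≤ _ := Finset.sum_le_sum hterm

lemma grid_disj {θ c : ℝ} (s R H n : ℕ) (hR : H + 1 ≤ R) (y : ℝ)
    (hhit : c * Real.exp (-(θ * y)) ≤ (disorder γ).real (Ev H 0 y)) :
    (disorder γ).real (⋂ i ∈ Finset.range n, (Gd H (s + i * R) y)ᶜ)
      ≤ Real.exp (-(n * (γ.real {u | |u| ≤ 1} * c * Real.exp (-(θ * y))))) := by
  have h := (prod_blocks γ (fun i => (Gd H (s + i * R) y)ᶜ) (fun i => s + i * R)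
    (fun i j hij => by simp only; nlinarith [Nat.mul_le_mul_right R hij])
    (fun i => (meas_Gd _ _ _).compl)
    (fun i => ((dep_Gd H (s + i * R) y).mono
      (Finset.Ico_subset_Ico le_rfl (by
        have : (i + 1) * R = i * R + R := by ring
        omega))).compl) n).1
  rw [h]
  have h1 : ∀ i ∈ Finset.range n, (disorder γ).real ((Gd H (s + i * R) y)ᶜ)
      ≤ Real.exp (-(γ.real {u | |u| ≤ 1} * c * Real.exp (-(θ * y)))) := by
    intro i _
    rw [probReal_compl_eq_one_sub (meas_Gd _ _ _), prob_Gd, prob_Ev_shift]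
    have h2 := mul_le_mul_of_nonneg_left hhit (measureReal_nonneg (μ := γ) (s := {u | |u| ≤ 1}))
    have h3 := Real.add_one_le_exp (-(γ.real {u | |u| ≤ 1} * c * Real.exp (-(θ * y))))
    linarith
  calc _ ≤ ∏ i ∈ Finset.range n, Real.exp (-(γ.real {u | |u| ≤ 1} * c * Real.exp (-(θ * y)))) :=
        Finset.prod_le_prod (fun _ _ => measureReal_nonneg) h1
    _ = _ := by
        rw [Finset.prod_const, Finset.card_range, ← Real.exp_nat_mul]
        congr 1
        ring

end Pool.Agent.R973.Cp
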