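import Pool.Agent.R973.Cp.Rule

/-!
# Linear growth of the value functional at the critical tilt
-/

set_option autoImplicit false

open MeasureTheory ProbabilityTheory Filter Topology
open scoped ENNReal NNReal

namespace Pool.Agent.R973.Cp

open Cop764 (disorder)

lemma SE_of_Gd {k0 κ : ℕ} {H : ℕ → ℕ} {Y : ℕ → ℝ} {k j : ℕ} (hk0 : k0 ≤ k) (hk : k ≤ κ)
    (hj : j + 1 + H k < 2 ^ k) {x : ℕ → ℝ} (hx : x ∈ Gd (H k) (2 ^ k + j) (Y k)) :
    ∃ b, b < 2 ^ (k + 1) ∧ SE k0 κ H Y b x := by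
  obtain ⟨hx1, r, hr, hx2⟩ := hx
  have hp : 1 ≤ 2 ^ k := Nat.one_le_two_pow
  have h2 : 2 ^ (k + 1) = 2 * 2 ^ k := by ring
  have hlog : Nat.log 2 (2 ^ k + j) = k := by
    apply Nat.log_eq_of_pow_le_of_lt_pow
    · omega
    · omega
  refine ⟨2 ^ k + j + 1 + r, by omega, 2 ^ k + j, by omega, ?_, hx1, ?_⟩
  · unfold Cd
    rw [hlog]
    refine ⟨by omega, by omega, hk0, hk, by omega, by omega⟩
  · rw [hlog]; exact hx2

variable (γ : Measure ℝ) [IsProbabilityMeasure γ]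

lemma dep_scale {H n R k : ℕ} {y : ℝ} (hgrid : n * R + 1 + H ≤ 2 ^ k) (hR : 1 ≤ R) :
    DepS (Finset.Ico (2 ^ k) (2 ^ (k + 1))) (⋃ i ∈ Finset.range n, Gd H (2 ^ k + i * R) y)ᶜ := by
  apply DepS.compl
  intro x z h
  simp only [Set.mem_iUnion, Finset.mem_range, exists_prop]
  have h1 : ∀ i, i < n → (x ∈ Gd H (2 ^ k + i * R) y ↔ z ∈ Gd H (2 ^ k + i * R) y) := by
    intro i hi
    apply dep_Gd H (2 ^ k + i * R) y x z
    intro m hm
    apply h
    rw [Finset.mem_Ico] at hm ⊢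
    have h2 : 2 ^ (k + 1) = 2 * 2 ^ k := by ring
    have h3 : i * R + R ≤ n * R := by
      have : (i + 1) * R ≤ n * R := Nat.mul_le_mul_right R hi
      linarith
    omega
  constructor
  · rintro ⟨i, hi, hx⟩; exact ⟨i, hi, (h1 i hi).1 hx⟩
  · rintro ⟨i, hi, hx⟩; exact ⟨i, hi, (h1 i hi).2 hx⟩

/-- The first error probability. -/
lemma prob_noSE1 (k0 κ : ℕ) (hk : k0 ≤ κ) (H : ℕ → ℕ) (Y : ℕ → ℝ) (n : ℕ → ℕ) (R : ℕ)
    (hR : 1 ≤ R) (hgrid : ∀ k, k0 ≤ k → n k * R + 1 + H k ≤ 2 ^ k) (p : ℕ → ℝ)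
    (hp : ∀ k, k0 ≤ k → k < κ →
      p k ≤ (disorder γ).real (⋃ i ∈ Finset.range (n k), Gd (H k) (2 ^ k + i * R) (Y k))) :
    (disorder γ).real {x | ∀ b, b < 2 ^ κ → ¬ SE k0 κ H Y b x}
      ≤ Real.exp (-∑ k ∈ Finset.Ico k0 κ, p k) := by
  set B : ℕ → Set (ℕ → ℝ) := fun i =>
    (⋃ j ∈ Finset.range (n (k0 + i)), Gd (H (k0 + i)) (2 ^ (k0 + i) + j * R) (Y (k0 + i)))ᶜ with hB
  have hBm : ∀ i, MeasurableSet (B i) := fun i =>
    (Finset.measurableSet_biUnion _ fun j _ => meas_Gd _ _ _).compl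
  have h1 : {x | ∀ b, b < 2 ^ κ → ¬ SE k0 κ H Y b x} ⊆ ⋂ i ∈ Finset.range (κ - k0), B i := by
    intro x hx
    simp only [Set.mem_iInter, Finset.mem_range]
    intro i hi hcon
    simp only [Set.mem_iUnion, Finset.mem_range, exists_prop] at hcon
    obtain ⟨j, hj, hxj⟩ := hcon
    have h2 : j * R + R ≤ n (k0 + i) * R := by
      have : (j + 1) * R ≤ n (k0 + i) * R := Nat.mul_le_mul_right R hj
      linarith
    have h3 := hgrid (k0 + i) (by omega)
    obtain ⟨b, hb1, hb2⟩ := SE_of_Gd (k0 := k0) (κ := κ) (H := H) (Y := Y) (k := k0 + i)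
      (j := j * R) (by omega) (by omega) (by omega) hxj
    have h4 : 2 ^ (k0 + i + 1) ≤ 2 ^ κ := Nat.pow_le_pow_right (by norm_num) (by omega)
    exact hx b (by omega) hb2
  have h2 := (prod_blocks γ B (fun i => 2 ^ (k0 + i))
    (fun i j hij => Nat.pow_le_pow_right (by norm_num) (by omega)) hBm
    (fun i => dep_scale (hgrid (k0 + i) (by omega)) hR) (κ - k0)).1
  calc (disorder γ).real {x | ∀ b, b < 2 ^ κ → ¬ SE k0 κ H Y b x}
      ≤ (disorder γ).real (⋂ i ∈ Finset.range (κ - k0), B i) :=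
        measureReal_mono h1 (measure_ne_top _ _)
    _ = ∏ i ∈ Finset.range (κ - k0), (disorder γ).real (B i) := h2
    _ ≤ ∏ i ∈ Finset.range (κ - k0), Real.exp (-p (k0 + i)) := by
        apply Finset.prod_le_prod (fun _ _ => measureReal_nonneg)
        intro i hi
        rw [Finset.mem_range] at hi
        have h3 := hp (k0 + i) (by omega) (by omega)
        have h4 : (disorder γ).real (B i) = 1 - (disorder γ).real
            (⋃ j ∈ Finset.range (n (k0 + i)), Gd (H (k0 + i)) (2 ^ (k0 + i) + j * R)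
              (Y (k0 + i))) := by
          simp only [hB]
          rw [probReal_compl_eq_one_sub]
          exact Finset.measurableSet_biUnion _ fun j _ => meas_Gd _ _ _
        rw [h4]
        have := Real.add_one_le_exp (-p (k0 + i))
        linarith
    _ = Real.exp (-∑ k ∈ Finset.Ico k0 κ, p k) := by
        rw [← Real.exp_sum, Finset.sum_neg_distrib, Finset.sum_Ico_eq_sum_range]

/-- The second error probability. -/
lemma prob_noSE2 {θ c : ℝ} (k0 κ : ℕ) (hk : k0 ≤ κ) (H : ℕ → ℕ) (Y : ℕ → ℝ) (n R : ℕ)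
    (hR : H κ + 1 ≤ R) (hgrid : n * R + 1 + H κ ≤ 2 ^ κ)
    (hhit : c * Real.exp (-(θ * Y κ)) ≤ (disorder γ).real (Ev (H κ) 0 (Y κ))) :
    (disorder γ).real {x | ∀ b, b < 2 ^ (κ + 1) → ¬ SE k0 κ H Y b x}
      ≤ Real.exp (-(n * (γ.real {u | |u| ≤ 1} * c * Real.exp (-(θ * Y κ))))) := by
  refine le_trans (measureReal_mono ?_ (measure_ne_top _ _))
    (grid_disj γ (2 ^ κ) R (H κ) n hR (Y κ) hhit)
  intro x hx
  simp only [Set.mem_iInter, Finset.mem_range]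
  intro i hi hcon
  have h2 : i * R + R ≤ n * R := by
    have : (i + 1) * R ≤ n * R := Nat.mul_le_mul_right R hi
    linarith
  obtain ⟨b, hb1, hb2⟩ := SE_of_Gd (k0 := k0) (κ := κ) (H := H) (Y := Y) (k := κ)
    (j := i * R) hk le_rfl (by omega) hcon
  exact hx b hb1 hb2

end Pool.Agent.R973.Cp
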