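import Pool.Agent.R973.Cp.Growth

/-!
# Choice of the parameters of the scanning rule
-/

set_option autoImplicit false

open MeasureTheory ProbabilityTheory Filter Topology
open scoped ENNReal NNReal

namespace Pool.Agent.R973.Cp

open Cop764 (disorder)

lemma log_bd (k : ℕ) : Real.log (1 + 8 * (k : ℝ)) ≤ k / 2 + 4 := by
  have h1 : (0 : ℝ) < (1 + 8 * (k : ℝ)) / 16 := by positivity
  have h2 := Real.log_le_sub_one_of_pos h1
  rw [Real.log_div (by positivity) (by norm_num)] at h2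
  have h3 : Real.log 16 ≤ 3 := by
    rw [show (16 : ℝ) = 2 ^ 4 by norm_num, Real.log_pow]
    have := Real.log_two_lt_d9
    push_cast
    linarith
  have h4 : (0 : ℝ) ≤ k := Nat.cast_nonneg k
  linarith

lemma pow_bd {k : ℕ} (hk : 10 ≤ k) : 2 * (8 * k + 1) ≤ 2 ^ (k - 1) := by
  obtain ⟨m, rfl⟩ : ∃ m, k = m + 10 := ⟨k - 10, by omega⟩
  rw [show m + 10 - 1 = m + 9 by omega]
  induction m with
  | zero => norm_num
  | succ m ih =>
    have h1 := ih (by omega)
    rw [show m + 1 + 9 = (m + 9) + 1 by omega, pow_succ]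
    omega

lemma sum_inv_ge {k0 : ℕ} (hk0 : 1 ≤ k0) (κ : ℕ) (hκ : k0 ≤ κ) :
    Real.log κ - Real.log k0 ≤ ∑ k ∈ Finset.Ico k0 κ, 1 / (k : ℝ) := by
  induction κ, hκ using Nat.le_induction with
  | base => simp
  | succ n hn ih =>
    rw [Finset.sum_Ico_succ_top hn]
    have hn0 : (0 : ℝ) < n := by exact_mod_cast (by omega : 0 < n)
    have h1 : Real.log ((n + 1 : ℕ) : ℝ) - Real.log n ≤ 1 / n := by
      rw [← Real.log_div (by positivity) (by positivity)]
      have h2 : ((n + 1 : ℕ) : ℝ) / n = 1 + 1 / n := by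
        push_cast; field_simp
      rw [h2]
      have := Real.log_le_sub_one_of_pos (show (0 : ℝ) < 1 + 1 / n by positivity)
      linarith
    linarith

lemma ev_small (A b C k0 : ℝ) (a : ℝ) (hb : 0 < b) (ha : 0 < a) :
    ∀ᶠ κ : ℕ in atTop, (A + 8 * Real.log κ) * Real.exp (-(b * (Real.log κ - k0))) +
      (C + 2 * (κ + 1)) * Real.exp (-(a * (κ : ℝ) ^ 2)) ≤ 1 := by
  have h1 : Tendsto (fun x : ℝ => (A + 8 * x) * Real.exp (-(b * (x - k0)))) atTop (𝓝 0) := by
    have e0 := tendsto_rpow_mul_exp_neg_mul_atTop_nhds_zero 0 b hb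
    have e1 := tendsto_rpow_mul_exp_neg_mul_atTop_nhds_zero 1 b hb
    have e2 := ((e0.const_mul A).add (e1.const_mul 8)).const_mul (Real.exp (b * k0))
    simp only [mul_zero, add_zero, Real.rpow_zero, Real.rpow_one, one_mul] at e2
    refine e2.congr' ?_
    filter_upwards with x
    have : -(b * (x - k0)) = b * k0 + -b * x := by ring
    rw [this, Real.exp_add]
    ring
  have h2 : Tendsto (fun x : ℝ => (C + 2 * (x + 1)) * Real.exp (-(a * x ^ 2))) atTop (𝓝 0) := by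
    have e0 := tendsto_rpow_mul_exp_neg_mul_atTop_nhds_zero 0 a ha
    have e1 := tendsto_rpow_mul_exp_neg_mul_atTop_nhds_zero 1 a ha
    have e2 := ((e0.const_mul (|C| + 2)).add (e1.const_mul 2))
    simp only [mul_zero, add_zero, Real.rpow_zero, Real.rpow_one, one_mul] at e2
    refine squeeze_zero_norm' ?_ e2
    filter_upwards [eventually_ge_atTop 1] with x hx
    rw [norm_mul, Real.norm_eq_abs, Real.norm_eq_abs, abs_of_pos (Real.exp_pos _)]
    have e3 : |C + 2 * (x + 1)| ≤ |C| + 2 + 2 * x := by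
      calc |C + 2 * (x + 1)| ≤ |C| + |2 * (x + 1)| := abs_add_le _ _
        _ = |C| + 2 * (x + 1) := by rw [abs_of_nonneg (by linarith : (0 : ℝ) ≤ 2 * (x + 1))]
        _ = _ := by ring
    have e4 : Real.exp (-(a * x ^ 2)) ≤ Real.exp (-a * x) := by
      apply Real.exp_le_exp.2
      nlinarith [mul_nonneg ha.le (mul_nonneg (by linarith : (0 : ℝ) ≤ x) (by linarith : (0:ℝ) ≤ x - 1))]
    calc |C + 2 * (x + 1)| * Real.exp (-(a * x ^ 2))
        ≤ (|C| + 2 + 2 * x) * Real.exp (-a * x) :=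
          mul_le_mul e3 e4 (Real.exp_pos _).le (by positivity)
      _ = _ := by ring
  have h3 : Tendsto (fun κ : ℕ => (κ : ℝ)) atTop atTop := tendsto_natCast_atTop_atTop
  have h4 := (h1.comp (Real.tendsto_log_atTop.comp h3)).add (h2.comp h3)
  rw [add_zero] at h4
  filter_upwards [h4.eventually_le_const (show (0 : ℝ) < 1 by norm_num)] with κ hκ
  exact hκ

lemma num1 {n R p E k wc : ℝ} (hR : 1 ≤ R) (hn0 : 0 ≤ n) (hn : n * R ≤ p) (hp : 0 < p)
    (hk : 0 < k) (hE : E ≤ k * wc) (hE0 : 0 < E) (hwc : 0 < wc) :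
    n * (E * (4 * p)⁻¹ * (1 + 8 * k)⁻¹) ≤ wc / 4 := by
  have h1 : n ≤ p := by nlinarith
  have h2 : n * (E * (4 * p)⁻¹ * (1 + 8 * k)⁻¹) = n * E / (4 * p * (1 + 8 * k)) := by
    field_simp
  rw [h2, div_le_div_iff₀ (by positivity) (by norm_num)]
  have h3 : n * E ≤ p * (k * wc) := mul_le_mul h1 hE hE0.le hp.le
  have h4 : 0 < p * (k * wc) := by positivity
  have h5 : 0 < wc * p := by positivity
  nlinarith

lemma num2 {n R p E k wc : ℝ} (hR : 1 ≤ R) (hn : p / (2 * R) ≤ n) (hp : 0 < p)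
    (hk : 1 ≤ k) (hE0 : 0 < E) (hwc : 0 < wc) :
    wc * E / (144 * R) * (1 / k) ≤ wc / 2 * (n * (E * (4 * p)⁻¹ * (1 + 8 * k)⁻¹)) := by
  have h1 : p / (2 * R) * (E * (4 * p)⁻¹ * (1 + 8 * k)⁻¹)
      ≤ n * (E * (4 * p)⁻¹ * (1 + 8 * k)⁻¹) :=
    mul_le_mul_of_nonneg_right hn (by positivity)
  have h2 : p / (2 * R) * (E * (4 * p)⁻¹ * (1 + 8 * k)⁻¹) = E / (8 * R * (1 + 8 * k)) := by
    field_simp
    ring
  have h3 : E / (72 * R * k) ≤ E / (8 * R * (1 + 8 * k)) := by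
    apply div_le_div_of_nonneg_left hE0.le (by positivity)
    nlinarith
  calc wc * E / (144 * R) * (1 / k) = wc / 2 * (E / (72 * R * k)) := by
        field_simp; ring
    _ ≤ _ := by
        apply mul_le_mul_of_nonneg_left _ (by positivity)
        linarith

lemma num3 {n p k : ℝ} (hn : p / (2 * (8 * k + 1)) ≤ n) (hp : 0 < p) (hk : 1 ≤ k) :
    k ^ 2 / 36 ≤ n * ((2 * p)⁻¹ * k ^ 3) := by
  have h1 : p / (2 * (8 * k + 1)) * ((2 * p)⁻¹ * k ^ 3) ≤ n * ((2 * p)⁻¹ * k ^ 3) :=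
    mul_le_mul_of_nonneg_right hn (by positivity)
  have h2 : p / (2 * (8 * k + 1)) * ((2 * p)⁻¹ * k ^ 3) = k ^ 3 / (4 * (8 * k + 1)) := by
    field_simp
    ring
  have h3 : k ^ 2 / 36 ≤ k ^ 3 / (4 * (8 * k + 1)) := by
    rw [div_le_div_iff₀ (by norm_num) (by positivity)]
    have : 0 ≤ k ^ 2 := by positivity
    nlinarith
  linarith

lemma hit_len {α D k L : ℝ} (hα0 : 0 < α) (hα1 : α < 1) (hk : 7 + |D| ≤ k) (hL0 : 0 ≤ L)
    (hL : L ≤ k / 2 + 4) :
    (D + (1 + α) * ((k + 1) * Real.log 2 + L)) * (1 + α) + 1 ≤ 8 * k := by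
  have hl2 := Real.log_two_gt_d9
  have hl2' := Real.log_two_lt_d9
  have e8 := le_abs_self D
  have e12 := abs_nonneg D
  have e7 : (k + 1) * Real.log 2 + L ≤ 1.2 * k + 4.7 := by nlinarith
  have hX0 : 0 ≤ (k + 1) * Real.log 2 + L := by
    have : 0 ≤ (k + 1) * Real.log 2 := mul_nonneg (by linarith) (by linarith)
    linarith
  have e9 : D * (1 + α) ≤ 2 * |D| := by nlinarith
  have e10 : (1 + α) * (1 + α) ≤ 4 := by nlinarith
  have e11 : ((1 + α) * (1 + α)) * ((k + 1) * Real.log 2 + L) ≤ 4 * (1.2 * k + 4.7) :=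
    (mul_le_mul_of_nonneg_right e10 hX0).trans (by linarith)
  have e13 : (D + (1 + α) * ((k + 1) * Real.log 2 + L)) * (1 + α)
      = D * (1 + α) + ((1 + α) * (1 + α)) * ((k + 1) * Real.log 2 + L) := by ring
  rw [e13]
  linarith

variable (γ : Measure ℝ) [IsProbabilityMeasure γ]

theorem coarse_growth {α θ ρ : ℝ} (cst : ℝ) (hα0 : 0 < α) (hα1 : α < 1) (hθα : θ * (1 + α) = 1)
    (hγ : Integrable (fun u => |u|) γ)
    (hi : Integrable (fun u => Real.exp (θ * u)) γ)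
    (h1 : ∫ u, Real.exp (θ * u) ∂γ = 1) (hi2 : Integrable (fun u => Real.exp (θ / 2 * u)) γ)
    (h2 : ∫ u, Real.exp (θ / 2 * u) ∂γ = ρ) (hρ : ρ < 1) (hw : 0 < γ.real {u | |u| ≤ 1})
    {c y0 : ℝ} (hc : 0 < c)
    (hhit : ∀ y, y0 ≤ y → ∀ H : ℕ, y / θ + 1 ≤ H →
      c * Real.exp (-(θ * y)) ≤ (disorder γ).real (Ev H 0 y)) :
    ∃ C : ℝ, ∃ R0 : ℕ, 1 ≤ R0 ∧ ∀ M : ℕ, (M : ℝ) / R0 - C ≤ ∫ x, W α cst M x ∂(disorder γ) := by
  classical
  have hθ : 0 < θ := by
    by_contra hcon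
    nlinarith [not_lt.1 hcon]
  have hθ1 : θ < 1 := by nlinarith
  have hθ2 : 1 / 2 < θ := by nlinarith
  set w := γ.real {u | |u| ≤ 1} with hwdef
  have hρ0 : 0 ≤ ρ := by
    rw [← h2]
    exact integral_nonneg fun u => (Real.exp_pos _).le
  have hwc : 0 < w * c := mul_pos hw hc
  -- choice of R
  obtain ⟨R, hR1, hR⟩ : ∃ R : ℕ, 1 ≤ R ∧ ρ ^ R / (1 - ρ ^ R) ≤ w * c / 4 := by
    have e1 : Tendsto (fun R : ℕ => ρ ^ R) atTop (𝓝 0) := tendsto_pow_atTop_nhds_zero_of_lt_one hρ0 hρ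
    have e2 : Tendsto (fun R : ℕ => ρ ^ R / (1 - ρ ^ R)) atTop (𝓝 (0 / (1 - 0))) :=
      e1.div (tendsto_const_nhds.sub e1) (by norm_num)
    rw [zero_div] at e2
    have e3 := e2.eventually_le_const (show (0 : ℝ) < w * c / 4 by positivity)
    obtain ⟨R, hR, hR1⟩ := (e3.and (eventually_ge_atTop 1)).exists
    exact ⟨R, hR1, hR⟩
  set m1 := ∫ u, |u| ∂γ with hm1
  have hm1' : 0 ≤ m1 := integral_nonneg fun u => abs_nonneg _
  set G0 := m1 + 2 with hG0
  set D := G0 + 1 - 2 * cst with hD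
  set Yk : ℕ → ℝ := fun k => D + (1 + α) * ((k + 1) * Real.log 2 + Real.log (1 + 8 * k)) with hYk
  have hl2 := Real.log_two_gt_d9
  have hl2' := Real.log_two_lt_d9
  -- threshold scale
  obtain ⟨k0, hk0⟩ : ∃ k0 : ℕ, (10 : ℝ) + |D| + 2 * |y0 - D| + 2 * R +
      Real.exp (-(θ * D)) / (w * c) ≤ k0 := exists_nat_ge _
  have hRR : (1 : ℝ) ≤ R := by exact_mod_cast hR1
  have hexpD : 0 < Real.exp (-(θ * D)) / (w * c) := by positivity
  have hk0' : ∀ k : ℕ, k0 ≤ k → (10 : ℝ) ≤ k ∧ 7 + |D| ≤ k ∧ 2 * |y0 - D| ≤ k ∧ (2 : ℝ) * R ≤ k ∧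
      Real.exp (-(θ * D)) / (w * c) ≤ k := by
    intro k hk
    have e1 : (k0 : ℝ) ≤ k := by exact_mod_cast hk
    have e2 := abs_nonneg D
    have e3 := abs_nonneg (y0 - D)
    refine ⟨by linarith, by linarith, by linarith, by linarith, by linarith⟩
  have hk010 : 10 ≤ k0 := by
    have := (hk0' k0 le_rfl).1
    exact_mod_cast this
  set n : ℕ → ℕ := fun k => 2 ^ (k - 1) / R with hn
  set b : ℝ := w * c * Real.exp (-(θ * D)) / (144 * R) with hb
  have hb0 : 0 < b := by positivity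
  -- exponential of the threshold
  have hexpY : ∀ k : ℕ, Real.exp (-(θ * Yk k))
      = Real.exp (-(θ * D)) * ((2 : ℝ) ^ (k + 1))⁻¹ * (1 + 8 * (k : ℝ))⁻¹ := by
    intro k
    have e1 : -(θ * Yk k) = -(θ * D) + (-((k + 1 : ℕ) * Real.log 2)) +
        (-Real.log (1 + 8 * (k : ℝ))) := by
      simp only [hYk]
      push_cast
      linear_combination (-((k : ℝ) + 1) * Real.log 2 - Real.log (1 + 8 * (k : ℝ))) * hθα
    rw [e1, Real.exp_add, Real.exp_add, Real.exp_neg (((k + 1 : ℕ) : ℝ) * Real.log 2),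
      Real.exp_neg (Real.log _), Real.exp_nat_mul, Real.exp_log (by norm_num),
      Real.exp_log (by positivity)]
  have hnle : ∀ k : ℕ, 1 ≤ k → (n k : ℝ) * R ≤ 2 ^ (k - 1) := by
    intro k _
    have : n k * R ≤ 2 ^ (k - 1) := Nat.div_mul_le_self _ _
    exact_mod_cast this
  have hpow2 : ∀ k : ℕ, 1 ≤ k → (2 : ℝ) ^ (k + 1) = 4 * 2 ^ (k - 1) := by
    intro k hk
    obtain ⟨m, rfl⟩ : ∃ m, k = m + 1 := ⟨k - 1, by omega⟩
    rw [Nat.add_sub_cancel]
    ring
  have hnge : ∀ k : ℕ, k0 ≤ k → (2 : ℝ) ^ (k - 1) / (2 * R) ≤ n k := by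
    intro k hk
    have e1 : (2 : ℝ) ^ (k - 1) / R - 1 ≤ n k := by
      have e2 : 2 ^ (k - 1) < R * (n k + 1) := Nat.lt_mul_div_succ _ hR1
      have e3 : (2 : ℝ) ^ (k - 1) < R * (n k + 1) := by exact_mod_cast e2
      have e4 : (2 : ℝ) ^ (k - 1) / R < n k + 1 := by
        rw [div_lt_iff₀ (by linarith)]; linarith
      linarith
    have e5 : (1 : ℝ) ≤ 2 ^ (k - 1) / (2 * R) := by
      rw [le_div_iff₀ (by positivity), one_mul]
      have e6 := (hk0' k hk).2.2.2.1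
      have e7 : (k : ℝ) ≤ 2 ^ (k - 1) := by
        have : k ≤ 2 ^ (k - 1) := by
          have := pow_bd (show 10 ≤ k by omega)
          omega
        exact_mod_cast this
      linarith
    have e8 : (2 : ℝ) ^ (k - 1) / R = 2 * (2 ^ (k - 1) / (2 * R)) := by
      field_simp
    linarith
  have hgrid : ∀ k, k0 ≤ k → n k * R + 1 + 8 * k ≤ 2 ^ k := by
    intro k hk
    have e1 : n k * R ≤ 2 ^ (k - 1) := Nat.div_mul_le_self _ _
    have e2 := pow_bd (show 10 ≤ k by omega)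
    have e3 : 2 ^ k = 2 * 2 ^ (k - 1) := by
      obtain ⟨m, rfl⟩ : ∃ m, k = m + 1 := ⟨k - 1, by omega⟩
      rw [Nat.add_sub_cancel]; ring
    omega
  -- hitting probabilities at the main scales
  have hhitk : ∀ k, k0 ≤ k →
      c * Real.exp (-(θ * Yk k)) ≤ (disorder γ).real (Ev (8 * k) 0 (Yk k)) := by
    intro k hk
    obtain ⟨e1, e2, e3, e4, e5⟩ := hk0' k hk
    have elog := log_bd k
    have elog0 : 0 ≤ Real.log (1 + 8 * (k : ℝ)) := Real.log_nonneg (by linarith)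
    have hX0 : 0 ≤ (k + 1) * Real.log 2 + Real.log (1 + 8 * (k : ℝ)) := by positivity
    apply hhit
    · simp only [hYk]
      have e6 : (k : ℝ) / 2 ≤ (1 + α) * ((k + 1) * Real.log 2 + Real.log (1 + 8 * (k : ℝ))) := by
        have e7 : (k : ℝ) / 2 ≤ (k + 1) * Real.log 2 + Real.log (1 + 8 * (k : ℝ)) := by
          have e9 := mul_le_mul_of_nonneg_left hl2.le (by positivity : (0 : ℝ) ≤ (k : ℝ) + 1)
          linarith
        exact e7.trans (le_mul_of_one_le_left hX0 (by linarith))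
      have e8 := le_abs_self (y0 - D)
      linarith
    · have e6 : Yk k / θ = Yk k * (1 + α) := by
        rw [div_eq_iff hθ.ne']
        linear_combination (-(Yk k)) * hθα
      rw [e6]
      simp only [hYk]
      push_cast
      exact hit_len hα0 hα1 e2 elog0 elog
  have hpk : ∀ k, k0 ≤ k → b * (1 / (k : ℝ)) ≤
      (disorder γ).real (⋃ i ∈ Finset.range (n k), Gd (8 * k) (2 ^ k + i * R) (Yk k)) := by
    intro k hk
    obtain ⟨e1, e2, e3, e4, e5⟩ := hk0' k hk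
    have hkpos : (0 : ℝ) < k := by linarith
    have hkn : 1 ≤ k := by omega
    have hE : Real.exp (-(θ * D)) ≤ k * (w * c) := by
      rw [div_le_iff₀ hwc] at e5; exact e5
    have hpp : (0 : ℝ) < 2 ^ (k - 1) := by positivity
    have e6 : (n k : ℝ) * Real.exp (-(θ * Yk k)) ≤ w * c / 4 := by
      rw [hexpY, hpow2 k hkn]
      exact num1 hRR (Nat.cast_nonneg _) (hnle k hkn) hpp hkpos hE (Real.exp_pos _) hwc
    have e7 := grid_lower γ hθ hi h1 hi2 h2 hρ (2 ^ k) R (8 * k) (n k) hR1 (Yk k)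
      (hhitk k hk) hR e6
    refine le_trans ?_ e7
    rw [hexpY, hpow2 k hkn]
    exact num2 hRR (hnge k hk) hpp (by linarith) (Real.exp_pos _) hwc
  -- the last scale
  set Y' : ℕ → ℝ := fun κ => (1 + α) * (κ * Real.log 2 - 3 * Real.log κ) with hY'
  have hY'lim : ∀ᶠ κ : ℕ in atTop, y0 ≤ Y' κ := by
    have e1 : Tendsto (fun x : ℝ => x * Real.log 2 - 3 * Real.log x) atTop atTop := by
      have e2 : Tendsto (fun x : ℝ => x * (Real.log 2 - 3 * (Real.log x / x))) atTop atTop := by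
        have e3 : Tendsto (fun x : ℝ => Real.log 2 - 3 * (Real.log x / x)) atTop
            (𝓝 (Real.log 2 - 3 * 0)) :=
          tendsto_const_nhds.sub
            (Real.isLittleO_log_id_atTop.tendsto_div_nhds_zero.const_mul 3)
        exact tendsto_id.atTop_mul_pos (by linarith) e3
      refine e2.congr' ?_
      filter_upwards [eventually_gt_atTop 0] with x hx
      field_simp
    have e4 := (e1.comp (tendsto_natCast_atTop_atTop (R := ℝ))).eventually_ge_atTop |y0|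
    filter_upwards [e4] with κ hκ
    simp only [Function.comp_apply] at hκ
    simp only [hY']
    have e5 := le_abs_self y0
    have e6 := abs_nonneg y0
    exact (e5.trans hκ).trans (le_mul_of_one_le_left (e6.trans hκ) (by linarith))
  set a1 : ℝ := |2 * cst - 1| + 2 * Real.log 2 + 2 * Real.log 9 with ha1
  have hsmall := ev_small (G0 + a1) b |cst| (Real.log k0) (w * c / 36) hb0 (by positivity)
  obtain ⟨κ, hκs, hκy, hκk⟩ := (hsmall.and (hY'lim.and (eventually_ge_atTop k0))).exists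
  obtain ⟨f1, f2, f3, f4, f5⟩ := hk0' κ hκk
  have hκpos : (0 : ℝ) < κ := by linarith
  have hκ10 : 10 ≤ κ := by omega
  set Y : ℕ → ℝ := fun k => if k < κ then Yk k else Y' κ with hY
  have hYκ : Y κ = Y' κ := by simp [hY]
  have hYk' : ∀ k, k < κ → Y k = Yk k := by
    intro k hk; simp [hY, hk]
  set n2 : ℕ := 2 ^ (κ - 1) / (8 * κ + 1) with hn2
  have hexpY' : Real.exp (-(θ * Y' κ)) = ((2 : ℝ) ^ κ)⁻¹ * (κ : ℝ) ^ 3 := by
    have e1 : -(θ * Y' κ) = -((κ : ℕ) * Real.log 2) + (3 : ℕ) * Real.log κ := by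
      simp only [hY']
      push_cast
      linear_combination (-(κ : ℝ) * Real.log 2 + 3 * Real.log (κ : ℝ)) * hθα
    rw [e1, Real.exp_add, Real.exp_neg, Real.exp_nat_mul, Real.exp_nat_mul,
      Real.exp_log (by norm_num), Real.exp_log hκpos]
  have hlogκ : 0 ≤ Real.log κ := Real.log_nonneg (by linarith)
  have hhitκ : c * Real.exp (-(θ * Y κ)) ≤ (disorder γ).real (Ev (8 * κ) 0 (Y κ)) := by
    rw [hYκ]
    apply hhit _ hκy
    have e6 : Y' κ / θ = Y' κ * (1 + α) := by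
      rw [div_eq_iff hθ.ne']
      linear_combination (-(Y' κ)) * hθα
    rw [e6]
    simp only [hY']
    push_cast
    have e10 : (1 + α) * (1 + α) ≤ 4 := by
      have e11 : (1 + α) * (1 + α) ≤ 2 * 2 :=
        mul_le_mul (by linarith) (by linarith) (by linarith) zero_le_two
      linarith
    have e7 : κ * Real.log 2 - 3 * Real.log κ ≤ κ := by
      have e12 := mul_le_mul_of_nonneg_left hl2'.le hκpos.le
      linarith
    have e8 : (1 + α) * (κ * Real.log 2 - 3 * Real.log κ) * (1 + α) ≤ 4 * κ := by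
      calc _ = ((1 + α) * (1 + α)) * (κ * Real.log 2 - 3 * Real.log κ) := by ring
        _ ≤ ((1 + α) * (1 + α)) * κ := mul_le_mul_of_nonneg_left e7 (by positivity)
        _ ≤ 4 * κ := mul_le_mul_of_nonneg_right e10 hκpos.le
    linarith
  have hgrid2 : n2 * (8 * κ + 1) + 1 + 8 * κ ≤ 2 ^ κ := by
    have e1 : n2 * (8 * κ + 1) ≤ 2 ^ (κ - 1) := Nat.div_mul_le_self _ _
    have e2 := pow_bd hκ10
    have e3 : 2 ^ κ = 2 * 2 ^ (κ - 1) := by
      obtain ⟨m, rfl⟩ : ∃ m, κ = m + 1 := ⟨κ - 1, by omega⟩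
      rw [Nat.add_sub_cancel]; ring
    omega
  have hn2ge : (κ : ℝ) ^ 2 / 36 ≤ n2 * Real.exp (-(θ * Y' κ)) := by
    have e1 : (2 : ℝ) ^ (κ - 1) / (2 * (8 * κ + 1)) ≤ n2 := by
      have e2 : 2 ^ (κ - 1) < (8 * κ + 1) * (n2 + 1) := Nat.lt_mul_div_succ _ (by omega)
      have e3 : (2 : ℝ) ^ (κ - 1) < (8 * κ + 1) * (n2 + 1) := by exact_mod_cast e2
      have e4 : (2 : ℝ) ^ (κ - 1) / (8 * κ + 1) < n2 + 1 := by
        rw [div_lt_iff₀ (by positivity)]; linarith
      have e5 : (1 : ℝ) ≤ 2 ^ (κ - 1) / (2 * (8 * κ + 1)) := by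
        rw [le_div_iff₀ (by positivity), one_mul]
        exact_mod_cast pow_bd hκ10
      have e8 : (2 : ℝ) ^ (κ - 1) / (8 * κ + 1) = 2 * (2 ^ (κ - 1) / (2 * (8 * κ + 1))) := by
        field_simp
      linarith
    rw [hexpY']
    have e9 : (2 : ℝ) ^ κ = 2 * 2 ^ (κ - 1) := by
      obtain ⟨m, rfl⟩ : ∃ m, κ = m + 1 := ⟨κ - 1, by omega⟩
      rw [Nat.add_sub_cancel]; ring
    rw [e9]
    exact num3 e1 (by positivity) (by linarith)
  -- error probabilities
  have hP1 := prob_noSE1 γ k0 κ hκk (fun k => 8 * k) Y n R hR1 hgrid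
    (fun k => b * (1 / (k : ℝ))) (by
      intro k hk hkκ
      rw [hYk' k hkκ]
      exact hpk k hk)
  have hP2 := prob_noSE2 γ k0 κ hκk (fun k => 8 * k) Y n2 (8 * κ + 1) le_rfl hgrid2 hhitκ
  have hs := sum_inv_ge (show 1 ≤ k0 by omega) κ hκk
  have hP1' : (disorder γ).real {x | ∀ b, b < 2 ^ κ → ¬ SE k0 κ (fun k => 8 * k) Y b x}
      ≤ Real.exp (-(b * (Real.log κ - Real.log k0))) := by
    refine hP1.trans ?_
    rw [← Finset.mul_sum]
    apply Real.exp_le_exp.2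
    have := mul_le_mul_of_nonneg_left hs hb0.le
    linarith
  have hP2' : (disorder γ).real {x | ∀ b, b < 2 ^ (κ + 1) → ¬ SE k0 κ (fun k => 8 * k) Y b x}
      ≤ Real.exp (-(w * c / 36 * (κ : ℝ) ^ 2)) := by
    refine hP2.trans ?_
    apply Real.exp_le_exp.2
    rw [hYκ]
    have := mul_le_mul_of_nonneg_left hn2ge hwc.le
    have e1 : (n2 : ℝ) * (w * c * Real.exp (-(θ * Y' κ)))
        = w * c * (n2 * Real.exp (-(θ * Y' κ))) := by ring
    rw [e1]
    linarith
  have hl9 : 0 ≤ Real.log 9 := Real.log_nonneg (by norm_num)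
  have hl20 : 0 ≤ Real.log 2 := by linarith
  have ha10 : 0 ≤ a1 := by
    rw [ha1]; positivity
  refine rule_growth γ (by linarith) hγ k0 κ (fun k => 8 * k) Y G0 (a1 + 8 * Real.log κ)
    (|cst| + 2 * (κ + 1)) _ _ (by positivity) (by positivity) (by positivity) ?_ ?_ ?_ hP1' hP2' ?_
  · intro k _ hkκ
    rw [hYk' k hkκ]
    simp only [hYk, jc]
    have e1 : Real.log ((2 ^ (k + 1) : ℕ) : ℝ) = (k + 1) * Real.log 2 := by
      push_cast
      rw [Real.log_pow]
      push_cast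
      ring
    have e2 : Real.log ((1 + 8 * k : ℕ) : ℝ) = Real.log (1 + 8 * (k : ℝ)) := by push_cast; rfl
    rw [e1, e2]
    apply le_of_eq
    rw [hD]
    ring
  · rw [hYκ]
    simp only [hY', jc]
    have e1 : Real.log ((2 ^ (κ + 1) : ℕ) : ℝ) = (κ + 1) * Real.log 2 := by
      push_cast
      rw [Real.log_pow]
      push_cast
      ring
    have e2 : Real.log ((1 + 8 * κ : ℕ) : ℝ) ≤ Real.log 9 + Real.log κ := by
      rw [← Real.log_mul (by norm_num) hκpos.ne']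
      apply Real.log_le_log (by positivity)
      push_cast
      linarith
    rw [e1]
    have e3 : 0 ≤ Real.log ((1 + 8 * κ : ℕ) : ℝ) := Real.log_nonneg (by push_cast; linarith)
    have e4 := neg_abs_le (2 * cst - 1)
    have e5 : (1 + α) * Real.log ((1 + 8 * κ : ℕ) : ℝ) ≤ 2 * (Real.log 9 + Real.log κ) :=
      mul_le_mul (by linarith) e2 e3 zero_le_two
    have e6 : (1 + α) * Real.log 2 ≤ 2 * Real.log 2 :=
      mul_le_mul_of_nonneg_right (by linarith) hl20
    have e7 : (1 + α) * (3 * Real.log κ) ≤ 6 * Real.log κ := by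
      have e8 : (1 + α) * (3 * Real.log κ) ≤ 2 * (3 * Real.log κ) :=
        mul_le_mul_of_nonneg_right (by linarith) (by linarith)
      linarith
    rw [ha1]
    linarith
  · simp only [jc]
    have e1 : Real.log ((2 ^ (κ + 1) : ℕ) : ℝ) = (κ + 1) * Real.log 2 := by
      push_cast
      rw [Real.log_pow]
      push_cast
      ring
    rw [e1]
    have e2 := neg_abs_le cst
    have e3 : (1 + α) * ((κ + 1) * Real.log 2) ≤ 2 * (κ + 1) := by
      have e4 : (κ + 1) * Real.log 2 ≤ κ + 1 := by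
        have e12 := mul_le_mul_of_nonneg_left hl2'.le (by positivity : (0 : ℝ) ≤ (κ : ℝ) + 1)
        linarith
      have e5 : 0 ≤ (κ + 1) * Real.log 2 := by positivity
      exact mul_le_mul (by linarith) e4 e5 zero_le_two
    linarith
  · have e1 : G0 + (a1 + 8 * Real.log κ) = G0 + a1 + 8 * Real.log κ := by ring
    rw [e1]
    rw [hG0] at *
    linarith

end Pool.Agent.R973.Cp
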