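import Pool.Agent.R973.Cp.Conv
import Pool.Agent.R973.Cp.Avg
import Pool.Agent.R973.Cp.Gauss
import Pool.Agent.R973.Cp.Num

/-!
# The law of block sums
-/

set_option autoImplicit false

open MeasureTheory ProbabilityTheory Filter Topology
open scoped ENNReal NNReal BoundedContinuousFunction

namespace Pool.Agent.R973.Cp

open Cop764 (disorder)

/-- Standardised block sums. -/
noncomputable def zb (L : ℕ) (ω : ℕ → ℝ) (b : ℕ) : ℝ := (Real.sqrt L)⁻¹ * bs L ω b

variable (ν : Measure ℝ) [IsProbabilityMeasure ν]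

/-- The law of a standardised sum of `L` variables. -/
noncomputable def muL (L : ℕ) : Measure ℝ :=
  (Measure.pi fun _ : Fin L => ν).map (fun v => (Real.sqrt L)⁻¹ * ∑ r, v r)

instance muL_prob (L : ℕ) : IsProbabilityMeasure (muL ν L) := by
  unfold muL
  exact Measure.isProbabilityMeasure_map (by fun_prop)

lemma bs_eq (L : ℕ) (ω : ℕ → ℝ) (b : ℕ) : bs L ω b = ∑ r : Fin L, ω (b * L + r + 1) := by
  unfold bs
  have h2 : (b + 1) * L = b * L + L := by ring
  rw [Finset.sum_fin_eq_sum_range]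
  refine Finset.sum_nbij' (fun m => m - 1 - b * L) (fun r => b * L + r + 1) ?_ ?_ ?_ ?_ ?_
  · intro m hm
    rw [Finset.mem_Ioc] at hm
    rw [Finset.mem_range]
    omega
  · intro r hr
    rw [Finset.mem_range] at hr
    rw [Finset.mem_Ioc]
    omega
  · intro m hm
    rw [Finset.mem_Ioc] at hm
    omega
  · intro r _
    omega
  · intro m hm
    rw [Finset.mem_Ioc] at hm
    rw [dif_pos (by omega)]
    have e : m = b * L + (m - 1 - b * L) + 1 := by omega
    exact congrArg ω e

lemma map_zb {L : ℕ} (hL : 1 ≤ L) : (disorder ν).map (zb L) = disorder (muL ν L) := by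
  have hinj : Function.Injective (fun p : ℕ × Fin L => p.1 * L + p.2.val + 1) := by
    rintro ⟨a, i⟩ ⟨b, j⟩ hab
    simp only at hab
    have hi := i.2
    have hj := j.2
    have h1 : (a * L + i.val) / L = a := by
      rw [add_comm, Nat.add_mul_div_right _ _ hL, Nat.div_eq_of_lt hi, zero_add]
    have h2 : (b * L + j.val) / L = b := by
      rw [add_comm, Nat.add_mul_div_right _ _ hL, Nat.div_eq_of_lt hj, zero_add]
    have h3 : a * L + i.val = b * L + j.val := by omega
    have h4 : a = b := by rw [← h1, ← h2, h3]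
    subst h4
    have h5 : i = j := by ext; omega
    rw [h5]
  have h1 : (disorder ν).map (fun ω (p : ℕ × Fin L) => ω (p.1 * L + p.2.val + 1))
      = Measure.infinitePi (fun _ : ℕ × Fin L => ν) := by
    unfold disorder
    exact Measure.map_infinitePi_infinitePi_of_inj (Ω := fun _ => ℝ) (P := fun _ : ℕ => ν) hinj
  have h2 : (Measure.infinitePi (fun _ : ℕ × Fin L => ν)).map (MeasurableEquiv.curry ℕ (Fin L) ℝ)
      = Measure.infinitePi (fun _ : ℕ => Measure.infinitePi (fun _ : Fin L => ν)) :=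
    Measure.infinitePi_map_curry (fun _ _ => ν)
  have h3 : (Measure.infinitePi (fun _ : ℕ => Measure.infinitePi (fun _ : Fin L => ν))).map
      (fun x b => (Real.sqrt L)⁻¹ * ∑ r, x b r)
      = Measure.infinitePi (fun _ : ℕ => (Measure.infinitePi (fun _ : Fin L => ν)).map
        (fun v => (Real.sqrt L)⁻¹ * ∑ r, v r)) :=
    Measure.infinitePi_map_pi (f := fun (_ : ℕ) (v : Fin L → ℝ) => (Real.sqrt L)⁻¹ * ∑ r, v r)
      (μ := fun _ : ℕ => Measure.infinitePi (fun _ : Fin L => ν)) (fun _ => by fun_prop)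
  have h4 : zb L = (fun (x : ℕ → Fin L → ℝ) b => (Real.sqrt L)⁻¹ * ∑ r, x b r) ∘
      (MeasurableEquiv.curry ℕ (Fin L) ℝ) ∘
      (fun (ω : ℕ → ℝ) (p : ℕ × Fin L) => ω (p.1 * L + p.2.val + 1)) := by
    funext ω b
    simp only [Function.comp_apply]
    unfold zb
    rw [bs_eq]
    rfl
  rw [h4, ← Measure.map_map (by fun_prop) (by fun_prop), ← Measure.map_map (by fun_prop)
    (by fun_prop), h1, h2, h3]
  unfold disorder muL
  simp only [Measure.infinitePi_eq_pi]

lemma muL_eq (L : ℕ) : muL ν L = (disorder ν).map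
    (fun ω => (Real.sqrt L)⁻¹ * ∑ k ∈ Finset.range L, ω k) := by
  have h1 : (disorder ν).map (fun ω (r : Fin L) => ω r.val) = Measure.pi (fun _ : Fin L => ν) := by
    unfold disorder
    rw [Measure.map_infinitePi_infinitePi_of_inj (Ω := fun _ => ℝ) (P := fun _ : ℕ => ν)
      Fin.val_injective, Measure.infinitePi_eq_pi]
  unfold muL
  rw [← h1, Measure.map_map (by fun_prop) (by fun_prop)]
  congr 1
  funext ω
  simp only [Function.comp_apply]
  rw [Finset.sum_range]

section moments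
variable (hint2 : Integrable (fun x => x ^ 2) ν) (hmean : ∫ x, x ∂ν = 0) (hvar : ∫ x, x ^ 2 ∂ν = 1)
include hint2 hmean hvar

lemma integrable_id_of_sq : Integrable (fun x : ℝ => x) ν := by
  have h1 : Integrable (fun x : ℝ => 1 + x ^ 2) ν := (integrable_const _).add hint2
  apply h1.mono measurable_id.aestronglyMeasurable
  filter_upwards with x
  rw [Real.norm_eq_abs, Real.norm_eq_abs]
  refine le_trans ?_ (le_abs_self _)
  rw [← sq_abs x]
  show |x| ≤ 1 + |x| ^ 2
  nlinarith [sq_nonneg (|x| - 1), abs_nonneg x]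

lemma sum_sq_moment (L : ℕ) : Integrable (fun ω : ℕ → ℝ => (∑ k ∈ Finset.range L, ω k) ^ 2)
    (disorder ν) ∧ Integrable (fun ω : ℕ → ℝ => ∑ k ∈ Finset.range L, ω k) (disorder ν) ∧
    ∫ ω : ℕ → ℝ, (∑ k ∈ Finset.range L, ω k) ∂(disorder ν) = 0 ∧
    ∫ ω : ℕ → ℝ, (∑ k ∈ Finset.range L, ω k) ^ 2 ∂(disorder ν) = L := by
  have hid := integrable_id_of_sq ν hint2 hmean hvar
  induction L with
  | zero => simp
  | succ n ih =>
    obtain ⟨i1, i2, i3, i4⟩ := ih
    have hc1 : Integrable (fun ω : ℕ → ℝ => ω n) (disorder ν) :=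
      (integrable_coord ν (f := fun u => u) measurable_id n).2 hid
    have hc2 : Integrable (fun ω : ℕ → ℝ => (ω n) ^ 2) (disorder ν) :=
      (integrable_coord ν (f := fun u => u ^ 2) (by fun_prop) n).2 hint2
    have hm1 : Measurable fun ω : ℕ → ℝ => ∑ k ∈ Finset.range n, ω k :=
      Finset.measurable_sum _ fun k _ => measurable_pi_apply k
    have hm2 : Measurable fun ω : ℕ → ℝ => ω n := measurable_pi_apply n
    have hd1 : Dep (Finset.Ico 0 n) fun ω : ℕ → ℝ => ∑ k ∈ Finset.range n, ω k := by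
      intro x y h
      exact Finset.sum_congr rfl fun k hk => h k (by
        rw [Finset.mem_range] at hk; rw [Finset.mem_Ico]; omega)
    have hd2 : Dep (Finset.Ico n (n + 1)) fun ω : ℕ → ℝ => ω n := by
      intro x y h
      exact h n (by simp)
    have hprodi : Integrable (fun ω : ℕ → ℝ => (∑ k ∈ Finset.range n, ω k) * ω n) (disorder ν) :=
      integrable_mul ν disj_Ico hm1 hm2 hd1 hd2 i2 hc1
    have hprod : ∫ ω : ℕ → ℝ, (∑ k ∈ Finset.range n, ω k) * ω n ∂(disorder ν) = 0 := by
      rw [int_mul ν disj_Ico hm1 hm2 hd1 hd2, i3, zero_mul]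
    have e1 : ∀ ω : ℕ → ℝ, (∑ k ∈ Finset.range (n + 1), ω k) ^ 2
        = (∑ k ∈ Finset.range n, ω k) ^ 2 + 2 * ((∑ k ∈ Finset.range n, ω k) * ω n)
          + (ω n) ^ 2 := by
      intro ω
      rw [Finset.sum_range_succ]; ring
    have hc1i : ∫ ω : ℕ → ℝ, ω n ∂(disorder ν) = 0 := by
      rw [int_coord ν (f := fun u => u) measurable_id n, hmean]
    have hc2i : ∫ ω : ℕ → ℝ, (ω n) ^ 2 ∂(disorder ν) = 1 := by
      rw [int_coord ν (f := fun u => u ^ 2) (by fun_prop) n, hvar]
    refine ⟨?_, ?_, ?_, ?_⟩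
    · simp only [e1]
      exact (i1.add (hprodi.const_mul 2)).add hc2
    · simp only [Finset.sum_range_succ]
      exact i2.add hc1
    · simp only [Finset.sum_range_succ]
      rw [integral_add i2 hc1, i3, hc1i, add_zero]
    · simp only [e1]
      have hsum : Integrable (fun ω : ℕ → ℝ => (∑ k ∈ Finset.range n, ω k) ^ 2 +
          2 * ((∑ k ∈ Finset.range n, ω k) * ω n)) (disorder ν) := i1.add (hprodi.const_mul 2)
      rw [integral_add hsum hc2, integral_add i1 (hprodi.const_mul 2),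
        integral_const_mul, hprod, i4, hc2i]
      push_cast
      ring

lemma muL_moment (L : ℕ) : Integrable (fun z => z ^ 2) (muL ν L) ∧ ∫ z, z ^ 2 ∂(muL ν L) ≤ 1 := by
  obtain ⟨i1, -, -, i4⟩ := sum_sq_moment ν hint2 hmean hvar L
  have hm : Measurable fun ω : ℕ → ℝ => (Real.sqrt L)⁻¹ * ∑ k ∈ Finset.range L, ω k := by
    fun_prop
  have e1 : ∀ ω : ℕ → ℝ, ((Real.sqrt L)⁻¹ * ∑ k ∈ Finset.range L, ω k) ^ 2
      = (L : ℝ)⁻¹ * (∑ k ∈ Finset.range L, ω k) ^ 2 := by
    intro ω
    rw [mul_pow, inv_pow, Real.sq_sqrt (Nat.cast_nonneg L)]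
  rw [muL_eq]
  constructor
  · rw [integrable_map_measure (by fun_prop) hm.aemeasurable]
    simp only [Function.comp_def, e1]
    exact i1.const_mul _
  · rw [integral_map hm.aemeasurable (by fun_prop)]
    simp only [e1]
    rw [integral_const_mul, i4]
    exact inv_mul_le_one

end moments

/-- `muL` as a probability measure. -/
noncomputable def pmL (L : ℕ) : ProbabilityMeasure ℝ := ⟨muL ν L, muL_prob ν L⟩

/-- The standard Gaussian law as a probability measure. -/
noncomputable def pmG : ProbabilityMeasure ℝ := ⟨gaussianReal 0 1, inferInstance⟩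

/-- The central limit theorem for the standardised block sums. -/
lemma muL_tendsto (hint2 : Integrable (fun x => x ^ 2) ν) (hmean : ∫ x, x ∂ν = 0)
    (hvar : ∫ x, x ^ 2 ∂ν = 1) : Tendsto (pmL ν) atTop (𝓝 pmG) := by
  have hindep : iIndepFun (fun (i : ℕ) (ω : ℕ → ℝ) => ω i) (disorder ν) := by
    unfold disorder
    exact iIndepFun_infinitePi (X := fun _ (x : ℝ) => x) (fun _ => measurable_id)
  have hmp : ∀ i : ℕ, MeasurePreserving (fun ω : ℕ → ℝ => ω i) (disorder ν) ν := fun i =>
    measurePreserving_eval_infinitePi (fun _ : ℕ => ν) i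
  have hident : ∀ i : ℕ, IdentDistrib (fun ω : ℕ → ℝ => ω i) (fun ω : ℕ → ℝ => ω 0)
      (disorder ν) (disorder ν) := by
    intro i
    refine ⟨(measurable_pi_apply i).aemeasurable, (measurable_pi_apply 0).aemeasurable, ?_⟩
    rw [(hmp i).map_eq, (hmp 0).map_eq]
  have hY : HasLaw (id : ℝ → ℝ) (gaussianReal 0 1) (gaussianReal 0 1) :=
    ⟨aemeasurable_id, Measure.map_id⟩
  have h0 : (disorder ν)[fun ω : ℕ → ℝ => ω 0] = 0 := by
    rw [int_coord ν (f := fun u => u) measurable_id 0, hmean]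
  have h1 : (disorder ν)[(fun ω : ℕ → ℝ => ω 0) ^ 2] = 1 := by
    have := int_coord ν (f := fun u => u ^ 2) (by fun_prop) 0
    simp only [Pi.pow_apply]
    rw [this, hvar]
  have hclt := tendstoInDistribution_inv_sqrt_mul_sum (P := disorder ν) (P' := gaussianReal 0 1)
    hY h0 h1 hindep hident
  have h2 := hclt.tendsto
  have e1 : (fun n : ℕ => (⟨(disorder ν).map (fun ω => (Real.sqrt n)⁻¹ * ∑ k ∈ Finset.range n,
      ω k), Measure.isProbabilityMeasure_map (hclt.forall_aemeasurable n)⟩ :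
      ProbabilityMeasure ℝ)) = pmL ν := by
    funext L
    apply Subtype.ext
    unfold pmL
    simp only
    rw [muL_eq]
  have e2 : (⟨(gaussianReal 0 1).map id, Measure.isProbabilityMeasure_map
      hclt.aemeasurable_limit⟩ : ProbabilityMeasure ℝ) = pmG := by
    apply Subtype.ext
    unfold pmG
    simp only
    rw [Measure.map_id]
  rw [← e1, ← e2]
  exact h2

end Pool.Agent.R973.Cp
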