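import Pool.Agent.R973.Cp.Law

/-!
# The value functional at weak coupling
-/

set_option autoImplicit false

open MeasureTheory ProbabilityTheory Filter Topology
open scoped ENNReal NNReal BoundedContinuousFunction

namespace Pool.Agent.R973.Cp

open Cop764 (disorder)

variable {α cst : ℝ}

lemma W_super (M M' : ℕ) : ∀ x : ℕ → ℝ,
    W α cst M x + W α cst M' (sh M x) ≤ W α cst (M + M') x := by
  induction M using Nat.strong_induction_on with
  | _ M ih =>
    intro x
    rcases Nat.eq_zero_or_pos M with h | h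
    · subst h
      rw [W_zero, zero_add, zero_add]
      rfl
    · obtain ⟨j, hj1, hj2, hj⟩ := W_cases (α := α) (cst := cst) h x
      have h1 := W_ge (α := α) (cst := cst) hj1 (by omega : j ≤ M + M') x
      have h2 := ih (M - j) (by omega) (sh j x)
      have h3 : sh (M - j) (sh j x) = sh M x := by
        funext n
        unfold sh
        congr 1
        omega
      rw [h3, show M - j + M' = M + M' - j by omega] at h2
      linarith

lemma int_W_mul (γ : Measure ℝ) [IsProbabilityMeasure γ] (hγ : Integrable (fun u => |u|) γ)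
    (R m : ℕ) : m * ∫ x, W α cst R x ∂(disorder γ) ≤ ∫ x, W α cst (m * R) x ∂(disorder γ) := by
  induction m with
  | zero => simp [W_zero]
  | succ m ih =>
    have h1 : ∫ x, (W α cst (m * R) x + W α cst R (sh (m * R) x)) ∂(disorder γ)
        ≤ ∫ x, W α cst ((m + 1) * R) x ∂(disorder γ) := by
      have h2 : Integrable (fun x => W α cst R (sh (m * R) x)) (disorder γ) :=
        (Cop764.M_stat.J_stat γ (m * R)).integrable_comp_of_integrable (integrable_W γ hγ R)
      apply integral_mono ((integrable_W γ hγ (m * R)).add h2) (integrable_W γ hγ _)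
      intro x
      have := W_super (α := α) (cst := cst) (m * R) R x
      rw [show (m + 1) * R = m * R + R by ring]
      exact this
    have h2 : Integrable (fun x => W α cst R (sh (m * R) x)) (disorder γ) :=
      (Cop764.M_stat.J_stat γ (m * R)).integrable_comp_of_integrable (integrable_W γ hγ R)
    rw [integral_add (integrable_W γ hγ (m * R)) h2, int_shift γ (measurable_W R)] at h1
    push_cast
    linarith

/-- The affinely transformed functional. -/
noncomputable def Ph (α cst θ : ℝ) (R : ℕ) (z : ℕ → ℝ) : ℝ :=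
  W α cst R (fun b => -2 * z b + -2 * θ)

lemma Ph_gauss (θ : ℝ) (R : ℕ) : ∫ z, Ph α cst θ R z ∂(disorder (gaussianReal 0 1))
    = ∫ x, W α cst R x ∂(disorder (gaussianReal (-2 * θ) 4)) := by
  have hmap : (gaussianReal 0 1).map (fun z => -2 * z + -2 * θ) = gaussianReal (-2 * θ) 4 := by
    have h1 : (fun z : ℝ => -2 * z + -2 * θ) = (fun y => y + -2 * θ) ∘ (fun z => -2 * z) := rfl
    rw [h1, ← Measure.map_map (by fun_prop) (by fun_prop), gaussianReal_map_const_mul,
      gaussianReal_map_add_const]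
    congr 1
    · ring
    · rw [mul_one]
      ext
      push_cast
      norm_num
  have h2 : (disorder (gaussianReal 0 1)).map (fun z b => -2 * z b + -2 * θ)
      = disorder (gaussianReal (-2 * θ) 4) := by
    unfold disorder
    rw [Measure.infinitePi_map_pi (f := fun (_ : ℕ) (z : ℝ) => -2 * z + -2 * θ)
      (μ := fun _ : ℕ => gaussianReal 0 1) (fun _ => by fun_prop)]
    simp only [hmap]
  have hm : Measurable (fun (z : ℕ → ℝ) (b : ℕ) => -2 * z b + -2 * θ) := by fun_prop
  rw [← h2, integral_map hm.aemeasurable (measurable_W R).aestronglyMeasurable]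
  rfl

/-- The finite-dimensional version. -/
noncomputable def Fd (α cst θ : ℝ) (R : ℕ) (v : Fin R → ℝ) : ℝ :=
  W α cst R (fun b => if h : b < R then -2 * v ⟨b, h⟩ + -2 * θ else 0)

lemma Fd_continuous (θ : ℝ) (R : ℕ) : Continuous (Fd α cst θ R) := by
  have hlip : ∀ v v' : Fin R → ℝ, |Fd α cst θ R v - Fd α cst θ R v'| ≤ 2 * ∑ i, |v i - v' i| := by
    intro v v'
    unfold Fd
    refine (W_lip R _ _).trans (le_of_eq ?_)
    rw [Finset.sum_range, Finset.mul_sum]
    apply Finset.sum_congr rfl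
    intro i _
    rw [dif_pos i.2, dif_pos i.2]
    have : -2 * v ⟨i.val, i.2⟩ + -2 * θ - (-2 * v' ⟨i.val, i.2⟩ + -2 * θ)
        = -2 * (v i - v' i) := by ring
    rw [this, abs_mul]
    norm_num
  rw [continuous_iff_continuousAt]
  intro v
  rw [ContinuousAt, tendsto_iff_norm_sub_tendsto_zero]
  have h1 : Tendsto (fun v' : Fin R → ℝ => 2 * ∑ i, |v' i - v i|) (𝓝 v) (𝓝 0) := by
    have h2 : Continuous (fun v' : Fin R → ℝ => 2 * ∑ i, |v' i - v i|) := by fun_prop
    have h3 := h2.tendsto v
    simpa using h3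
  refine squeeze_zero (fun _ => norm_nonneg _) (fun v' => ?_) h1
  rw [Real.norm_eq_abs]
  exact hlip v' v

lemma Fd_bound {θ : ℝ} (hθ : 0 ≤ θ) (R : ℕ) (v : Fin R → ℝ) :
    |Fd α cst θ R v| ≤ (|W α cst R 0| + 2 * θ * R) + 2 * ∑ i, |v i| := by
  unfold Fd
  refine (W_abs_le R _).trans ?_
  rw [Finset.sum_range]
  have h1 : ∀ i : Fin R, |(if h : i.val < R then -2 * v ⟨i.val, h⟩ + -2 * θ else 0)|
      ≤ 2 * |v i| + 2 * θ := by
    intro i
    rw [dif_pos i.2]
    calc |-2 * v ⟨i.val, i.2⟩ + -2 * θ| ≤ |-2 * v ⟨i.val, i.2⟩| + |-2 * θ| := abs_add_le _ _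
      _ = 2 * |v i| + 2 * θ := by
          rw [abs_mul, abs_mul, abs_of_nonneg hθ]
          norm_num
  have h2 := Finset.sum_le_sum fun (i : Fin R) (_ : i ∈ Finset.univ) => h1 i
  rw [Finset.sum_add_distrib, ← Finset.mul_sum] at h2
  simp only [Finset.sum_const, Finset.card_univ, Fintype.card_fin, nsmul_eq_mul] at h2
  linarith

lemma Ph_eq_Fd (γ : Measure ℝ) [IsProbabilityMeasure γ] (θ : ℝ) (R : ℕ) :
    ∫ z, Ph α cst θ R z ∂(disorder γ) = ∫ v, Fd α cst θ R v ∂(Measure.pi fun _ : Fin R => γ) := by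
  have h1 : (disorder γ).map (fun z (i : Fin R) => z i.val) = Measure.pi (fun _ : Fin R => γ) := by
    unfold disorder
    rw [Measure.map_infinitePi_infinitePi_of_inj (Ω := fun _ => ℝ) (P := fun _ : ℕ => γ)
      Fin.val_injective, Measure.infinitePi_eq_pi]
  have hm : Measurable (fun (z : ℕ → ℝ) (i : Fin R) => z i.val) := by fun_prop
  rw [← h1, integral_map hm.aemeasurable (Fd_continuous θ R).aestronglyMeasurable]
  apply integral_congr_ae
  filter_upwards with z
  unfold Ph Fd
  apply W_congr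
  intro l hl
  rw [dif_pos hl]

lemma Ph_tendsto (ν : Measure ℝ) [IsProbabilityMeasure ν]
    (hint2 : Integrable (fun x => x ^ 2) ν) (hmean : ∫ x, x ∂ν = 0)
    (hvar : ∫ x, x ^ 2 ∂ν = 1) {θ : ℝ} (hθ : 0 ≤ θ) (R : ℕ) :
    Tendsto (fun L : ℕ => ∫ z, Ph α cst θ R z ∂(disorder (muL ν L))) atTop
      (𝓝 (∫ x, W α cst R x ∂(disorder (gaussianReal (-2 * θ) 4)))) := by
  have h1 : Tendsto (fun n => ∫ v, Fd α cst θ R v ∂(Measure.pi fun _ : Fin R =>
      (pmL ν n : Measure ℝ))) atTop
      (𝓝 (∫ v, Fd α cst θ R v ∂(Measure.pi fun _ : Fin R => (pmG : Measure ℝ)))) := by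
    refine pi_tendsto (pmL ν) pmG (muL_tendsto ν hint2 hmean hvar)
      (fun n => (muL_moment ν hint2 hmean hvar n).1) (fun n => (muL_moment ν hint2 hmean hvar n).2)
      ?_ ?_ (Fd α cst θ R) (Fd_continuous θ R) (|W α cst R 0| + 2 * θ * R) (by positivity)
      (Fd_bound hθ R)
    · have h3 := (memLp_id_gaussianReal (μ := 0) (v := 1) 2).integrable_sq
      exact h3
    · have h2 := variance_fun_id_gaussianReal (μ := 0) (v := 1)
      rw [variance_eq_integral measurable_id'.aemeasurable] at h2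
      have h3 : ∫ z, z ^ 2 ∂(gaussianReal 0 1) = 1 := by simpa using h2
      exact h3.le
  have h2 : ∫ v, Fd α cst θ R v ∂(Measure.pi fun _ : Fin R => (pmG : Measure ℝ))
      = ∫ x, W α cst R x ∂(disorder (gaussianReal (-2 * θ) 4)) := by
    rw [← Ph_gauss θ R, Ph_eq_Fd]
    rfl
  rw [h2] at h1
  refine h1.congr fun n => ?_
  rw [Ph_eq_Fd]
  rfl

/-- The law of one block of weights. -/
noncomputable def muX (ν : Measure ℝ) [IsProbabilityMeasure ν] (L : ℕ) (a b : ℝ) : Measure ℝ :=
  (muL ν L).map (fun z => a * z + b)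

instance muX_prob (ν : Measure ℝ) [IsProbabilityMeasure ν] (L : ℕ) (a b : ℝ) :
    IsProbabilityMeasure (muX ν L a b) := by
  unfold muX
  exact Measure.isProbabilityMeasure_map (by fun_prop)

lemma map_muX (ν : Measure ℝ) [IsProbabilityMeasure ν] (L : ℕ) (a b : ℝ) :
    (disorder (muL ν L)).map (fun z n => a * z n + b) = disorder (muX ν L a b) := by
  unfold disorder
  rw [Measure.infinitePi_map_pi (f := fun (_ : ℕ) (z : ℝ) => a * z + b)
      (μ := fun _ : ℕ => muL ν L) (fun _ => by fun_prop)]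
  rfl

lemma integrable_abs_muL (ν : Measure ℝ) [IsProbabilityMeasure ν]
    (hint2 : Integrable (fun x => x ^ 2) ν) (hmean : ∫ x, x ∂ν = 0)
    (hvar : ∫ x, x ^ 2 ∂ν = 1) (L : ℕ) :
    Integrable (fun z => |z|) (muL ν L) ∧ ∫ z, |z| ∂(muL ν L) ≤ 1 := by
  obtain ⟨h1, h2⟩ := muL_moment ν hint2 hmean hvar L
  have h3 : Integrable (fun z : ℝ => (1 + z ^ 2) / 2) (muL ν L) :=
    ((integrable_const _).add h1).div_const 2
  have hle : ∀ z : ℝ, |z| ≤ (1 + z ^ 2) / 2 := by
    intro z
    rw [← sq_abs z]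
    nlinarith [sq_nonneg (|z| - 1)]
  have h4 : Integrable (fun z : ℝ => |z|) (muL ν L) := by
    apply h3.mono (by fun_prop)
    filter_upwards with z
    rw [Real.norm_eq_abs, Real.norm_eq_abs, abs_abs]
    exact (hle z).trans (le_abs_self _)
  refine ⟨h4, ?_⟩
  calc ∫ z, |z| ∂(muL ν L) ≤ ∫ z, (1 + z ^ 2) / 2 ∂(muL ν L) := integral_mono h4 h3 hle
    _ = (1 + ∫ z, z ^ 2 ∂(muL ν L)) / 2 := by
        rw [integral_div, integral_add (integrable_const _) h1]
        simp
    _ ≤ 1 := by linarith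

lemma integrable_abs_muX (ν : Measure ℝ) [IsProbabilityMeasure ν]
    (hint2 : Integrable (fun x => x ^ 2) ν) (hmean : ∫ x, x ∂ν = 0)
    (hvar : ∫ x, x ^ 2 ∂ν = 1) (L : ℕ) (a b : ℝ) :
    Integrable (fun u => |u|) (muX ν L a b) := by
  unfold muX
  rw [integrable_map_measure (by fun_prop) (by fun_prop)]
  have h1 := (integrable_abs_muL ν hint2 hmean hvar L).1
  have h2 : Integrable (fun z : ℝ => |a| * |z| + |b|) (muL ν L) :=
    (h1.const_mul _).add (integrable_const _)
  apply h2.mono (by fun_prop)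
  filter_upwards with z
  simp only [Function.comp_apply]
  rw [Real.norm_eq_abs, Real.norm_eq_abs, abs_abs]
  refine le_trans ?_ (le_abs_self _)
  calc |a * z + b| ≤ |a * z| + |b| := abs_add_le _ _
    _ = _ := by rw [abs_mul]

/-- Comparison of the value functional at weak coupling with its limit. -/
lemma int_W_ge (ν : Measure ℝ) [IsProbabilityMeasure ν]
    (hint2 : Integrable (fun x => x ^ 2) ν) (hmean : ∫ x, x ∂ν = 0)
    (hvar : ∫ x, x ^ 2 ∂ν = 1) (L : ℕ) (a b θ : ℝ) (R : ℕ) :
    ∫ z, Ph α cst θ R z ∂(disorder (muL ν L)) - R * (|a + 2| + |b + 2 * θ|)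
      ≤ ∫ x, W α cst R x ∂(disorder (muX ν L a b)) := by
  obtain ⟨hi, hb⟩ := integrable_abs_muL ν hint2 hmean hvar L
  have hm : Measurable (fun (z : ℕ → ℝ) (n : ℕ) => a * z n + b) := by fun_prop
  rw [← map_muX, integral_map hm.aemeasurable (measurable_W R).aestronglyMeasurable]
  have hi1 : ∀ l : ℕ, Integrable (fun z : ℕ → ℝ => |z l|) (disorder (muL ν L)) := fun l =>
    (integrable_coord (muL ν L) (f := fun u => |u|) (by fun_prop) l).2 hi
  have hPhm : Measurable (Ph α cst θ R) := by
    unfold Ph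
    exact (measurable_W R).comp (by fun_prop)
  have hWm : Measurable (fun z : ℕ → ℝ => W α cst R (fun n => a * z n + b)) :=
    (measurable_W R).comp (by fun_prop)
  have hPhi : Integrable (Ph α cst θ R) (disorder (muL ν L)) := by
    have h1 : Integrable (fun z : ℕ → ℝ => |W α cst R 0| + ∑ l ∈ Finset.range R,
        (2 * |z l| + 2 * |θ|)) (disorder (muL ν L)) :=
      (integrable_const _).add (integrable_finsetSum _ fun l _ =>
        ((hi1 l).const_mul 2).add (integrable_const _))
    apply h1.mono hPhm.aestronglyMeasurable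
    filter_upwards with z
    rw [Real.norm_eq_abs, Real.norm_eq_abs]
    refine le_trans ?_ (le_abs_self _)
    refine (W_abs_le R _).trans ?_
    apply add_le_add_right
    apply Finset.sum_le_sum
    intro l _
    calc |-2 * z l + -2 * θ| ≤ |-2 * z l| + |-2 * θ| := abs_add_le _ _
      _ = 2 * |z l| + 2 * |θ| := by
          rw [abs_mul, abs_mul]
          norm_num
  have hWi : Integrable (fun z : ℕ → ℝ => W α cst R (fun n => a * z n + b))
      (disorder (muL ν L)) := by
    have h1 : Integrable (fun z : ℕ → ℝ => |W α cst R 0| + ∑ l ∈ Finset.range R,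
        (|a| * |z l| + |b|)) (disorder (muL ν L)) :=
      (integrable_const _).add (integrable_finsetSum _ fun l _ =>
        ((hi1 l).const_mul |a|).add (integrable_const _))
    apply h1.mono hWm.aestronglyMeasurable
    filter_upwards with z
    rw [Real.norm_eq_abs, Real.norm_eq_abs]
    refine le_trans ?_ (le_abs_self _)
    refine (W_abs_le R _).trans ?_
    apply add_le_add_right
    apply Finset.sum_le_sum
    intro l _
    calc |a * z l + b| ≤ |a * z l| + |b| := abs_add_le _ _
      _ = |a| * |z l| + |b| := by rw [abs_mul]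
  have hDi : Integrable (fun z : ℕ → ℝ => ∑ l ∈ Finset.range R, (|a + 2| * |z l| + |b + 2 * θ|))
      (disorder (muL ν L)) :=
    integrable_finsetSum _ fun l _ => ((hi1 l).const_mul _).add (integrable_const _)
  have h2 : ∫ z, (Ph α cst θ R z - ∑ l ∈ Finset.range R, (|a + 2| * |z l| + |b + 2 * θ|))
      ∂(disorder (muL ν L)) ≤ ∫ z, W α cst R (fun n => a * z n + b) ∂(disorder (muL ν L)) := by
    have hsub : Integrable (fun z : ℕ → ℝ => Ph α cst θ R z
        - ∑ l ∈ Finset.range R, (|a + 2| * |z l| + |b + 2 * θ|)) (disorder (muL ν L)) :=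
      hPhi.sub hDi
    apply integral_mono hsub hWi
    intro z
    have h3 := W_le_add (α := α) (cst := cst) R (fun n => -2 * z n + -2 * θ)
      (fun n => a * z n + b)
    have h4 : ∑ l ∈ Finset.range R, |(-2 * z l + -2 * θ) - (a * z l + b)|
        ≤ ∑ l ∈ Finset.range R, (|a + 2| * |z l| + |b + 2 * θ|) := by
      apply Finset.sum_le_sum
      intro l _
      have e1 : (-2 * z l + -2 * θ) - (a * z l + b) = -((a + 2) * z l + (b + 2 * θ)) := by ring
      rw [e1, abs_neg]
      calc |(a + 2) * z l + (b + 2 * θ)| ≤ |(a + 2) * z l| + |b + 2 * θ| := abs_add_le _ _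
        _ = _ := by rw [abs_mul]
    unfold Ph
    simp only
    linarith
  rw [integral_sub hPhi hDi] at h2
  have h5 : ∫ z : ℕ → ℝ, ∑ l ∈ Finset.range R, (|a + 2| * |z l| + |b + 2 * θ|)
      ∂(disorder (muL ν L)) ≤ R * (|a + 2| + |b + 2 * θ|) := by
    have hterm : ∀ l ∈ Finset.range R, Integrable (fun z : ℕ → ℝ => |a + 2| * |z l|
        + |b + 2 * θ|) (disorder (muL ν L)) := fun l _ =>
      ((hi1 l).const_mul _).add (integrable_const _)
    rw [integral_finsetSum _ hterm]
    have h6 : ∀ l ∈ Finset.range R, ∫ z : ℕ → ℝ, (|a + 2| * |z l| + |b + 2 * θ|)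
        ∂(disorder (muL ν L)) ≤ |a + 2| + |b + 2 * θ| := by
      intro l _
      rw [integral_add ((hi1 l).const_mul _) (integrable_const _), integral_const_mul,
        int_coord (muL ν L) (f := fun u => |u|) (by fun_prop) l]
      have := mul_le_mul_of_nonneg_left hb (abs_nonneg (a + 2))
      simp only [integral_const, probReal_univ, one_smul]
      linarith
    calc _ ≤ ∑ l ∈ Finset.range R, (|a + 2| + |b + 2 * θ|) := Finset.sum_le_sum h6
      _ = _ := by
        rw [Finset.sum_const, Finset.card_range, nsmul_eq_mul]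
  linarith

end Pool.Agent.R973.Cp
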