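import Pool.Agent.R973.Cp.Ren
import Pool.Agent.R973.Cp.Coarse

/-!
# Lower bound for the constrained partition function with block-constant weights
-/

set_option autoImplicit false

open MeasureTheory ProbabilityTheory Filter Topology

namespace Pool.Agent.R973.Cp

open Cop764 (G G_eq phi S KHyp)

variable {K : ℕ → ℝ} {α c0 C1 : ℝ} {n0 : ℕ}

/-- Block-constant weights with block sums `x`. -/
noncomputable def wb (L : ℕ) (x : ℕ → ℝ) (n : ℕ) : ℝ := x ((n - 1) / L) / L

lemma S_add (w : ℕ → ℝ) {a b c : ℕ} (hab : a ≤ b) (hbc : b ≤ c) : S w a c = S w a b + S w b c := by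
  unfold S
  rw [← Finset.sum_union]
  · congr 1
    ext n
    simp only [Finset.mem_union, Finset.mem_Ioc]
    omega
  · rw [Finset.disjoint_left]
    intro n h1 h2
    rw [Finset.mem_Ioc] at h1 h2
    omega

lemma S_in_block {L : ℕ} (hL : 1 ≤ L) (x : ℕ → ℝ) {i a b : ℕ} (ha : i * L ≤ a) (hab : a ≤ b)
    (hb : b ≤ (i + 1) * L) : S (wb L x) a b = x i * ((b : ℝ) - a) / L := by
  unfold S
  have h1 : ∀ n ∈ Finset.Ioc a b, wb L x n = x i / L := by
    intro n hn
    rw [Finset.mem_Ioc] at hn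
    unfold wb
    congr 2
    apply Nat.div_eq_of_lt_le
    · omega
    · have : (i + 1) * L = i * L + L := by ring
      omega
  rw [Finset.sum_congr rfl h1, Finset.sum_const, Nat.card_Ioc, nsmul_eq_mul, Nat.cast_sub hab]
  ring

lemma S_blocks {L : ℕ} (hL : 1 ≤ L) (x : ℕ → ℝ) {i j : ℕ} (hij : i ≤ j) :
    S (wb L x) (i * L) (j * L) = Sm i j x := by
  induction j, hij using Nat.le_induction with
  | base => simp [S, Sm]
  | succ n hn ih =>
    have hL' : (0 : ℝ) < L := by exact_mod_cast hL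
    rw [S_add (wb L x) (Nat.mul_le_mul_right L hn) (Nat.mul_le_mul_right L (Nat.le_succ n)), ih,
      S_in_block hL x le_rfl (Nat.mul_le_mul_right L (Nat.le_succ n)) le_rfl]
    unfold Sm
    rw [Finset.sum_Ico_succ_top hn]
    congr 1
    push_cast
    field_simp
    ring

lemma S_general {L : ℕ} (hL : 1 ≤ L) (x : ℕ → ℝ) {i j y t : ℕ} (hij : i < j)
    (hy1 : i * L ≤ y) (hy2 : y ≤ (i + 1) * L) (ht1 : j * L ≤ t) (ht2 : t ≤ (j + 1) * L) :
    S (wb L x) y t = x i * (((i + 1) * L : ℝ) - y) / L + Sm (i + 1) j x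
      + x j * ((t : ℝ) - j * L) / L := by
  have h1 : (i + 1) * L ≤ j * L := Nat.mul_le_mul_right L hij
  rw [S_add (wb L x) hy2 (h1.trans ht1), S_add (wb L x) h1 ht1, S_blocks hL x hij,
    S_in_block hL x hy1 hy2 le_rfl, S_in_block hL x le_rfl ht1 ht2]
  push_cast
  ring

lemma phi_ge (w : ℕ → ℝ) (i j : ℕ) : Real.exp (-|S w i j|) ≤ phi w i j := by
  unfold phi
  rcases le_total 0 (S w i j) with h | h
  · have h1 : Real.exp (-|S w i j|) ≤ 1 := Real.exp_le_one_iff.2 (by linarith [abs_nonneg (S w i j)])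
    have h2 := Real.one_le_exp h
    linarith
  · rw [abs_of_nonpos h, neg_neg]
    have : Real.exp (S w i j) ≤ 1 := Real.exp_le_one_iff.2 h
    linarith

lemma phi_ge_half (w : ℕ → ℝ) (i j : ℕ) : Real.exp (max 0 (S w i j)) / 2 ≤ phi w i j := by
  unfold phi
  rcases le_total 0 (S w i j) with h | h
  · rw [max_eq_right h]
    linarith
  · rw [max_eq_left h, Real.exp_zero]
    have := Real.exp_pos (S w i j)
    linarith

/-- Inside a block, the partition function dominates the renewal mass function. -/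
lemma G_in_block (hK : ∀ n, 0 ≤ K n) {L : ℕ} (hL : 1 ≤ L) (x : ℕ → ℝ) (i y : ℕ)
    (hy : y ≤ (i + 1) * L) (d : ℕ) : ∀ t, i * L ≤ t → t ≤ y → y - t = d →
    Real.exp (-(|x i| * ((y : ℝ) - t) / L)) * Um K (y - t) ≤ G K (wb L x) t y := by
  have hL' : (0 : ℝ) < L := by exact_mod_cast hL
  have hG0 := (Cop764.M_G.J_G) K (wb L x) hK
  have hU0 : ∀ n, 0 ≤ Um K n := fun n => ((Cop764.M_G.J_G) K (fun _ => 0) hK).2.1 0 n
  induction d using Nat.strong_induction_on with
  | _ d ih =>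
    intro t ht hty hd
    rcases Nat.eq_or_lt_of_le hty with h | h
    · subst h
      rw [hG0.1]
      simp [Um_zero]
    · rw [G_eq, if_neg (by omega), Um_eq K (by omega : 1 ≤ y - t), Finset.mul_sum]
      have h1 : ∑ k ∈ Finset.Icc 1 (y - t), Real.exp (-(|x i| * ((y : ℝ) - t) / L)) *
          (K k * Um K (y - t - k)) = ∑ k ∈ Finset.Ioc t y,
          Real.exp (-(|x i| * ((y : ℝ) - t) / L)) * (K (k - t) * Um K (y - k)) := by
        refine Finset.sum_nbij' (fun k => k + t) (fun k => k - t) ?_ ?_ ?_ ?_ ?_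
        · intro k hk
          rw [Finset.mem_Icc] at hk
          rw [Finset.mem_Ioc]
          omega
        · intro k hk
          rw [Finset.mem_Ioc] at hk
          rw [Finset.mem_Icc]
          omega
        · intro k hk
          omega
        · intro k hk
          rw [Finset.mem_Ioc] at hk
          omega
        · intro k hk
          rw [Finset.mem_Icc] at hk
          rw [Nat.add_sub_cancel, show y - (k + t) = y - t - k by omega]
      rw [h1]
      apply Finset.sum_le_sum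
      intro k hk
      rw [Finset.mem_Ioc] at hk
      have h2 := ih (y - k) (by omega) k (by omega) hk.2 rfl
      have h3 : Real.exp (-(|x i| * ((k : ℝ) - t) / L)) ≤ phi (wb L x) t k := by
        refine le_trans (le_of_eq ?_) (phi_ge (wb L x) t k)
        rw [S_in_block hL x ht hk.1.le (hk.2.trans hy), abs_div, abs_mul, abs_of_pos hL',
          abs_of_nonneg (show (0 : ℝ) ≤ (k : ℝ) - t by
            have : (t : ℝ) ≤ k := by exact_mod_cast hk.1.le
            linarith)]
      have h4 : Real.exp (-(|x i| * ((y : ℝ) - t) / L))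
          = Real.exp (-(|x i| * ((k : ℝ) - t) / L)) * Real.exp (-(|x i| * ((y : ℝ) - k) / L)) := by
        rw [← Real.exp_add]
        congr 1
        ring
      rw [h4]
      have hKk := hK (k - t)
      calc Real.exp (-(|x i| * ((k : ℝ) - t) / L)) * Real.exp (-(|x i| * ((y : ℝ) - k) / L)) *
            (K (k - t) * Um K (y - k))
          = K (k - t) * Real.exp (-(|x i| * ((k : ℝ) - t) / L)) *
            (Real.exp (-(|x i| * ((y : ℝ) - k) / L)) * Um K (y - k)) := by ring
        _ ≤ K (k - t) * phi (wb L x) t k * G K (wb L x) k y := by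
            apply mul_le_mul (mul_le_mul_of_nonneg_left h3 hKk) h2
            · exact mul_nonneg (Real.exp_pos _).le (hU0 _)
            · exact mul_nonneg hKk (by unfold phi; positivity)

/-- Decomposition at the jump over `e`. -/
lemma G_jump (hK : ∀ n, 0 ≤ K n) (w : ℕ → ℝ) (e N : ℕ) (T : Finset ℕ)
    (hT : ∀ t' ∈ T, e < t' ∧ t' ≤ N) (d : ℕ) : ∀ t, t ≤ e → e - t = d →
    ∑ y ∈ Finset.Icc t e, G K w t y * ∑ t' ∈ T, K (t' - y) * phi w y t' * G K w t' N
      ≤ G K w t N := by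
  set h : ℕ → ℝ := fun y => ∑ t' ∈ T, K (t' - y) * phi w y t' * G K w t' N with hh
  have hG0 := (Cop764.M_G.J_G) K w hK
  have hphi : ∀ i j, 0 ≤ phi w i j := fun i j => by unfold phi; positivity
  have hh0 : ∀ y, 0 ≤ h y := fun y => Finset.sum_nonneg fun t' _ =>
    mul_nonneg (mul_nonneg (hK _) (hphi _ _)) (hG0.2.1 _ _)
  induction d using Nat.strong_induction_on with
  | _ d ih =>
    intro t hte hd
    rcases T.eq_empty_or_nonempty with hTe | ⟨t1, ht1⟩
    · rw [Finset.sum_eq_zero fun y _ => by rw [hTe, Finset.sum_empty, mul_zero]]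
      exact hG0.2.1 _ _
    have htN : t < N := by have := hT t1 ht1; omega
    have heN : e < N := by have := hT t1 ht1; omega
    rw [G_eq K w t N, if_neg (by omega)]
    have hsub : Finset.Ioc t e ∪ T ⊆ Finset.Ioc t N := by
      intro k hk
      rw [Finset.mem_union, Finset.mem_Ioc] at hk
      rw [Finset.mem_Ioc]
      rcases hk with hk | hk
      · omega
      · have := hT k hk; omega
    have hdisj : Disjoint (Finset.Ioc t e) T := by
      rw [Finset.disjoint_left]
      intro k hk hkT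
      rw [Finset.mem_Ioc] at hk
      have := hT k hkT
      omega
    have h1 : ∑ k ∈ Finset.Ioc t e, K (k - t) * phi w t k * G K w k N + h t
        ≤ ∑ k ∈ Finset.Ioc t N, K (k - t) * phi w t k * G K w k N := by
      rw [hh, ← Finset.sum_union hdisj]
      exact Finset.sum_le_sum_of_subset_of_nonneg hsub fun k _ _ =>
        mul_nonneg (mul_nonneg (hK _) (hphi _ _)) (hG0.2.1 _ _)
    refine le_trans ?_ h1
    have h2 : ∑ y ∈ Finset.Icc t e, G K w t y * h y
        = h t + ∑ y ∈ Finset.Ioc t e, G K w t y * h y := by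
      rw [← Finset.sum_Ioc_add_eq_sum_Icc hte, hG0.1, one_mul, add_comm]
    have h3 : ∑ y ∈ Finset.Ioc t e, G K w t y * h y
        = ∑ k ∈ Finset.Ioc t e, K (k - t) * phi w t k * ∑ y ∈ Finset.Icc k e, G K w k y * h y := by
      have h4 : ∀ y ∈ Finset.Ioc t e, G K w t y * h y
          = ∑ k ∈ Finset.Ioc t y, K (k - t) * phi w t k * G K w k y * h y := by
        intro y hy
        rw [Finset.mem_Ioc] at hy
        rw [G_eq K w t y, if_neg (by omega), Finset.sum_mul]
      rw [Finset.sum_congr rfl h4]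
      have h5 : ∀ k ∈ Finset.Ioc t e, K (k - t) * phi w t k * ∑ y ∈ Finset.Icc k e, G K w k y * h y
          = ∑ y ∈ Finset.Icc k e, K (k - t) * phi w t k * G K w k y * h y := by
        intro k _
        rw [Finset.mul_sum]
        apply Finset.sum_congr rfl
        intro y _
        ring
      rw [Finset.sum_congr rfl h5]
      apply Finset.sum_comm'
      intro y k
      simp only [Finset.mem_Ioc, Finset.mem_Icc]
      omega
    rw [h2, h3, add_comm]
    apply add_le_add_left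
    apply Finset.sum_le_sum
    intro k hk
    rw [Finset.mem_Ioc] at hk
    exact mul_le_mul_of_nonneg_left (ih (e - k) (by omega) k hk.2 rfl)
      (mul_nonneg (hK _) (hphi _ _))

/-- The constant in the jump cost. -/
noncomputable def cJ (α c0 C1 : ℝ) : ℝ :=
  Real.log ((1 + C1 / (α * (1 - α)))⁻¹ * c0 * (8 : ℝ) ^ (-(1 + α)))

lemma cJ_pos (h : KH K α c0 C1 n0) :
    0 < (1 + C1 / (α * (1 - α)))⁻¹ * c0 * (8 : ℝ) ^ (-(1 + α)) := by
  have hα0 := h.base.alpha_pos
  have hα1 := h.lt_one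
  have hc0 := h.base.c0_pos
  have hC : 0 < 1 + C1 / (α * (1 - α)) := by
    have : 0 ≤ C1 / (α * (1 - α)) := div_nonneg h.C1_pos.le (mul_nonneg hα0.le (by linarith))
    linarith
  positivity

/-- Lower bound for the probability of a jump over `j` blocks. -/
lemma jump_prob (h : KH K α c0 C1 n0) {ℓ : ℕ} (hℓ : n0 ≤ ℓ) {i j t : ℕ} (hij : i < j)
    (ht1 : i * (4 * ℓ) ≤ t) (ht2 : t ≤ i * (4 * ℓ) + 2 * ℓ) :
    Real.exp (jc α (cJ α c0 C1) (j - i)) ≤ ∑ y ∈ Finset.Icc t (t + ℓ), Um K (y - t) *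
      ∑ t' ∈ Finset.Icc (j * (4 * ℓ)) (j * (4 * ℓ) + 2 * ℓ), K (t' - y) / 2 := by
  have hα0 := h.base.alpha_pos
  have hα1 := h.lt_one
  have hc0 := h.base.c0_pos
  have hn0 := h.base.n0_pos
  have hℓ1 : 1 ≤ ℓ := by omega
  have hℓ' : (0 : ℝ) < ℓ := by exact_mod_cast hℓ1
  have hji : (0 : ℝ) < ((j - i : ℕ) : ℝ) := by exact_mod_cast (by omega : 0 < j - i)
  have hji1 : (1 : ℝ) ≤ ((j - i : ℕ) : ℝ) := by exact_mod_cast (by omega : 1 ≤ j - i)
  set D : ℝ := 8 * ((j - i : ℕ) : ℝ) * ℓ with hD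
  have hD0 : 0 < D := by positivity
  -- one term
  have hKt : ∀ y ∈ Finset.Icc t (t + ℓ),
      ∀ t' ∈ Finset.Icc (j * (4 * ℓ)) (j * (4 * ℓ) + 2 * ℓ), c0 * D ^ (-(1 + α)) / 2
        ≤ K (t' - y) / 2 := by
    intro y hy t' ht'
    rw [Finset.mem_Icc] at hy ht'
    have hjj : (i + 1) * (4 * ℓ) ≤ j * (4 * ℓ) := Nat.mul_le_mul_right _ hij
    have hi1 : (i + 1) * (4 * ℓ) = i * (4 * ℓ) + 4 * ℓ := by ring
    have h1 : n0 ≤ t' - y := by omega
    have h2 := h.base.lower (t' - y) h1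
    have h3 : t' - y ≤ (j - i) * (4 * ℓ) + 2 * ℓ := by
      have : (j - i) * (4 * ℓ) = j * (4 * ℓ) - i * (4 * ℓ) := Nat.sub_mul _ _ _
      omega
    have h4 : ((t' - y : ℕ) : ℝ) ≤ D := by
      calc ((t' - y : ℕ) : ℝ) ≤ (((j - i) * (4 * ℓ) + 2 * ℓ : ℕ) : ℝ) := by exact_mod_cast h3
        _ = ((j - i : ℕ) : ℝ) * (4 * ℓ) + 2 * ℓ := by push_cast; ring
        _ ≤ D := by rw [hD]; nlinarith
    have h5 : (0 : ℝ) < ((t' - y : ℕ) : ℝ) := by exact_mod_cast (by omega : 0 < t' - y)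
    have h6 : D ^ (-(1 + α)) ≤ ((t' - y : ℕ) : ℝ) ^ (-(1 + α)) :=
      Real.rpow_le_rpow_of_nonpos h5 h4 (by linarith)
    have h7 := mul_le_mul_of_nonneg_left h6 hc0.le
    linarith
  have hinner : ∀ y ∈ Finset.Icc t (t + ℓ), ℓ * (c0 * D ^ (-(1 + α))) ≤
      ∑ t' ∈ Finset.Icc (j * (4 * ℓ)) (j * (4 * ℓ) + 2 * ℓ), K (t' - y) / 2 := by
    intro y hy
    calc ℓ * (c0 * D ^ (-(1 + α))) ≤ (2 * ℓ + 1) * (c0 * D ^ (-(1 + α)) / 2) := by
          have : 0 < c0 * D ^ (-(1 + α)) := by positivity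
          nlinarith
      _ = ∑ t' ∈ Finset.Icc (j * (4 * ℓ)) (j * (4 * ℓ) + 2 * ℓ), c0 * D ^ (-(1 + α)) / 2 := by
          rw [Finset.sum_const, Nat.card_Icc, nsmul_eq_mul]
          congr 1
          rw [show j * (4 * ℓ) + 2 * ℓ + 1 - j * (4 * ℓ) = 2 * ℓ + 1 by omega]
          push_cast
          ring
      _ ≤ _ := Finset.sum_le_sum (hKt y hy)
  have hA := sum_Um_ge h ℓ
  have hsumU : ∑ y ∈ Finset.Icc t (t + ℓ), Um K (y - t) = ∑ m ∈ Finset.range (ℓ + 1), Um K m := by
    refine Finset.sum_nbij' (fun y => y - t) (fun m => m + t) ?_ ?_ ?_ ?_ ?_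
    · intro y hy
      rw [Finset.mem_Icc] at hy
      rw [Finset.mem_range]
      omega
    · intro m hm
      rw [Finset.mem_range] at hm
      rw [Finset.mem_Icc]
      omega
    · intro y hy
      rw [Finset.mem_Icc] at hy
      omega
    · intro m _
      omega
    · intro y _
      rfl
  have h8 : (∑ m ∈ Finset.range (ℓ + 1), Um K m) * (ℓ * (c0 * D ^ (-(1 + α)))) ≤
      ∑ y ∈ Finset.Icc t (t + ℓ), Um K (y - t) *
      ∑ t' ∈ Finset.Icc (j * (4 * ℓ)) (j * (4 * ℓ) + 2 * ℓ), K (t' - y) / 2 := by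
    rw [← hsumU, Finset.sum_mul]
    exact Finset.sum_le_sum fun y hy =>
      mul_le_mul_of_nonneg_left (hinner y hy) (Um_nonneg h _)
  refine le_trans ?_ h8
  have hC : 0 < 1 + C1 / (α * (1 - α)) := by
    have : 0 ≤ C1 / (α * (1 - α)) := div_nonneg h.C1_pos.le (mul_nonneg hα0.le (by linarith))
    linarith
  have h9 : (ℓ : ℝ) ^ α ≤ ((ℓ + 1 : ℕ) : ℝ) ^ α :=
    Real.rpow_le_rpow hℓ'.le (by push_cast; linarith) hα0.le
  have h10 : (1 + C1 / (α * (1 - α)))⁻¹ * (ℓ : ℝ) ^ α ≤ ∑ m ∈ Finset.range (ℓ + 1), Um K m :=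
    (mul_le_mul_of_nonneg_left h9 (by positivity)).trans hA
  have h11 : Real.exp (jc α (cJ α c0 C1) (j - i)) =
      (1 + C1 / (α * (1 - α)))⁻¹ * (ℓ : ℝ) ^ α * (ℓ * (c0 * D ^ (-(1 + α)))) := by
    unfold jc cJ
    rw [sub_eq_add_neg, Real.exp_add, Real.exp_log (cJ_pos h)]
    have h12 : Real.exp (-((1 + α) * Real.log ((j - i : ℕ) : ℝ)))
        = ((j - i : ℕ) : ℝ) ^ (-(1 + α)) := by
      rw [Real.rpow_def_of_pos hji]
      congr 1
      ring
    rw [h12, hD, Real.mul_rpow (by positivity) hℓ'.le, Real.mul_rpow (by norm_num) hji.le]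
    have h13 : (ℓ : ℝ) ^ α * ℓ * (ℓ : ℝ) ^ (-(1 + α)) = 1 := by
      rw [← Real.rpow_add_one hℓ'.ne', ← Real.rpow_add hℓ']
      rw [show α + 1 + -(1 + α) = 0 by ring, Real.rpow_zero]
    linear_combination (-((1 + C1 / (α * (1 - α)))⁻¹ * c0 * 8 ^ (-(1 + α)) *
      ((j - i : ℕ) : ℝ) ^ (-(1 + α)))) * h13
  rw [h11]
  exact mul_le_mul_of_nonneg_right h10 (by positivity)

/-- **Lower bound for the constrained partition function in terms of the value functional.** -/
theorem G_lower (h : KH K α c0 C1 n0) {ℓ : ℕ} (hℓ : n0 ≤ ℓ) (x : ℕ → ℝ) (I : ℕ) (M : ℕ) :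
    ∀ i t, i + M = I → i * (4 * ℓ) ≤ t → t ≤ i * (4 * ℓ) + 2 * ℓ →
    Real.exp (|x i| * ((t : ℝ) - i * (4 * ℓ)) / (4 * ℓ) + W α (cJ α c0 C1) M (sh i x)
      - |x I|) * (c0 * (4 * ℓ : ℝ) ^ (-(1 + α)))
      ≤ G K (wb (4 * ℓ) x) t ((I + 1) * (4 * ℓ)) := by
  have hα0 := h.base.alpha_pos
  have hc0 := h.base.c0_pos
  have hn0 := h.base.n0_pos
  have hℓ1 : 1 ≤ ℓ := by omega
  have hℓ' : (0 : ℝ) < ℓ := by exact_mod_cast hℓ1
  have hL1 : 1 ≤ 4 * ℓ := by omega
  have hcast : ((4 * ℓ : ℕ) : ℝ) = 4 * (ℓ : ℝ) := by push_cast; ring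
  have hG0 := (Cop764.M_G.J_G) K (wb (4 * ℓ) x) h.base.nonneg
  set B0 : ℝ := c0 * (4 * ℓ : ℝ) ^ (-(1 + α)) with hB0
  have hB0pos : 0 < B0 := by positivity
  induction M using Nat.strong_induction_on with
  | _ M ih =>
    intro i t hiM ht1 ht2
    have hi1 : (i + 1) * (4 * ℓ) = i * (4 * ℓ) + 4 * ℓ := by ring
    rcases Nat.eq_zero_or_pos M with hM | hM
    · subst hM
      have hiI : i = I := by omega
      subst hiI
      rw [W_zero]
      have h1 : t < (i + 1) * (4 * ℓ) := by omega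
      refine le_trans ?_ (hG0.2.2.1 t ((i + 1) * (4 * ℓ)) h1)
      have h2 := h.base.lower ((i + 1) * (4 * ℓ) - t) (by omega)
      have h3 : (((i + 1) * (4 * ℓ) - t : ℕ) : ℝ) ≤ 4 * ℓ := by
        rw [← hcast]
        exact_mod_cast (by omega : (i + 1) * (4 * ℓ) - t ≤ 4 * ℓ)
      have h4 : (0 : ℝ) < (((i + 1) * (4 * ℓ) - t : ℕ) : ℝ) := by
        exact_mod_cast (by omega : 0 < (i + 1) * (4 * ℓ) - t)
      have h5 : B0 ≤ K ((i + 1) * (4 * ℓ) - t) := by
        refine le_trans ?_ h2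
        exact mul_le_mul_of_nonneg_left
          (Real.rpow_le_rpow_of_nonpos h4 h3 (by linarith)) hc0.le
      have h6 : Real.exp (|x i| * ((t : ℝ) - i * (4 * ℓ)) / (4 * ℓ) + 0 - |x i|)
          ≤ phi (wb (4 * ℓ) x) t ((i + 1) * (4 * ℓ)) := by
        refine le_trans (le_of_eq ?_) (phi_ge _ _ _)
        rw [S_in_block hL1 x ht1 h1.le le_rfl, abs_div, abs_mul, hcast,
          abs_of_pos (show (0 : ℝ) < 4 * ℓ by positivity)]
        have h7 : (0 : ℝ) ≤ (((i + 1) * (4 * ℓ) : ℕ) : ℝ) - t := by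
          have : (t : ℝ) ≤ (((i + 1) * (4 * ℓ) : ℕ) : ℝ) := by exact_mod_cast h1.le
          linarith
        rw [abs_of_nonneg h7]
        congr 1
        push_cast
        field_simp
        ring
      rw [mul_comm]
      exact mul_le_mul h5 h6 (Real.exp_pos _).le (h.base.nonneg _)
    · obtain ⟨j, hj1, hj2, hj⟩ := W_cases (α := α) (cst := cJ α c0 C1) hM (sh i x)
      have hsh0 : sh i x 0 = x i := by unfold sh; rw [zero_add]
      have hshsh : sh j (sh i x) = sh (i + j) x := by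
        funext n
        unfold sh
        congr 1
        omega
      have hSm : Sm 1 j (sh i x) = Sm (i + 1) (i + j) x := by
        unfold Sm sh
        rw [Finset.sum_Ico_eq_sum_range, Finset.sum_Ico_eq_sum_range]
        rw [show i + j - (i + 1) = j - 1 by omega]
        apply Finset.sum_congr rfl
        intro l _
        congr 1
        omega
      rw [hsh0, hshsh, hSm] at hj
      rw [hj]
      set Θ : ℝ := max 0 (Sm (i + 1) (i + j) x) + W α (cJ α c0 C1) (M - j) (sh (i + j) x) - |x I|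
        with hΘ
      have hIj : (i + j + 1) * (4 * ℓ) ≤ (I + 1) * (4 * ℓ) := Nat.mul_le_mul_right _ (by omega)
      have hij1 : (i + 1) * (4 * ℓ) ≤ (i + j) * (4 * ℓ) := Nat.mul_le_mul_right _ (by omega)
      have hijs : (i + j + 1) * (4 * ℓ) = (i + j) * (4 * ℓ) + 4 * ℓ := by ring
      have hGj := G_jump h.base.nonneg (wb (4 * ℓ) x) (t + ℓ) ((I + 1) * (4 * ℓ))
        (Finset.Icc ((i + j) * (4 * ℓ)) ((i + j) * (4 * ℓ) + 2 * ℓ)) (by
          intro t' ht'
          rw [Finset.mem_Icc] at ht'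
          omega) ℓ t (by omega) (by omega)
      refine le_trans ?_ hGj
      have hcost := jump_prob h hℓ (show i < i + j by omega) ht1 ht2
      rw [Nat.add_sub_cancel_left] at hcost
      have hterm : ∀ y ∈ Finset.Icc t (t + ℓ),
          (Um K (y - t) * ∑ t' ∈ Finset.Icc ((i + j) * (4 * ℓ)) ((i + j) * (4 * ℓ) + 2 * ℓ),
            K (t' - y) / 2) *
            (Real.exp (|x i| * ((t : ℝ) - i * (4 * ℓ)) / (4 * ℓ) - |x i| + Θ) * B0)
          ≤ G K (wb (4 * ℓ) x) t y *
            ∑ t' ∈ Finset.Icc ((i + j) * (4 * ℓ)) ((i + j) * (4 * ℓ) + 2 * ℓ),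
            K (t' - y) * phi (wb (4 * ℓ) x) y t' * G K (wb (4 * ℓ) x) t' ((I + 1) * (4 * ℓ)) := by
        intro y hy
        rw [Finset.mem_Icc] at hy
        have hyt : (t : ℝ) ≤ y := by exact_mod_cast hy.1
        have hyi : y ≤ (i + 1) * (4 * ℓ) := by omega
        have hyi' : (y : ℝ) ≤ ((i : ℝ) + 1) * (4 * ℓ) := by
          have : (y : ℝ) ≤ (((i + 1) * (4 * ℓ) : ℕ) : ℝ) := by exact_mod_cast hyi
          push_cast at this
          linarith
        have h1 := G_in_block (K := K) h.base.nonneg hL1 x i y hyi (y - t) t ht1 hy.1 rfl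
        rw [hcast] at h1
        have h2 : ∀ t' ∈ Finset.Icc ((i + j) * (4 * ℓ)) ((i + j) * (4 * ℓ) + 2 * ℓ),
            K (t' - y) / 2 * (Real.exp (-(|x i| * (((i : ℝ) + 1) * (4 * ℓ) - y) / (4 * ℓ)) + Θ)
              * B0)
            ≤ K (t' - y) * phi (wb (4 * ℓ) x) y t' *
              G K (wb (4 * ℓ) x) t' ((I + 1) * (4 * ℓ)) := by
          intro t' ht'
          rw [Finset.mem_Icc] at ht'
          have h3 := ih (M - j) (by omega) (i + j) t' (by omega) ht'.1 ht'.2
          have h4 := phi_ge_half (wb (4 * ℓ) x) y t'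
          have h5 := S_general hL1 x (show i < i + j by omega) (by omega : i * (4 * ℓ) ≤ y) hyi
            ht'.1 (by omega : t' ≤ (i + j + 1) * (4 * ℓ))
          have ht'r : ((i : ℝ) + j) * (4 * ℓ) ≤ t' := by
            have : (((i + j) * (4 * ℓ) : ℕ) : ℝ) ≤ t' := by exact_mod_cast ht'.1
            push_cast at this
            linarith
          have hmax : max 0 (Sm (i + 1) (i + j) x) - |x i| * (((i : ℝ) + 1) * (4 * ℓ) - y) / (4 * ℓ)
              - |x (i + j)| * ((t' : ℝ) - ((i : ℝ) + j) * (4 * ℓ)) / (4 * ℓ)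
              ≤ max 0 (S (wb (4 * ℓ) x) y t') := by
            rw [h5]
            push_cast
            have e1 : 0 ≤ (((i : ℝ) + 1) * (4 * ℓ) - y) / (4 * ℓ) := by
              apply div_nonneg <;> linarith
            have e2 : 0 ≤ ((t' : ℝ) - ((i : ℝ) + j) * (4 * ℓ)) / (4 * ℓ) := by
              apply div_nonneg <;> linarith
            have e3 : -(|x i| * (((i : ℝ) + 1) * (4 * ℓ) - y) / (4 * ℓ))
                ≤ x i * (((i : ℝ) + 1) * (4 * ℓ) - y) / (4 * ℓ) := by
              rw [mul_div_assoc, mul_div_assoc]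
              have := mul_le_mul_of_nonneg_right (neg_abs_le (x i)) e1
              linarith
            have e4 : -(|x (i + j)| * ((t' : ℝ) - ((i : ℝ) + j) * (4 * ℓ)) / (4 * ℓ))
                ≤ x (i + j) * ((t' : ℝ) - ((i : ℝ) + j) * (4 * ℓ)) / (4 * ℓ) := by
              rw [mul_div_assoc, mul_div_assoc]
              have := mul_le_mul_of_nonneg_right (neg_abs_le (x (i + j))) e2
              linarith
            have e5 : 0 ≤ |x i| * (((i : ℝ) + 1) * (4 * ℓ) - y) / (4 * ℓ) := by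
              rw [mul_div_assoc]; exact mul_nonneg (abs_nonneg _) e1
            have e6 : 0 ≤ |x (i + j)| * ((t' : ℝ) - ((i : ℝ) + j) * (4 * ℓ)) / (4 * ℓ) := by
              rw [mul_div_assoc]; exact mul_nonneg (abs_nonneg _) e2
            rcases le_total 0 (Sm (i + 1) (i + j) x) with hs | hs
            · rw [max_eq_right hs]
              refine le_trans ?_ (le_max_right _ _)
              linarith
            · rw [max_eq_left hs]
              refine le_trans ?_ (le_max_left _ _)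
              linarith
          have h6 : Real.exp (-(|x i| * (((i : ℝ) + 1) * (4 * ℓ) - y) / (4 * ℓ)) + Θ)
              ≤ Real.exp (max 0 (S (wb (4 * ℓ) x) y t')) *
                Real.exp (|x (i + j)| * ((t' : ℝ) - ((i + j : ℕ) : ℝ) * (4 * ℓ)) / (4 * ℓ) +
                  W α (cJ α c0 C1) (M - j) (sh (i + j) x) - |x I|) := by
            rw [← Real.exp_add]
            apply Real.exp_le_exp.2
            push_cast
            rw [hΘ]
            linarith
          have h7 : Real.exp (-(|x i| * (((i : ℝ) + 1) * (4 * ℓ) - y) / (4 * ℓ)) + Θ) * B0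
              ≤ Real.exp (max 0 (S (wb (4 * ℓ) x) y t')) *
                G K (wb (4 * ℓ) x) t' ((I + 1) * (4 * ℓ)) := by
            calc _ ≤ (Real.exp (max 0 (S (wb (4 * ℓ) x) y t')) *
                Real.exp (|x (i + j)| * ((t' : ℝ) - ((i + j : ℕ) : ℝ) * (4 * ℓ)) / (4 * ℓ) +
                  W α (cJ α c0 C1) (M - j) (sh (i + j) x) - |x I|)) * B0 :=
                  mul_le_mul_of_nonneg_right h6 hB0pos.le
              _ = Real.exp (max 0 (S (wb (4 * ℓ) x) y t')) *
                (Real.exp (|x (i + j)| * ((t' : ℝ) - ((i + j : ℕ) : ℝ) * (4 * ℓ)) / (4 * ℓ) +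
                  W α (cJ α c0 C1) (M - j) (sh (i + j) x) - |x I|) * B0) := by ring
              _ ≤ _ := mul_le_mul_of_nonneg_left h3 (Real.exp_pos _).le
          have hKn := h.base.nonneg (t' - y)
          calc K (t' - y) / 2 *
                (Real.exp (-(|x i| * (((i : ℝ) + 1) * (4 * ℓ) - y) / (4 * ℓ)) + Θ) * B0)
              ≤ K (t' - y) / 2 * (Real.exp (max 0 (S (wb (4 * ℓ) x) y t')) *
                G K (wb (4 * ℓ) x) t' ((I + 1) * (4 * ℓ))) :=
                mul_le_mul_of_nonneg_left h7 (by positivity)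
            _ = K (t' - y) * (Real.exp (max 0 (S (wb (4 * ℓ) x) y t')) / 2) *
                G K (wb (4 * ℓ) x) t' ((I + 1) * (4 * ℓ)) := by ring
            _ ≤ _ := by
                apply mul_le_mul_of_nonneg_right _ (hG0.2.1 _ _)
                exact mul_le_mul_of_nonneg_left h4 hKn
        have h8 : (∑ t' ∈ Finset.Icc ((i + j) * (4 * ℓ)) ((i + j) * (4 * ℓ) + 2 * ℓ),
            K (t' - y) / 2) *
            (Real.exp (-(|x i| * (((i : ℝ) + 1) * (4 * ℓ) - y) / (4 * ℓ)) + Θ) * B0)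
            ≤ ∑ t' ∈ Finset.Icc ((i + j) * (4 * ℓ)) ((i + j) * (4 * ℓ) + 2 * ℓ),
            K (t' - y) * phi (wb (4 * ℓ) x) y t' * G K (wb (4 * ℓ) x) t' ((I + 1) * (4 * ℓ)) := by
          rw [Finset.sum_mul]
          exact Finset.sum_le_sum h2
        have h9 : Real.exp (|x i| * ((t : ℝ) - i * (4 * ℓ)) / (4 * ℓ) - |x i| + Θ)
            = Real.exp (-(|x i| * ((y : ℝ) - t) / (4 * ℓ))) *
              Real.exp (-(|x i| * (((i : ℝ) + 1) * (4 * ℓ) - y) / (4 * ℓ)) + Θ) := by
          rw [← Real.exp_add]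
          congr 1
          field_simp
          ring
        have hUn : 0 ≤ Um K (y - t) := Um_nonneg h _
        have hsumn : 0 ≤ (∑ t' ∈ Finset.Icc ((i + j) * (4 * ℓ)) ((i + j) * (4 * ℓ) + 2 * ℓ),
            K (t' - y) / 2) *
            (Real.exp (-(|x i| * (((i : ℝ) + 1) * (4 * ℓ) - y) / (4 * ℓ)) + Θ) * B0) := by
          apply mul_nonneg _ (by positivity)
          exact Finset.sum_nonneg fun t' _ => div_nonneg (h.base.nonneg _) (by norm_num)
        calc _ = (Real.exp (-(|x i| * ((y : ℝ) - t) / (4 * ℓ))) * Um K (y - t)) *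
            ((∑ t' ∈ Finset.Icc ((i + j) * (4 * ℓ)) ((i + j) * (4 * ℓ) + 2 * ℓ),
            K (t' - y) / 2) *
            (Real.exp (-(|x i| * (((i : ℝ) + 1) * (4 * ℓ) - y) / (4 * ℓ)) + Θ) * B0)) := by
              rw [h9]; ring
          _ ≤ _ := mul_le_mul h1 h8 hsumn (hG0.2.1 _ _)
      have hfin : Real.exp (jc α (cJ α c0 C1) j) *
          (Real.exp (|x i| * ((t : ℝ) - i * (4 * ℓ)) / (4 * ℓ) - |x i| + Θ) * B0)
          ≤ ∑ y ∈ Finset.Icc t (t + ℓ), G K (wb (4 * ℓ) x) t y *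
            ∑ t' ∈ Finset.Icc ((i + j) * (4 * ℓ)) ((i + j) * (4 * ℓ) + 2 * ℓ),
            K (t' - y) * phi (wb (4 * ℓ) x) y t' * G K (wb (4 * ℓ) x) t' ((I + 1) * (4 * ℓ)) := by
        refine le_trans (mul_le_mul_of_nonneg_right hcost (by positivity)) ?_
        rw [Finset.sum_mul]
        exact Finset.sum_le_sum hterm
      refine le_trans (le_of_eq ?_) hfin
      have h12 : ∀ a b c : ℝ, Real.exp a * (Real.exp b * c) = Real.exp (a + b) * c := by
        intro a b c
        rw [← mul_assoc, ← Real.exp_add]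
      rw [h12]
      congr 2
      rw [hΘ]
      ring

end Pool.Agent.R973.Cp
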