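import Pool.Agent.R973.Cp.Trans
import Pool.Agent.Helper764.Cop_hc

/-!
# The strict lower bound on the slope of the critical curve
-/

set_option autoImplicit false

open MeasureTheory ProbabilityTheory Filter Topology
open scoped ENNReal NNReal

namespace Pool.Agent.R973.Cp

open Cop764 (disorder Data G freeEnergy)

variable {c0 C1 : ℝ} {n0 : ℕ}

lemma var_int (D : Data) : Integrable (fun x : ℝ => x ^ 2) D.ν := by
  by_contra hcon
  have h1 := D.var
  rw [integral_undef hcon] at h1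
  norm_num at h1

/-- Positivity of the value functional implies localization. -/
lemma f_pos_of_W (D : Data) (hK : KH D.K D.α c0 C1 n0) {h : ℝ} (hh : 0 ≤ h) {ℓ : ℕ}
    (hℓ : n0 ≤ ℓ) (R : ℕ)
    (he : 0 < ∫ x, W D.α (cJ D.α c0 C1) R x ∂(disorder (muX D.ν (4 * ℓ)
      (-2 * D.lam * Real.sqrt (4 * ℓ : ℕ)) (-2 * D.lam * h * (4 * ℓ : ℕ))))) :
    0 < D.f h := by
  by_contra hcon
  rw [not_lt] at hcon
  have hn0 := hK.base.n0_pos
  have hα0 := hK.base.alpha_pos
  have hℓ1 : 1 ≤ ℓ := by omega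
  have hℓ' : (0 : ℝ) < ℓ := by exact_mod_cast hℓ1
  set a := -2 * D.lam * Real.sqrt (4 * ℓ : ℕ) with ha
  set b := -2 * D.lam * h * (4 * ℓ : ℕ) with hb
  set μ := muX D.ν (4 * ℓ) a b with hμ
  set e := ∫ x, W D.α (cJ D.α c0 C1) R x ∂(disorder μ) with hedef
  have hμabs : Integrable (fun u => |u|) μ :=
    integrable_abs_muX D.ν (var_int D) D.mean D.var (4 * ℓ) a b
  set A := ∫ u, |u| ∂μ with hA
  have hR1 : 1 ≤ R := by
    by_contra hR
    have : R = 0 := by omega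
    subst this
    simp [hedef, W_zero] at he
  have hR' : (0 : ℝ) < R := by exact_mod_cast hR1
  have hlow : ∀ m : ℕ, m * e - A + Real.log (c0 * (4 * ℓ : ℝ) ^ (-(1 + D.α)))
      ≤ ∫ ω, D.lG h 0 ((m * R + 1) * (4 * ℓ)) ω ∂D.P := by
    intro m
    have hWi := integrable_W (α := D.α) (cst := cJ D.α c0 C1) μ hμabs (m * R)
    have hxi : Integrable (fun x : ℕ → ℝ => |x (m * R)|) (disorder μ) :=
      (integrable_coord μ (f := fun u => |u|) (by fun_prop) (m * R)).2 hμabs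
    have hsub : Integrable (fun x : ℕ → ℝ => W D.α (cJ D.α c0 C1) (m * R) x - |x (m * R)|)
      (disorder μ) := hWi.sub hxi
    have h1 := lG_lower_int D hK hh hℓ (m * R) hsub
    have h2 : ∫ x, (W D.α (cJ D.α c0 C1) (m * R) x - |x (m * R)|) ∂(disorder μ)
        = ∫ x, W D.α (cJ D.α c0 C1) (m * R) x ∂(disorder μ) - A := by
      rw [integral_sub hWi hxi, int_coord μ (f := fun u => |u|) (by fun_prop) (m * R)]
    have h3 := int_W_mul (α := D.α) (cst := cJ D.α c0 C1) μ hμabs R m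
    have h4 : ∫ x, (W D.α (cJ D.α c0 C1) (m * R) x - |x (m * R)|) ∂(disorder μ)
        + Real.log (c0 * (4 * ℓ : ℝ) ^ (-(1 + D.α)))
        ≤ ∫ ω, D.lG h 0 ((m * R + 1) * (4 * ℓ)) ω ∂D.P := h1
    rw [h2] at h4
    linarith
  have hup : ∀ m : ℕ, ∫ ω, D.lG h 0 ((m * R + 1) * (4 * ℓ)) ω ∂D.P ≤ (1 + D.α)
      + Real.log (2 / c0) + (1 + D.α) * Real.log ((m * R + 1) * (4 * ℓ)) := by
    intro m
    have hN : n0 ≤ (m * R + 1) * (4 * ℓ) :=
      calc n0 ≤ 1 * (4 * ℓ) := by omega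
        _ ≤ (m * R + 1) * (4 * ℓ) := Nat.mul_le_mul_right _ (by omega)
    have hN1 : 1 ≤ (m * R + 1) * (4 * ℓ) := by omega
    have h1 := (Cop764.M_strE.J_strE) D c0 n0 hK.base h hh _ hN 1 one_pos le_rfl
    have hlG : Integrable (D.lG h 0 ((m * R + 1) * (4 * ℓ))) D.P :=
      ((Cop764.M_int.J_int) D c0 n0 hK.base h hh).2.1 0 _ (by omega)
    set cc := Real.log (2 / c0) + (1 + D.α) * (Real.log (((m * R + 1) * (4 * ℓ) : ℕ) : ℝ)
      + Real.log 1⁻¹) with hcc
    have hsub : Integrable (fun ω => D.lG h 0 ((m * R + 1) * (4 * ℓ)) ω - cc) D.P :=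
      hlG.sub (integrable_const _)
    have hmax : Integrable (fun ω => max (D.lG h 0 ((m * R + 1) * (4 * ℓ)) ω - cc) 0) D.P :=
      hsub.sup (integrable_const _)
    have h2 : ∫ ω, (D.lG h 0 ((m * R + 1) * (4 * ℓ)) ω - cc) ∂D.P
        ≤ ∫ ω, max (D.lG h 0 ((m * R + 1) * (4 * ℓ)) ω - cc) 0 ∂D.P :=
      integral_mono hsub hmax fun ω => le_max_left _ _
    rw [integral_sub hlG (integrable_const _)] at h2
    simp only [integral_const, probReal_univ, one_smul] at h2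
    have h3 : (((m * R + 1) * (4 * ℓ) : ℕ) : ℝ) * D.f h ≤ 0 :=
      mul_nonpos_of_nonneg_of_nonpos (by positivity) hcon
    have h4 : cc = Real.log (2 / c0) + (1 + D.α) * Real.log ((m * R + 1) * (4 * ℓ)) := by
      rw [hcc]
      simp
    linarith
  -- contradiction
  set B := A - Real.log (c0 * (4 * ℓ : ℝ) ^ (-(1 + D.α))) + (1 + D.α) + Real.log (2 / c0) with hB
  have hmain : ∀ m : ℕ, m * e ≤ B + (1 + D.α) * Real.log ((m * R + 1) * (4 * ℓ)) := by
    intro m
    have := hlow m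
    have := hup m
    linarith
  set ε := e / (2 * (1 + D.α) * (4 * ℓ) * R) with hε
  have hεpos : 0 < ε := by positivity
  have hlog : ∀ m : ℕ, (1 + D.α) * Real.log ((m * R + 1) * (4 * ℓ))
      ≤ m * e / 2 + e / (2 * R) - (1 + D.α) * Real.log ε := by
    intro m
    have hy : (0 : ℝ) < (m * R + 1) * (4 * ℓ) := by positivity
    have h1 := Real.log_le_sub_one_of_pos (mul_pos hεpos hy)
    rw [Real.log_mul hεpos.ne' hy.ne'] at h1
    have h2 : Real.log ((m * R + 1) * (4 * ℓ)) ≤ ε * ((m * R + 1) * (4 * ℓ)) - Real.log ε := by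
      linarith
    have h3 := mul_le_mul_of_nonneg_left h2 (by positivity : (0 : ℝ) ≤ 1 + D.α)
    refine h3.trans (le_of_eq ?_)
    rw [hε]
    field_simp
  obtain ⟨m, hm⟩ := exists_nat_gt ((B + e / (2 * R) - (1 + D.α) * Real.log ε) / (e / 2))
  rw [div_lt_iff₀ (by positivity)] at hm
  have h1 := hmain m
  have h2 := hlog m
  linarith

/-- The hypotheses on the gap law hold with some constants. -/
lemma exists_KH (D : Data) (hα1 : D.α < 1) : ∃ (c0 C1 : ℝ) (n0 : ℕ), KH D.K D.α c0 C1 n0 := by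
  obtain ⟨c0, n0, hb⟩ := (Cop764.M_K.J_K) D
  have hbd := D.htail.bddAbove_range
  obtain ⟨C, hC⟩ := hbd
  refine ⟨c0, max C 1, n0, hb, hα1, ?_, ?_, by positivity, ?_⟩
  · have h1 : HasSum (fun n => (D.κ n)) 1 := D.κ.hasSum_coe_one
    have h2 := (ENNReal.hasSum_toReal (f := fun n => D.κ n) (by rw [h1.tsum_eq]; norm_num))
    rw [← ENNReal.tsum_toReal_eq (fun n => (D.κ.apply_ne_top n)), h1.tsum_eq] at h2
    exact h2
  · unfold Data.K
    rw [D.κ0]
    rfl
  · intro n hn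
    have hn' : (0 : ℝ) < n := by exact_mod_cast hn
    have h1 : (n : ℝ) ^ (1 + D.α) * (D.κ n).toReal ≤ C := hC ⟨n, rfl⟩
    unfold Data.K
    rw [Real.rpow_neg hn'.le, ← div_eq_mul_inv, le_div_iff₀ (by positivity), mul_comm]
    exact h1.trans (le_max_left _ _)

end Pool.Agent.R973.Cp
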