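import Mathlib

/-!
# The copolymer model near a selective interface

Definitions only: the renewal process with fair signs, the i.i.d. charges, the partition function,
the free energy and the critical curve.
-/

set_option autoImplicit false

open MeasureTheory ProbabilityTheory Filter Topology

namespace Pool.Agent.R973.Copolymer

/-- The law of one pair (gap, sign): the gap has law `κ`, the sign is an independent fair coin. -/
noncomputable def stepLaw (κ : PMF ℕ) : Measure (ℕ × Bool) :=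
  κ.toMeasure.prod (PMF.uniformOfFintype Bool).toMeasure

instance stepLaw_prob (κ : PMF ℕ) : IsProbabilityMeasure (stepLaw κ) := by
  unfold stepLaw; infer_instance

/-- The law of the i.i.d. sequence of pairs (gap, sign). -/
noncomputable def pathMeasure (κ : PMF ℕ) : Measure (ℕ → ℕ × Bool) :=
  Measure.infinitePi (fun _ : ℕ => stepLaw κ)

/-- The renewal points: `τ_0 = 0` and `τ_j` is the sum of the first `j` gaps. -/
def tau (x : ℕ → ℕ × Bool) (j : ℕ) : ℕ := ∑ i ∈ Finset.range j, (x i).1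

/-- `Δ_n = 1` if the excursion `(τ_j, τ_{j+1}]` containing `n` has the sign `true` (that is, lies
below the interface), and `Δ_n = 0` otherwise. -/
noncomputable def Delta (x : ℕ → ℕ × Bool) (n : ℕ) : ℝ :=
  ∑ j ∈ Finset.range n, if tau x j < n ∧ n ≤ tau x (j + 1) ∧ (x j).2 = true then 1 else 0

/-- The partition function `Z_{N,ω} = E[exp(-2λ ∑_{n=1}^N Δ_n (ω_n + h))]`. -/
noncomputable def Z (κ : PMF ℕ) (lam h : ℝ) (N : ℕ) (ω : ℕ → ℝ) : ℝ :=
  ∫ x, Real.exp (-2 * lam * ∑ n ∈ Finset.Icc 1 N, Delta x n * (ω n + h)) ∂(pathMeasure κ)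

/-- The law of the i.i.d. charges `ω` with common law `ν`. -/
noncomputable def disorder (ν : Measure ℝ) [IsProbabilityMeasure ν] : Measure (ℕ → ℝ) :=
  Measure.infinitePi (fun _ : ℕ => ν)

/-- The finite volume free energy `N⁻¹ E log Z_{N,ω}`. -/
noncomputable def feN (κ : PMF ℕ) (ν : Measure ℝ) [IsProbabilityMeasure ν] (lam h : ℝ)
    (N : ℕ) : ℝ :=
  (N : ℝ)⁻¹ * ∫ ω, Real.log (Z κ lam h N ω) ∂(disorder ν)

/-- The free energy `f(λ,h) = lim N⁻¹ E log Z_{N,ω}`. -/
noncomputable def freeEnergy (κ : PMF ℕ) (ν : Measure ℝ) [IsProbabilityMeasure ν]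
    (lam h : ℝ) : ℝ :=
  limUnder atTop (feN κ ν lam h)

/-- The critical curve `h_c(λ) = sup {h : f(λ,h) > 0}`. -/
noncomputable def hc (κ : PMF ℕ) (ν : Measure ℝ) [IsProbabilityMeasure ν] (lam : ℝ) : ℝ :=
  sSup {h : ℝ | 0 < freeEnergy κ ν lam h}

/-- The critical curve as a supremum over `h ≥ 0`: `sup {h ≥ 0 : f(λ,h) > 0}`. -/
noncomputable def hcNonneg (κ : PMF ℕ) (ν : Measure ℝ) [IsProbabilityMeasure ν] (lam : ℝ) : ℝ :=
  sSup {h : ℝ | 0 ≤ h ∧ 0 < freeEnergy κ ν lam h}

/-- Hypotheses on the law of the gaps: `κ` is carried by `{1, 2, ...}` and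
`κ(n) ~ c_K n^{-(1+α)}` for some `c_K > 0`. -/
structure IsGapLaw (κ : PMF ℕ) (α : ℝ) : Prop where
  zero : κ 0 = 0
  tail : ∃ cK : ℝ, 0 < cK ∧
    Tendsto (fun n : ℕ => (n : ℝ) ^ (1 + α) * (κ n).toReal) atTop (𝓝 cK)

/-- Hypotheses on the law of the charges: mean `0`, variance `1` and finite exponential moments of
all orders. -/
structure IsChargeLaw (ν : Measure ℝ) : Prop where
  mean : ∫ x, x ∂ν = 0
  var : ∫ x, x ^ 2 ∂ν = 1
  expm : ∀ t : ℝ, Integrable (fun x => Real.exp (t * x)) ν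

end Pool.Agent.R973.Copolymer
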