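import Pool.Agent.R973.Cp.Coarse
import Pool.Agent.Helper764.Cop_indep
import Pool.Agent.Helper764.Cop_stat

/-!
# Independence tools for i.i.d. sequences, maximal inequality
-/

set_option autoImplicit false

open MeasureTheory ProbabilityTheory
open scoped ENNReal NNReal

namespace Pool.Agent.R973.Cp

open Cop764 (disorder)

/-- `f` depends on the coordinates in `s`. -/
def Dep {β : Type*} (s : Finset ℕ) (f : (ℕ → ℝ) → β) : Prop :=
  ∀ x y : ℕ → ℝ, (∀ n ∈ s, x n = y n) → f x = f y

/-- The set `A` depends on the coordinates in `s`. -/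
def DepS (s : Finset ℕ) (A : Set (ℕ → ℝ)) : Prop :=
  ∀ x y : ℕ → ℝ, (∀ n ∈ s, x n = y n) → (x ∈ A ↔ y ∈ A)

lemma Dep.mono {β : Type*} {s t : Finset ℕ} {f : (ℕ → ℝ) → β} (h : Dep s f) (hst : s ⊆ t) :
    Dep t f := fun x y hxy => h x y fun n hn => hxy n (hst hn)

lemma DepS.mono {s t : Finset ℕ} {A : Set (ℕ → ℝ)} (h : DepS s A) (hst : s ⊆ t) :
    DepS t A := fun x y hxy => h x y fun n hn => hxy n (hst hn)

lemma DepS.inter {s : Finset ℕ} {A B : Set (ℕ → ℝ)} (hA : DepS s A) (hB : DepS s B) :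
    DepS s (A ∩ B) := fun x y hxy => by
  rw [Set.mem_inter_iff, Set.mem_inter_iff, hA x y hxy, hB x y hxy]

lemma DepS.compl {s : Finset ℕ} {A : Set (ℕ → ℝ)} (hA : DepS s A) :
    DepS s Aᶜ := fun x y hxy => by
  rw [Set.mem_compl_iff, Set.mem_compl_iff, hA x y hxy]

lemma DepS.ind {s : Finset ℕ} {A : Set (ℕ → ℝ)} (hA : DepS s A) :
    Dep s (A.indicator fun _ => (1 : ℝ)) := fun x y hxy => by
  classical
  rw [Set.indicator_apply, Set.indicator_apply]
  by_cases h : x ∈ A
  · rw [if_pos h, if_pos ((hA x y hxy).1 h)]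
  · rw [if_neg h, if_neg fun h' => h ((hA x y hxy).2 h')]

lemma dep_Sm (a b : ℕ) : Dep (Finset.Ico a b) (Sm a b) := by
  intro x y h
  unfold Sm
  exact Finset.sum_congr rfl h

variable (γ : Measure ℝ) [IsProbabilityMeasure γ]

lemma int_mul {s t : Finset ℕ} (hst : Disjoint s t) {f g : (ℕ → ℝ) → ℝ} (hf : Measurable f)
    (hg : Measurable g) (hfs : Dep s f) (hgt : Dep t g) :
    ∫ x, f x * g x ∂(disorder γ) = (∫ x, f x ∂(disorder γ)) * ∫ x, g x ∂(disorder γ) := by
  have h := Cop764.M_indep.J_indep γ s t hst f g hf hg hfs hgt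
  exact h.integral_fun_mul_eq_mul_integral hf.aestronglyMeasurable hg.aestronglyMeasurable

lemma integrable_mul {s t : Finset ℕ} (hst : Disjoint s t) {f g : (ℕ → ℝ) → ℝ} (hf : Measurable f)
    (hg : Measurable g) (hfs : Dep s f) (hgt : Dep t g) (hfi : Integrable f (disorder γ))
    (hgi : Integrable g (disorder γ)) :
    Integrable (fun x => f x * g x) (disorder γ) := by
  have h := Cop764.M_indep.J_indep γ s t hst f g hf hg hfs hgt
  exact h.integrable_mul hfi hgi

lemma prob_inter {s t : Finset ℕ} (hst : Disjoint s t) {A B : Set (ℕ → ℝ)}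
    (hA : MeasurableSet A) (hB : MeasurableSet B) (hAs : DepS s A) (hBt : DepS t B) :
    (disorder γ).real (A ∩ B) = (disorder γ).real A * (disorder γ).real B := by
  have h := int_mul γ hst (measurable_const.indicator hA) (measurable_const.indicator hB)
    hAs.ind hBt.ind
  have h1 : ∀ x, A.indicator (fun _ => (1 : ℝ)) x * B.indicator (fun _ => (1 : ℝ)) x
      = (A ∩ B).indicator (fun _ => (1 : ℝ)) x := by
    intro x
    classical
    simp only [Set.indicator_apply, Set.mem_inter_iff]
    by_cases hxA : x ∈ A <;> by_cases hxB : x ∈ B <;> simp [hxA, hxB]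
  simp only [h1] at h
  rw [integral_indicator (hA.inter hB), integral_indicator hA, integral_indicator hB] at h
  simpa using h

lemma int_coord {f : ℝ → ℝ} (hf : Measurable f) (n : ℕ) :
    ∫ x : ℕ → ℝ, f (x n) ∂(disorder γ) = ∫ u, f u ∂γ := by
  have h := measurePreserving_eval_infinitePi (fun _ : ℕ => γ) n
  have h2 : ∫ u, f u ∂γ = ∫ u, f u ∂((Measure.infinitePi fun _ : ℕ => γ).map
      (Function.eval n)) := by rw [h.map_eq]
  rw [h2, integral_map h.measurable.aemeasurable hf.aestronglyMeasurable]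
  rfl

lemma integrable_coord {f : ℝ → ℝ} (hf : Measurable f) (n : ℕ) :
    Integrable (fun x : ℕ → ℝ => f (x n)) (disorder γ) ↔ Integrable f γ := by
  have h := measurePreserving_eval_infinitePi (fun _ : ℕ => γ) n
  exact h.integrable_comp hf.aestronglyMeasurable

lemma prob_coord {A : Set ℝ} (hA : MeasurableSet A) (n : ℕ) :
    (disorder γ).real {x : ℕ → ℝ | x n ∈ A} = γ.real A := by
  have h := measurePreserving_eval_infinitePi (fun _ : ℕ => γ) n
  unfold Measure.real
  congr 1
  exact h.measure_preimage hA.nullMeasurableSet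

lemma int_shift {f : (ℕ → ℝ) → ℝ} (hf : Measurable f) (k : ℕ) :
    ∫ x, f (sh k x) ∂(disorder γ) = ∫ x, f x ∂(disorder γ) := by
  have h := Cop764.M_stat.J_stat γ k
  have h2 : ∫ x, f x ∂(disorder γ) = ∫ x, f x ∂((disorder γ).map (sh k)) := by
    rw [show (disorder γ).map (sh k) = disorder γ from h.map_eq]
  rw [h2, integral_map (measurable_sh k).aemeasurable hf.aestronglyMeasurable]

lemma Sm_self (a : ℕ) (x : ℕ → ℝ) : Sm a a x = 0 := by simp [Sm]

lemma Sm_succ {a b : ℕ} (h : a ≤ b) (x : ℕ → ℝ) : Sm a (b + 1) x = Sm a b x + x b := by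
  unfold Sm
  rw [Finset.sum_Ico_succ_top h]

lemma Sm_add {a b c : ℕ} (hab : a ≤ b) (hbc : b ≤ c) (x : ℕ → ℝ) :
    Sm a c x = Sm a b x + Sm b c x := by
  unfold Sm
  rw [Finset.sum_Ico_consecutive _ hab hbc]

lemma disj_Ico {a b c : ℕ} : Disjoint (Finset.Ico a b) (Finset.Ico b c) := by
  rw [Finset.disjoint_left]
  intro n h1 h2
  rw [Finset.mem_Ico] at h1 h2
  omega

lemma mgf_Sm (s : ℝ) (hs : Integrable (fun u => Real.exp (s * u)) γ) (a n : ℕ) :
    Integrable (fun x => Real.exp (s * Sm a (a + n) x)) (disorder γ) ∧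
    ∫ x, Real.exp (s * Sm a (a + n) x) ∂(disorder γ) = (∫ u, Real.exp (s * u) ∂γ) ^ n := by
  induction n with
  | zero => simp [Sm_self]
  | succ n ih =>
    have h1 : ∀ x, Real.exp (s * Sm a (a + (n + 1)) x)
        = Real.exp (s * Sm a (a + n) x) * Real.exp (s * x (a + n)) := by
      intro x
      rw [← add_assoc, Sm_succ (by omega), mul_add, Real.exp_add]
    simp only [h1]
    have hm1 : Measurable fun x : ℕ → ℝ => Real.exp (s * Sm a (a + n) x) :=
      Real.measurable_exp.comp ((measurable_Sm _ _).const_mul s)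
    have hm2 : Measurable fun u : ℝ => Real.exp (s * u) := by fun_prop
    have hm3 : Measurable fun x : ℕ → ℝ => Real.exp (s * x (a + n)) :=
      hm2.comp (measurable_pi_apply _)
    have hd1 : Dep (Finset.Ico a (a + n)) fun x : ℕ → ℝ => Real.exp (s * Sm a (a + n) x) := by
      intro x y h
      simp only [dep_Sm a (a + n) x y h]
    have hd2 : Dep (Finset.Ico (a + n) (a + n + 1)) fun x : ℕ → ℝ => Real.exp (s * x (a + n)) := by
      intro x y h
      simp only [h (a + n) (by simp)]
    constructor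
    · exact integrable_mul γ disj_Ico hm1 hm3 hd1 hd2 ih.1
        ((integrable_coord γ hm2 (a + n)).2 hs)
    · rw [int_mul γ disj_Ico hm1 hm3 hd1 hd2, ih.2,
        int_coord γ hm2 (a + n), pow_succ]

/-- The event that some partial sum started at `a` of length at most `n` is at least `y`. -/
def Ev (n a : ℕ) (y : ℝ) : Set (ℕ → ℝ) := {x | ∃ r, r ≤ n ∧ y ≤ Sm a (a + r) x}

lemma meas_Ev (n a : ℕ) (y : ℝ) : MeasurableSet (Ev n a y) := by
  have : Ev n a y = ⋃ r ∈ Finset.range (n + 1), {x | y ≤ Sm a (a + r) x} := by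
    ext x
    simp only [Ev, Set.mem_ofPred_eq, Set.mem_iUnion, Finset.mem_range, exists_prop]
    constructor
    · rintro ⟨r, h1, h2⟩; exact ⟨r, by omega, h2⟩
    · rintro ⟨r, h1, h2⟩; exact ⟨r, by omega, h2⟩
  rw [this]
  exact Finset.measurableSet_biUnion _ fun r _ =>
    measurableSet_le measurable_const (measurable_Sm _ _)

lemma dep_Ev (n a : ℕ) (y : ℝ) : DepS (Finset.Ico a (a + n)) (Ev n a y) := by
  intro x z h
  have h1 : ∀ r, r ≤ n → Sm a (a + r) x = Sm a (a + r) z := by
    intro r hr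
    apply dep_Sm
    intro m hm
    apply h
    rw [Finset.mem_Ico] at hm ⊢
    omega
  unfold Ev
  simp only [Set.mem_ofPred_eq]
  constructor
  · rintro ⟨r, h2, h3⟩; exact ⟨r, h2, by rw [← h1 r h2]; exact h3⟩
  · rintro ⟨r, h2, h3⟩; exact ⟨r, h2, by rw [h1 r h2]; exact h3⟩

/-- First passage events. -/
def Fp (a : ℕ) (y : ℝ) (r : ℕ) : Set (ℕ → ℝ) :=
  {x | y ≤ Sm a (a + r) x ∧ ∀ m, m < r → Sm a (a + m) x < y}

lemma meas_Fp (a : ℕ) (y : ℝ) (r : ℕ) : MeasurableSet (Fp a y r) := by
  have : Fp a y r = {x | y ≤ Sm a (a + r) x} ∩ ⋂ m ∈ Finset.range r, {x | Sm a (a + m) x < y} := by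
    ext x
    simp [Fp]
  rw [this]
  exact (measurableSet_le measurable_const (measurable_Sm _ _)).inter
    (Finset.measurableSet_biInter _ fun m _ =>
      measurableSet_lt (measurable_Sm _ _) measurable_const)

lemma dep_Fp (a : ℕ) (y : ℝ) (r : ℕ) : DepS (Finset.Ico a (a + r)) (Fp a y r) := by
  intro x z h
  have h1 : ∀ m, m ≤ r → Sm a (a + m) x = Sm a (a + m) z := by
    intro m hr
    apply dep_Sm
    intro l hm
    apply h
    rw [Finset.mem_Ico] at hm ⊢
    omega
  unfold Fp
  simp only [Set.mem_ofPred_eq]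
  rw [h1 r le_rfl]
  constructor
  · rintro ⟨h2, h3⟩
    exact ⟨h2, fun m hm => by rw [← h1 m hm.le]; exact h3 m hm⟩
  · rintro ⟨h2, h3⟩
    exact ⟨h2, fun m hm => by rw [h1 m hm.le]; exact h3 m hm⟩

/-- Maximal inequality. -/
lemma prob_Ev_le {θ : ℝ} (hθ : 0 < θ) (hi : Integrable (fun u => Real.exp (θ * u)) γ)
    (h1 : ∫ u, Real.exp (θ * u) ∂γ = 1) (n a : ℕ) (y : ℝ) :
    (disorder γ).real (Ev n a y) ≤ Real.exp (-(θ * y)) := by
  classical
  have hsub : Ev n a y ⊆ ⋃ r ∈ Finset.range (n + 1), Fp a y r := by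
    intro x hx
    obtain ⟨r, hr, hxy⟩ := hx
    have hex : ∃ r, y ≤ Sm a (a + r) x := ⟨r, hxy⟩
    simp only [Set.mem_iUnion, Finset.mem_range, exists_prop]
    refine ⟨Nat.find hex, ?_, Nat.find_spec hex, ?_⟩
    · have := Nat.find_min' hex hxy
      omega
    · intro m hm
      exact not_le.1 (Nat.find_min hex hm)
  have h2 : (disorder γ).real (Ev n a y) ≤ ∑ r ∈ Finset.range (n + 1),
      (disorder γ).real (Fp a y r) :=
    (measureReal_mono hsub (measure_ne_top _ _)).trans (measureReal_biUnion_finset_le _ _)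
  have hmE : ∀ k m : ℕ, Measurable fun x : ℕ → ℝ => Real.exp (θ * Sm k m x) := fun k m =>
    Real.measurable_exp.comp ((measurable_Sm _ _).const_mul θ)
  have hint : Integrable (fun x => Real.exp (θ * Sm a (a + n) x)) (disorder γ) :=
    (mgf_Sm γ θ hi a n).1
  have h3 : ∀ r ∈ Finset.range (n + 1), Real.exp (θ * y) * (disorder γ).real (Fp a y r)
      ≤ ∫ x, (Fp a y r).indicator (fun _ => (1 : ℝ)) x * Real.exp (θ * Sm a (a + n) x)
        ∂(disorder γ) := by
    intro r hr
    rw [Finset.mem_range] at hr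
    have hmF : Measurable ((Fp a y r).indicator fun _ => (1 : ℝ)) :=
      measurable_const.indicator (meas_Fp a y r)
    have h4 : ∀ x, (Fp a y r).indicator (fun _ => (1 : ℝ)) x * Real.exp (θ * Sm a (a + n) x)
        = ((Fp a y r).indicator (fun _ => (1 : ℝ)) x * Real.exp (θ * Sm a (a + r) x))
          * Real.exp (θ * Sm (a + r) (a + r + (n - r)) x) := by
      intro x
      rw [show a + r + (n - r) = a + n by omega, Sm_add (show a ≤ a + r by omega)
        (show a + r ≤ a + n by omega), mul_add, Real.exp_add]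
      ring
    simp only [h4]
    have hd1 : Dep (Finset.Ico a (a + r)) fun x : ℕ → ℝ =>
        (Fp a y r).indicator (fun _ => (1 : ℝ)) x * Real.exp (θ * Sm a (a + r) x) := by
      intro x z h
      simp only [(dep_Fp a y r).ind x z h, dep_Sm a (a + r) x z h]
    have hd2 : Dep (Finset.Ico (a + r) (a + r + (n - r))) fun x : ℕ → ℝ =>
        Real.exp (θ * Sm (a + r) (a + r + (n - r)) x) := by
      intro x z h
      simp only [dep_Sm _ _ x z h]
    have hmm : Measurable fun x : ℕ → ℝ =>
        (Fp a y r).indicator (fun _ => (1 : ℝ)) x * Real.exp (θ * Sm a (a + r) x) :=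
      hmF.mul (hmE _ _)
    rw [int_mul γ disj_Ico hmm (hmE _ _) hd1 hd2, (mgf_Sm γ θ hi _ _).2, h1,
      one_pow, mul_one]
    have h5 : Real.exp (θ * y) * (disorder γ).real (Fp a y r)
        = ∫ x, (Fp a y r).indicator (fun _ => (1 : ℝ)) x * Real.exp (θ * y) ∂(disorder γ) := by
      rw [integral_mul_const, integral_indicator (meas_Fp a y r)]
      simp [mul_comm]
    rw [h5]
    apply integral_mono_of_nonneg
    · filter_upwards with x
      exact mul_nonneg (Set.indicator_nonneg (fun _ _ => zero_le_one) _) (Real.exp_pos _).le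
    · have hi2 : Integrable (fun x => Real.exp (θ * Sm a (a + r) x)) (disorder γ) :=
        (mgf_Sm γ θ hi a r).1
      apply hi2.mono hmm.aestronglyMeasurable
      filter_upwards with x
      rw [norm_mul]
      have : ‖(Fp a y r).indicator (fun _ => (1 : ℝ)) x‖ ≤ 1 := by
        rw [Set.indicator_apply]
        split_ifs <;> simp
      nlinarith [norm_nonneg (Real.exp (θ * Sm a (a + r) x))]
    · filter_upwards with x
      by_cases hx : x ∈ Fp a y r
      · rw [Set.indicator_of_mem hx, one_mul, one_mul]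
        exact Real.exp_le_exp.2 (mul_le_mul_of_nonneg_left hx.1 hθ.le)
      · rw [Set.indicator_of_notMem hx, zero_mul, zero_mul]
  have hFi : ∀ r ∈ Finset.range (n + 1), Integrable (fun x =>
      (Fp a y r).indicator (fun _ => (1 : ℝ)) x * Real.exp (θ * Sm a (a + n) x))
      (disorder γ) := by
    intro r _
    have hmF : Measurable ((Fp a y r).indicator fun _ => (1 : ℝ)) :=
      measurable_const.indicator (meas_Fp a y r)
    have hmm : Measurable fun x : ℕ → ℝ =>
        (Fp a y r).indicator (fun _ => (1 : ℝ)) x * Real.exp (θ * Sm a (a + n) x) :=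
      hmF.mul (hmE _ _)
    apply hint.mono hmm.aestronglyMeasurable
    filter_upwards with x
    rw [norm_mul]
    have : ‖(Fp a y r).indicator (fun _ => (1 : ℝ)) x‖ ≤ 1 := by
      rw [Set.indicator_apply]
      split_ifs <;> simp
    nlinarith [norm_nonneg (Real.exp (θ * Sm a (a + n) x))]
  have h6 : ∑ r ∈ Finset.range (n + 1), Real.exp (θ * y) * (disorder γ).real (Fp a y r) ≤ 1 := by
    calc _ ≤ ∑ r ∈ Finset.range (n + 1), ∫ x, (Fp a y r).indicator (fun _ => (1 : ℝ)) x *
          Real.exp (θ * Sm a (a + n) x) ∂(disorder γ) := Finset.sum_le_sum h3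
      _ = ∫ x, ∑ r ∈ Finset.range (n + 1), (Fp a y r).indicator (fun _ => (1 : ℝ)) x *
          Real.exp (θ * Sm a (a + n) x) ∂(disorder γ) := (integral_finsetSum _ hFi).symm
      _ ≤ ∫ x, Real.exp (θ * Sm a (a + n) x) ∂(disorder γ) := by
        apply integral_mono (integrable_finsetSum _ hFi) hint
        intro x
        simp only
        rw [← Finset.sum_mul]
        have h7 : ∑ r ∈ Finset.range (n + 1), (Fp a y r).indicator (fun _ => (1 : ℝ)) x ≤ 1 := by
          by_cases hx : ∃ r ∈ Finset.range (n + 1), x ∈ Fp a y r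
          · obtain ⟨r, hr, hxr⟩ := hx
            rw [Finset.sum_eq_single_of_mem r hr, Set.indicator_of_mem hxr]
            intro m _ hmr
            apply Set.indicator_of_notMem
            intro hxm
            rcases lt_or_gt_of_ne hmr with h | h
            · exact absurd hxm.1 (not_le.2 (hxr.2 m h))
            · exact absurd hxr.1 (not_le.2 (hxm.2 r h))
          · push Not at hx
            rw [Finset.sum_eq_zero]
            · exact zero_le_one
            · intro r hr
              exact Set.indicator_of_notMem (hx r hr) _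
        calc _ ≤ 1 * Real.exp (θ * Sm a (a + n) x) :=
              mul_le_mul_of_nonneg_right h7 (Real.exp_pos _).le
          _ = _ := one_mul _
      _ = 1 := by rw [(mgf_Sm γ θ hi a n).2, h1, one_pow]
  rw [← Finset.mul_sum] at h6
  have h8 : ∑ r ∈ Finset.range (n + 1), (disorder γ).real (Fp a y r) ≤ Real.exp (-(θ * y)) := by
    rw [Real.exp_neg, ← one_div, le_div_iff₀ (Real.exp_pos _), mul_comm]
    exact h6
  exact h2.trans h8

end Pool.Agent.R973.Cp
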