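import Pool.Agent.Helper764.CopDefs
import Pool.Agent.Helper764.Cop_G
import Pool.Agent.Helper764.Cop_loc

/-!
# Renewal estimates
-/

set_option autoImplicit false

open MeasureTheory ProbabilityTheory Filter Topology

namespace Pool.Agent.R973.Cp

open Cop764 (G G_eq phi S KHyp)

lemma tel1 {α : ℝ} (hα0 : 0 < α) (hα1 : α < 1) {k : ℕ} (hk : 2 ≤ k) :
    (k : ℝ) ^ (-(1 + α)) ≤ (1 / α) * (((k - 1 : ℕ) : ℝ) ^ (-α) - (k : ℝ) ^ (-α)) := by
  have hk0 : (0 : ℝ) < k := by exact_mod_cast (by omega : 0 < k)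
  have hk2 : (2 : ℝ) ≤ k := by exact_mod_cast hk
  have h1 : ((k - 1 : ℕ) : ℝ) = k * (1 + (-(1 / (k : ℝ)))) := by
    rw [Nat.cast_sub (by omega)]
    push_cast
    field_simp
    ring
  have hs : (-1 : ℝ) ≤ -(1 / (k : ℝ)) := by
    have : 1 / (k : ℝ) ≤ 1 := by
      rw [div_le_one hk0]; linarith
    linarith
  have h2 : (0 : ℝ) < 1 + (-(1 / (k : ℝ))) := by
    have : 1 / (k : ℝ) ≤ 1 / 2 := div_le_div_of_nonneg_left (by norm_num) (by norm_num) hk2
    linarith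
  have h3 := rpow_one_add_le_one_add_mul_self hs hα0.le hα1.le
  have hpos : 0 < (1 + (-(1 / (k : ℝ)))) ^ α := Real.rpow_pos_of_pos h2 _
  have h4 : 1 + α * (1 / k) ≤ (1 + (-(1 / (k : ℝ)))) ^ (-α) := by
    rw [Real.rpow_neg h2.le, ← one_div, le_div_iff₀ hpos]
    have h5 : 0 ≤ α * (1 / (k : ℝ)) := by positivity
    nlinarith
  rw [h1, Real.mul_rpow hk0.le h2.le]
  have h6 : 0 < (k : ℝ) ^ (-α) := Real.rpow_pos_of_pos hk0 _
  have h7 : (k : ℝ) ^ (-(1 + α)) = (k : ℝ) ^ (-α) * (1 / k) := by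
    rw [show -(1 + α) = -α + -1 by ring, Real.rpow_add hk0, Real.rpow_neg_one, one_div]
  rw [h7]
  have h8 := mul_le_mul_of_nonneg_left h4 h6.le
  rw [div_mul_eq_mul_div, one_mul, le_div_iff₀ hα0]
  nlinarith

lemma tel2 {α : ℝ} (hα0 : 0 < α) (hα1 : α < 1) {j : ℕ} (hj : 1 ≤ j) :
    (j : ℝ) ^ (-α) ≤ (1 / (1 - α)) * ((j : ℝ) ^ (1 - α) - ((j - 1 : ℕ) : ℝ) ^ (1 - α)) := by
  have hj0 : (0 : ℝ) < j := by exact_mod_cast (by omega : 0 < j)
  have hj1 : (1 : ℝ) ≤ j := by exact_mod_cast hj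
  have h1 : ((j - 1 : ℕ) : ℝ) = j * (1 + (-(1 / (j : ℝ)))) := by
    rw [Nat.cast_sub (by omega)]
    push_cast
    field_simp
    ring
  have hs : (-1 : ℝ) ≤ -(1 / (j : ℝ)) := by
    have : 1 / (j : ℝ) ≤ 1 := by
      rw [div_le_one hj0]; linarith
    linarith
  have h2 : (0 : ℝ) ≤ 1 + (-(1 / (j : ℝ))) := by linarith
  have h3 := rpow_one_add_le_one_add_mul_self hs (by linarith : 0 ≤ 1 - α)
    (by linarith : 1 - α ≤ 1)
  rw [h1, Real.mul_rpow hj0.le h2]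
  have h6 : 0 < (j : ℝ) ^ (1 - α) := Real.rpow_pos_of_pos hj0 _
  have h7 : (j : ℝ) ^ (-α) = (j : ℝ) ^ (1 - α) * (1 / j) := by
    rw [show -α = (1 - α) + -1 by ring, Real.rpow_add hj0, Real.rpow_neg_one, one_div]
  rw [h7]
  have h8 := mul_le_mul_of_nonneg_left h3 h6.le
  rw [div_mul_eq_mul_div, one_mul, le_div_iff₀ (by linarith)]
  nlinarith

/-- Hypotheses on the gap law. -/
structure KH (K : ℕ → ℝ) (α c0 C1 : ℝ) (n0 : ℕ) : Prop where
  base : KHyp K α c0 n0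
  lt_one : α < 1
  sum : HasSum K 1
  zero : K 0 = 0
  C1_pos : 0 < C1
  upper : ∀ n, 1 ≤ n → K n ≤ C1 * (n : ℝ) ^ (-(1 + α))

variable {K : ℕ → ℝ} {α c0 C1 : ℝ} {n0 : ℕ}

/-- The tail `P(τ_1 > j)`. -/
noncomputable def Kb (K : ℕ → ℝ) (j : ℕ) : ℝ := 1 - ∑ k ∈ Finset.range (j + 1), K k

lemma Kb_nonneg (h : KH K α c0 C1 n0) (j : ℕ) : 0 ≤ Kb K j := by
  unfold Kb
  have := h.sum.summable.sum_le_tsum (Finset.range (j + 1)) (fun i _ => h.base.nonneg i)
  rw [h.sum.tsum_eq] at this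
  linarith

lemma Kb_le (h : KH K α c0 C1 n0) {j : ℕ} (hj : 1 ≤ j) : Kb K j ≤ C1 / α * (j : ℝ) ^ (-α) := by
  have hα0 := h.base.alpha_pos
  have h1 : Tendsto (fun M : ℕ => ∑ k ∈ Finset.range M, K k) atTop (𝓝 1) := h.sum.tendsto_sum_nat
  have h2 : Tendsto (fun M : ℕ => ∑ k ∈ Finset.range M, K k - ∑ k ∈ Finset.range (j + 1), K k)
      atTop (𝓝 (Kb K j)) := h1.sub_const _
  apply le_of_tendsto h2
  filter_upwards [eventually_ge_atTop (j + 1)] with M hM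
  have h3 : ∑ k ∈ Finset.range M, K k - ∑ k ∈ Finset.range (j + 1), K k
      = ∑ k ∈ Finset.Ico (j + 1) M, K k := by
    rw [Finset.sum_Ico_eq_sub _ hM]
  rw [h3]
  have h4 : ∀ M, j + 1 ≤ M → ∑ k ∈ Finset.Ico (j + 1) M, K k
      ≤ C1 / α * ((j : ℝ) ^ (-α) - ((M - 1 : ℕ) : ℝ) ^ (-α)) := by
    intro M hM
    induction M, hM using Nat.le_induction with
    | base => simp
    | succ n hn ih =>
      rw [Finset.sum_Ico_succ_top hn]
      have h5 := h.upper n (by omega)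
      have h6 := tel1 hα0 h.lt_one (show 2 ≤ n by omega)
      have h7 : C1 * (n : ℝ) ^ (-(1 + α)) ≤ C1 * ((1 / α) * (((n - 1 : ℕ) : ℝ) ^ (-α)
        - (n : ℝ) ^ (-α))) := mul_le_mul_of_nonneg_left h6 h.C1_pos.le
      rw [Nat.add_sub_cancel]
      have h8 : C1 * ((1 / α) * (((n - 1 : ℕ) : ℝ) ^ (-α) - (n : ℝ) ^ (-α)))
          = C1 / α * (((n - 1 : ℕ) : ℝ) ^ (-α) - (n : ℝ) ^ (-α)) := by ring
      linarith
  refine (h4 M hM).trans ?_
  have h9 : 0 ≤ ((M - 1 : ℕ) : ℝ) ^ (-α) := Real.rpow_nonneg (Nat.cast_nonneg _) _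
  have h10 : 0 ≤ C1 / α := div_nonneg h.C1_pos.le hα0.le
  nlinarith

lemma sum_Kb_le (h : KH K α c0 C1 n0) (N : ℕ) :
    ∑ j ∈ Finset.range (N + 1), Kb K j ≤ (1 + C1 / (α * (1 - α))) * ((N + 1 : ℕ) : ℝ) ^ (1 - α) := by
  have hα0 := h.base.alpha_pos
  have hα1 := h.lt_one
  have h1 : ∑ j ∈ Finset.range (N + 1), Kb K j ≤ 1 + C1 / (α * (1 - α)) * (N : ℝ) ^ (1 - α) := by
    induction N with
    | zero =>
      simp only [zero_add, Finset.range_one, Finset.sum_singleton, Kb, h.zero]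
      have : 0 ≤ C1 / (α * (1 - α)) * ((0 : ℕ) : ℝ) ^ (1 - α) :=
        mul_nonneg (div_nonneg h.C1_pos.le (mul_nonneg hα0.le (by linarith)))
          (Real.rpow_nonneg (Nat.cast_nonneg _) _)
      linarith
    | succ n ih =>
      rw [Finset.sum_range_succ]
      have h2 := Kb_le h (show 1 ≤ n + 1 by omega)
      have h3 := tel2 hα0 hα1 (show 1 ≤ n + 1 by omega)
      rw [Nat.add_sub_cancel] at h3
      have h4 : C1 / α * ((n + 1 : ℕ) : ℝ) ^ (-α) ≤ C1 / α * ((1 / (1 - α)) *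
          (((n + 1 : ℕ) : ℝ) ^ (1 - α) - (n : ℝ) ^ (1 - α))) :=
        mul_le_mul_of_nonneg_left h3 (div_nonneg h.C1_pos.le hα0.le)
      have h5 : C1 / α * ((1 / (1 - α)) * (((n + 1 : ℕ) : ℝ) ^ (1 - α) - (n : ℝ) ^ (1 - α)))
          = C1 / (α * (1 - α)) * (((n + 1 : ℕ) : ℝ) ^ (1 - α) - (n : ℝ) ^ (1 - α)) := by
        have : (1 - α) ≠ 0 := by linarith
        field_simp
      linarith
  refine h1.trans ?_
  have h2 : (1 : ℝ) ≤ ((N + 1 : ℕ) : ℝ) ^ (1 - α) :=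
    Real.one_le_rpow (by push_cast; linarith [Nat.cast_nonneg (α := ℝ) N]) (by linarith)
  have h3 : (N : ℝ) ^ (1 - α) ≤ ((N + 1 : ℕ) : ℝ) ^ (1 - α) :=
    Real.rpow_le_rpow (Nat.cast_nonneg _) (by push_cast; linarith) (by linarith)
  have h4 : 0 ≤ C1 / (α * (1 - α)) := div_nonneg h.C1_pos.le (mul_nonneg hα0.le (by linarith))
  nlinarith

/-- The renewal mass function. -/
noncomputable def Um (K : ℕ → ℝ) (n : ℕ) : ℝ := G K (fun _ => 0) 0 n

lemma phi_zero (i j : ℕ) : phi (fun _ => 0) i j = 1 := by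
  unfold phi S
  simp

lemma G_zero_shift (K : ℕ → ℝ) (i n : ℕ) : G K (fun _ => 0) i (i + n) = Um K n := by
  have h := (Cop764.M_loc.J_loc).1 K (fun _ => 0) i 0 n
  unfold Um
  rw [zero_add, add_comm n i] at h
  exact h.symm

lemma Um_zero (K : ℕ → ℝ) : Um K 0 = 1 := by
  unfold Um
  rw [G_eq]; simp

lemma Um_eq (K : ℕ → ℝ) {n : ℕ} (hn : 1 ≤ n) :
    Um K n = ∑ k ∈ Finset.Icc 1 n, K k * Um K (n - k) := by
  have h0 : Um K n = G K (fun _ => 0) 0 n := rfl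
  rw [h0, G_eq, if_neg (by omega)]
  have h1 : Finset.Ioc 0 n = Finset.Icc 1 n := by ext; simp [Finset.mem_Ioc, Finset.mem_Icc]; omega
  rw [h1]
  apply Finset.sum_congr rfl
  intro k hk
  rw [Finset.mem_Icc] at hk
  rw [phi_zero, mul_one]
  have h2 := G_zero_shift K k (n - k)
  rw [show k + (n - k) = n by omega] at h2
  rw [h2, Nat.sub_zero]

lemma Um_nonneg (h : KH K α c0 C1 n0) (n : ℕ) : 0 ≤ Um K n :=
  ((Cop764.M_G.J_G) K (fun _ => 0) h.base.nonneg).2.1 0 n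

lemma renewal_identity (h : KH K α c0 C1 n0) (n : ℕ) :
    ∑ m ∈ Finset.range (n + 1), Um K m * Kb K (n - m) = 1 := by
  induction n with
  | zero => simp [Um_zero, Kb, h.zero]
  | succ n ih =>
    rw [Finset.sum_range_succ]
    have h1 : ∀ m ∈ Finset.range (n + 1), Um K m * Kb K (n + 1 - m)
        = Um K m * Kb K (n - m) - Um K m * K (n + 1 - m) := by
      intro m hm
      rw [Finset.mem_range] at hm
      unfold Kb
      rw [show n + 1 - m = (n - m) + 1 by omega, Finset.sum_range_succ]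
      ring
    rw [Finset.sum_congr rfl h1, Finset.sum_sub_distrib, ih]
    have h2 : Um K (n + 1) = ∑ m ∈ Finset.range (n + 1), Um K m * K (n + 1 - m) := by
      rw [Um_eq K (by omega : 1 ≤ n + 1)]
      refine Finset.sum_nbij' (fun k => n + 1 - k) (fun m => n + 1 - m) ?_ ?_ ?_ ?_ ?_
      · intro k hk
        rw [Finset.mem_Icc] at hk
        rw [Finset.mem_range]
        omega
      · intro m hm
        rw [Finset.mem_range] at hm
        rw [Finset.mem_Icc]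
        omega
      · intro k hk
        rw [Finset.mem_Icc] at hk
        omega
      · intro m hm
        rw [Finset.mem_range] at hm
        omega
      · intro k hk
        rw [Finset.mem_Icc] at hk
        rw [show n + 1 - (n + 1 - k) = k by omega, mul_comm]
    have h3 : Kb K (n + 1 - (n + 1)) = 1 := by simp [Kb, h.zero]
    rw [h3, ← h2]
    ring

/-- The lower bound on the number of renewals. -/
lemma sum_Um_ge (h : KH K α c0 C1 n0) (N : ℕ) :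
    (1 + C1 / (α * (1 - α)))⁻¹ * ((N + 1 : ℕ) : ℝ) ^ α ≤ ∑ m ∈ Finset.range (N + 1), Um K m := by
  have hα0 := h.base.alpha_pos
  have hα1 := h.lt_one
  have h1 : ((N + 1 : ℕ) : ℝ) = ∑ n ∈ Finset.range (N + 1), ∑ m ∈ Finset.range (n + 1),
      Um K m * Kb K (n - m) := by
    simp only [renewal_identity h]
    simp
  have h2 : ∑ n ∈ Finset.range (N + 1), ∑ m ∈ Finset.range (n + 1), Um K m * Kb K (n - m)
      ≤ ∑ m ∈ Finset.range (N + 1), Um K m * ∑ j ∈ Finset.range (N + 1), Kb K j := by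
    have h3 : ∑ n ∈ Finset.range (N + 1), ∑ m ∈ Finset.range (n + 1), Um K m * Kb K (n - m)
        = ∑ m ∈ Finset.range (N + 1), ∑ n ∈ Finset.Ico m (N + 1), Um K m * Kb K (n - m) := by
      apply Finset.sum_comm'
      intro n m
      simp only [Finset.mem_range, Finset.mem_Ico]
      omega
    rw [h3]
    apply Finset.sum_le_sum
    intro m hm
    rw [Finset.mem_range] at hm
    rw [← Finset.mul_sum]
    apply mul_le_mul_of_nonneg_left _ (Um_nonneg h m)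
    rw [Finset.sum_Ico_eq_sum_range]
    calc ∑ i ∈ Finset.range (N + 1 - m), Kb K (m + i - m)
        = ∑ i ∈ Finset.range (N + 1 - m), Kb K i := by
          apply Finset.sum_congr rfl
          intro i _
          rw [Nat.add_sub_cancel_left]
      _ ≤ _ := Finset.sum_le_sum_of_subset_of_nonneg
          (Finset.range_subset_range.2 (by omega)) (fun i _ _ => Kb_nonneg h i)
  rw [← Finset.sum_mul] at h2
  have h4 := sum_Kb_le h N
  have hA : 0 ≤ ∑ m ∈ Finset.range (N + 1), Um K m := Finset.sum_nonneg fun m _ => Um_nonneg h m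
  have h5 := mul_le_mul_of_nonneg_left h4 hA
  have hN : (0 : ℝ) < ((N + 1 : ℕ) : ℝ) := by positivity
  have hC : 0 < 1 + C1 / (α * (1 - α)) := by
    have : 0 ≤ C1 / (α * (1 - α)) := div_nonneg h.C1_pos.le (mul_nonneg hα0.le (by linarith))
    linarith
  have h6 : ((N + 1 : ℕ) : ℝ) ≤ (∑ m ∈ Finset.range (N + 1), Um K m) *
      ((1 + C1 / (α * (1 - α))) * ((N + 1 : ℕ) : ℝ) ^ (1 - α)) := by
    calc ((N + 1 : ℕ) : ℝ) = _ := h1
      _ ≤ _ := h2
      _ ≤ _ := h5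
  have h7 : ((N + 1 : ℕ) : ℝ) ^ α * ((N + 1 : ℕ) : ℝ) ^ (1 - α) = ((N + 1 : ℕ) : ℝ) := by
    rw [← Real.rpow_add hN]
    simp
  have h8 : 0 < ((N + 1 : ℕ) : ℝ) ^ (1 - α) := Real.rpow_pos_of_pos hN _
  rw [inv_mul_le_iff₀ hC]
  have h9 : ((N + 1 : ℕ) : ℝ) ^ α * ((N + 1 : ℕ) : ℝ) ^ (1 - α) ≤
      ((1 + C1 / (α * (1 - α))) * ∑ m ∈ Finset.range (N + 1), Um K m) *
        ((N + 1 : ℕ) : ℝ) ^ (1 - α) := by
    rw [h7]
    linarith
  exact le_of_mul_le_mul_right h9 h8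

end Pool.Agent.R973.Cp
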