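import Pool.Agent.R973.Cp.Prob

/-!
# From a stopping rule with positive gain to linear growth of the value functional
-/

set_option autoImplicit false

open MeasureTheory ProbabilityTheory
open scoped ENNReal NNReal

namespace Pool.Agent.R973.Cp

open Cop764 (disorder)

variable (γ : Measure ℝ) [IsProbabilityMeasure γ] {α cst : ℝ}

lemma integrable_W (hγ : Integrable (fun u => |u|) γ) (M : ℕ) :
    Integrable (W α cst M) (disorder γ) := by
  have h1 : Integrable (fun x : ℕ → ℝ => |W α cst M 0| + ∑ l ∈ Finset.range M, |x l|)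
      (disorder γ) := by
    apply (integrable_const _).add
    apply integrable_finsetSum
    intro l _
    exact (integrable_coord γ (f := fun u => |u|) (by fun_prop) l).2 hγ
  apply h1.mono (measurable_W M).aestronglyMeasurable
  filter_upwards with x
  rw [Real.norm_eq_abs, Real.norm_eq_abs]
  exact (W_abs_le M x).trans (le_abs_self _)

lemma dep_W_sh {t M : ℕ} (h : t ≤ M) : Dep (Finset.Ico t M) fun x => W α cst (M - t) (sh t x) := by
  intro x y hxy
  apply W_congr
  intro l hl
  unfold sh
  apply hxy
  rw [Finset.mem_Ico]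
  omega

theorem linear_growth (hγ : Integrable (fun u => |u|) γ) (R0 : ℕ) (hR0 : 1 ≤ R0)
    (T : (ℕ → ℝ) → ℕ) (hT1 : ∀ x, 1 ≤ T x) (hTR : ∀ x, T x ≤ R0)
    (hTm : ∀ t, MeasurableSet {x | T x = t}) (hTd : ∀ t, DepS (Finset.Ico 0 t) {x | T x = t})
    (val : ℕ → ℝ)
    (hW : ∀ M, R0 ≤ M → ∀ x, -|x 0| + val (T x) + W α cst (M - T x) (sh (T x) x) ≤ W α cst M x)
    (hval : ∫ u, |u| ∂γ + 1 ≤ ∑ t ∈ Finset.Icc 1 R0, (disorder γ).real {x | T x = t} * val t) :
    ∃ C : ℝ, ∀ M : ℕ, (M : ℝ) / R0 - C ≤ ∫ x, W α cst M x ∂(disorder γ) := by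
  set P := disorder γ with hP
  have hsum1 : ∑ t ∈ Finset.Icc 1 R0, P.real {x | T x = t} = 1 := by
    have h1 := measureReal_biUnion_finset (μ := P) (s := Finset.Icc 1 R0)
      (f := fun t => {x | T x = t}) (by
        intro i _ j _ hij
        rw [Function.onFun, Set.disjoint_left]
        intro x hx hy
        simp only [Set.mem_ofPred_eq] at hx hy
        omega) (fun t _ => hTm t) (fun t _ => measure_ne_top _ _)
    rw [← h1]
    have h2 : ⋃ t ∈ Finset.Icc 1 R0, {x | T x = t} = Set.univ := by
      ext x
      simp only [Set.mem_iUnion, Set.mem_ofPred_eq, Set.mem_univ, iff_true, Finset.mem_Icc,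
        exists_prop]
      exact ⟨T x, ⟨hT1 x, hTR x⟩, rfl⟩
    rw [h2]
    simp
  set C : ℝ := 1 + ∑ M ∈ Finset.range R0, |∫ x, W α cst M x ∂P| with hC
  refine ⟨C, ?_⟩
  have hR0' : (0 : ℝ) < R0 := by exact_mod_cast hR0
  intro M
  induction M using Nat.strong_induction_on with
  | _ M ih =>
    rcases lt_or_ge M R0 with h | h
    · have h1 : (M : ℝ) / R0 ≤ 1 := by
        rw [div_le_one hR0']; exact_mod_cast h.le
      have h2 : |∫ x, W α cst M x ∂P| ≤ ∑ M ∈ Finset.range R0, |∫ x, W α cst M x ∂P| :=
        Finset.single_le_sum (f := fun M => |∫ x, W α cst M x ∂P|) (fun _ _ => abs_nonneg _)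
          (Finset.mem_range.2 h)
      have h3 := neg_abs_le (∫ x, W α cst M x ∂P)
      linarith
    · have hindi : ∀ t, Measurable ({x | T x = t}.indicator fun _ => (1 : ℝ)) := fun t =>
        measurable_const.indicator (hTm t)
      have hmW : ∀ t, Measurable fun x => W α cst (M - t) (sh t x) := fun t =>
        (measurable_W (M - t)).comp (measurable_sh t)
      have hiW : ∀ t, Integrable (fun x => W α cst (M - t) (sh t x)) P := by
        intro t
        have h1 := Cop764.M_stat.J_stat γ t
        exact h1.integrable_comp_of_integrable (integrable_W γ hγ (M - t))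
      have hi0 : Integrable (fun x : ℕ → ℝ => |x 0|) P :=
        (integrable_coord γ (f := fun u => |u|) (by fun_prop) 0).2 hγ
      have hi0n : Integrable (fun x : ℕ → ℝ => -|x 0|) P := hi0.neg
      have hterm : ∀ t ∈ Finset.Icc 1 R0, Integrable (fun x =>
          {x | T x = t}.indicator (fun _ => (1 : ℝ)) x * (val t + W α cst (M - t) (sh t x))) P := by
        intro t _
        have h2 : Integrable (fun x => val t + W α cst (M - t) (sh t x)) P :=
          (integrable_const _).add (hiW t)
        have h3 : Measurable fun x : ℕ → ℝ => {x | T x = t}.indicator (fun _ => (1 : ℝ)) x *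
          (val t + W α cst (M - t) (sh t x)) := (hindi t).mul (measurable_const.add (hmW t))
        apply h2.mono h3.aestronglyMeasurable
        filter_upwards with x
        rw [norm_mul]
        have : ‖{x | T x = t}.indicator (fun _ => (1 : ℝ)) x‖ ≤ 1 := by
          rw [Set.indicator_apply]
          split_ifs <;> simp
        nlinarith [norm_nonneg (val t + W α cst (M - t) (sh t x))]
      have hpt : ∀ x, -|x 0| + ∑ t ∈ Finset.Icc 1 R0,
          {x | T x = t}.indicator (fun _ => (1 : ℝ)) x * (val t + W α cst (M - t) (sh t x))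
          ≤ W α cst M x := by
        intro x
        rw [Finset.sum_eq_single_of_mem (T x) (Finset.mem_Icc.2 ⟨hT1 x, hTR x⟩)]
        · rw [Set.indicator_of_mem (by simp), one_mul, ← add_assoc]
          exact hW M h x
        · intro t _ ht
          rw [Set.indicator_of_notMem (by simp only [Set.mem_ofPred_eq]; exact fun h => ht h.symm),
            zero_mul]
      have hint : ∫ x, (-|x 0| + ∑ t ∈ Finset.Icc 1 R0,
          {x | T x = t}.indicator (fun _ => (1 : ℝ)) x * (val t + W α cst (M - t) (sh t x))) ∂P
          = -∫ u, |u| ∂γ + ∑ t ∈ Finset.Icc 1 R0, P.real {x | T x = t} *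
            (val t + ∫ x, W α cst (M - t) x ∂P) := by
        have e0 : ∫ x : ℕ → ℝ, |x 0| ∂P = ∫ u, |u| ∂γ :=
          int_coord γ (f := fun u => |u|) (by fun_prop) 0
        rw [integral_add hi0n (integrable_finsetSum _ hterm), integral_neg, e0,
          integral_finsetSum _ hterm]
        congr 1
        apply Finset.sum_congr rfl
        intro t ht
        rw [Finset.mem_Icc] at ht
        have h4 : Dep (Finset.Ico t M) fun x => val t + W α cst (M - t) (sh t x) := by
          intro x y hxy
          simp only [dep_W_sh (α := α) (cst := cst) (ht.2.trans h) x y hxy]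
        have h4m : Measurable fun x : ℕ → ℝ => val t + W α cst (M - t) (sh t x) :=
          measurable_const.add (hmW t)
        rw [int_mul γ disj_Ico (hindi t) h4m (hTd t).ind h4,
          integral_indicator (hTm t), integral_add (integrable_const _) (hiW t),
          int_shift γ (measurable_W (M - t)) t]
        simp [hP]
      have hmono : ∫ x, (-|x 0| + ∑ t ∈ Finset.Icc 1 R0,
          {x | T x = t}.indicator (fun _ => (1 : ℝ)) x * (val t + W α cst (M - t) (sh t x))) ∂P
          ≤ ∫ x, W α cst M x ∂P :=
        integral_mono (hi0n.add (integrable_finsetSum _ hterm)) (integrable_W γ hγ M) hpt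
      rw [hint] at hmono
      have h5 : ∑ t ∈ Finset.Icc 1 R0, P.real {x | T x = t} * (val t + ∫ x, W α cst (M - t) x ∂P)
          ≥ ∑ t ∈ Finset.Icc 1 R0, (P.real {x | T x = t} * val t +
            P.real {x | T x = t} * ((M : ℝ) / R0 - 1 - C)) := by
        apply Finset.sum_le_sum
        intro t ht
        rw [Finset.mem_Icc] at ht
        rw [← mul_add]
        apply mul_le_mul_of_nonneg_left _ measureReal_nonneg
        have h6 := ih (M - t) (by omega)
        have h7 : ((M - t : ℕ) : ℝ) = (M : ℝ) - t := by
          rw [Nat.cast_sub (ht.2.trans h)]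
        rw [h7, sub_div] at h6
        have h8 : (t : ℝ) / R0 ≤ 1 := by
          rw [div_le_one hR0']; exact_mod_cast ht.2
        linarith
      rw [Finset.sum_add_distrib, ← Finset.sum_mul, hsum1, one_mul] at h5
      linarith

end Pool.Agent.R973.Cp
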