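import Pool.Agent.R973.Cp.Renewal
import Pool.Agent.R973.Cp.Grid

/-!
# The scanning rule
-/

set_option autoImplicit false

open MeasureTheory ProbabilityTheory
open scoped ENNReal NNReal

namespace Pool.Agent.R973.Cp

open Cop764 (disorder)

/-- Candidate pairs `(a, b)`: window `a` in scale `k = log₂ a`, stretch of length at most `H k`,
ending before the end of the scale. -/
def Cd (k0 κ : ℕ) (H : ℕ → ℕ) (a b : ℕ) : Prop :=
  1 ≤ a ∧ a < b ∧ k0 ≤ Nat.log 2 a ∧ Nat.log 2 a ≤ κ ∧ b ≤ a + 1 + H (Nat.log 2 a) ∧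
    b < 2 ^ (Nat.log 2 a + 1)

/-- `b` is the end of a successful stretch. -/
def SE (k0 κ : ℕ) (H : ℕ → ℕ) (Y : ℕ → ℝ) (b : ℕ) (x : ℕ → ℝ) : Prop :=
  ∃ a, a < b ∧ Cd k0 κ H a b ∧ |x a| ≤ 1 ∧ Y (Nat.log 2 a) ≤ Sm (a + 1) b x

lemma meas_SE (k0 κ : ℕ) (H : ℕ → ℕ) (Y : ℕ → ℝ) (b : ℕ) :
    MeasurableSet {x | SE k0 κ H Y b x} := by
  classical
  have : {x | SE k0 κ H Y b x} = ⋃ a ∈ Finset.range b, ({x : ℕ → ℝ | Cd k0 κ H a b} ∩
      ({x | |x a| ≤ 1} ∩ {x | Y (Nat.log 2 a) ≤ Sm (a + 1) b x})) := by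
    ext x
    simp only [SE, Set.mem_ofPred_eq, Set.mem_iUnion, Finset.mem_range, Set.mem_inter_iff,
      exists_prop]
  rw [this]
  apply Finset.measurableSet_biUnion
  intro a _
  exact (MeasurableSet.const _).inter ((meas_win a).inter
    (measurableSet_le measurable_const (measurable_Sm _ _)))

lemma dep_SE (k0 κ : ℕ) (H : ℕ → ℕ) (Y : ℕ → ℝ) (b : ℕ) :
    DepS (Finset.Ico 0 b) {x | SE k0 κ H Y b x} := by
  intro x y h
  simp only [Set.mem_ofPred_eq, SE]
  have h1 : ∀ a, a < b → x a = y a := fun a ha => h a (by simp [ha])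
  have h2 : ∀ a, a < b → Sm (a + 1) b x = Sm (a + 1) b y := by
    intro a ha
    apply dep_Sm
    intro m hm
    rw [Finset.mem_Ico] at hm
    exact h1 m hm.2
  constructor
  · rintro ⟨a, ha, hc, h3, h4⟩
    exact ⟨a, ha, hc, by rw [← h1 a ha]; exact h3, by rw [← h2 a ha]; exact h4⟩
  · rintro ⟨a, ha, hc, h3, h4⟩
    exact ⟨a, ha, hc, by rw [h1 a ha]; exact h3, by rw [h2 a ha]; exact h4⟩

open Classical in
/-- The first end of a successful stretch, or `R0` if there is none before `R0`. -/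
noncomputable def TT (k0 κ : ℕ) (H : ℕ → ℕ) (Y : ℕ → ℝ) (R0 : ℕ) (x : ℕ → ℝ) : ℕ :=
  if h : ∃ b, b < R0 ∧ SE k0 κ H Y b x then Nat.find h else R0

section
variable {k0 κ : ℕ} {H : ℕ → ℕ} {Y : ℕ → ℝ} {R0 : ℕ}

lemma TT_le (x : ℕ → ℝ) : TT k0 κ H Y R0 x ≤ R0 := by
  classical
  unfold TT
  split_ifs with h
  · exact (Nat.find_spec h).1.le
  · exact le_rfl

lemma TT_spec {x : ℕ → ℝ} (h : TT k0 κ H Y R0 x < R0) : SE k0 κ H Y (TT k0 κ H Y R0 x) x := by
  classical
  unfold TT at h ⊢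
  split_ifs with h1
  · exact (Nat.find_spec h1).2
  · rw [dif_neg h1] at h
    exact absurd h (lt_irrefl _)

lemma TT_le_of {x : ℕ → ℝ} {b : ℕ} (hb : b < R0) (h : SE k0 κ H Y b x) :
    TT k0 κ H Y R0 x ≤ b := by
  classical
  unfold TT
  have h1 : ∃ b, b < R0 ∧ SE k0 κ H Y b x := ⟨b, hb, h⟩
  rw [dif_pos h1]
  exact Nat.find_min' h1 ⟨hb, h⟩

lemma TT_pos (hR0 : 1 ≤ R0) (x : ℕ → ℝ) : 1 ≤ TT k0 κ H Y R0 x := by
  rcases lt_or_ge (TT k0 κ H Y R0 x) R0 with h | h
  · obtain ⟨a, ha, -⟩ := TT_spec h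
    omega
  · omega

lemma TT_eq_iff (t : ℕ) : {x | TT k0 κ H Y R0 x = t} =
    {x | (t < R0 ∧ SE k0 κ H Y t x ∧ ∀ b, b < t → ¬ SE k0 κ H Y b x) ∨
      (t = R0 ∧ ∀ b, b < t → ¬ SE k0 κ H Y b x)} := by
  ext x
  simp only [Set.mem_ofPred_eq]
  constructor
  · intro h
    rcases lt_or_ge (TT k0 κ H Y R0 x) R0 with h1 | h1
    · left
      have h2 := TT_spec h1
      rw [h] at h2 h1
      refine ⟨h1, h2, ?_⟩
      intro b hb hSE
      have := TT_le_of (lt_trans hb h1) hSE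
      omega
    · right
      have h2 : TT k0 κ H Y R0 x = R0 := le_antisymm (TT_le x) h1
      refine ⟨by omega, ?_⟩
      intro b hb hSE
      have := TT_le_of (R0 := R0) (by omega) hSE
      omega
  · rintro (⟨h1, h2, h3⟩ | ⟨h1, h2⟩)
    · have h4 := TT_le_of h1 h2
      rcases Nat.lt_or_ge (TT k0 κ H Y R0 x) t with h5 | h5
      · exact absurd (TT_spec (lt_trans h5 h1)) (h3 _ h5)
      · omega
    · rcases Nat.lt_or_ge (TT k0 κ H Y R0 x) R0 with h5 | h5
      · exact absurd (TT_spec h5) (h2 _ (by omega))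
      · have := TT_le (k0 := k0) (κ := κ) (H := H) (Y := Y) (R0 := R0) x
        omega

lemma meas_noSE (t : ℕ) : MeasurableSet {x | ∀ b, b < t → ¬ SE k0 κ H Y b x} := by
  have : {x | ∀ b, b < t → ¬ SE k0 κ H Y b x} = ⋂ b ∈ Finset.range t, {x | SE k0 κ H Y b x}ᶜ := by
    ext x; simp
  rw [this]
  exact Finset.measurableSet_biInter _ fun b _ => (meas_SE _ _ _ _ b).compl

lemma dep_noSE (t : ℕ) : DepS (Finset.Ico 0 t) {x | ∀ b, b < t → ¬ SE k0 κ H Y b x} := by
  intro x y h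
  simp only [Set.mem_ofPred_eq]
  have h1 : ∀ b, b < t → (SE k0 κ H Y b x ↔ SE k0 κ H Y b y) := by
    intro b hb
    exact dep_SE k0 κ H Y b x y fun n hn => h n (by rw [Finset.mem_Ico] at hn ⊢; omega)
  constructor
  · intro h2 b hb
    rw [← h1 b hb]; exact h2 b hb
  · intro h2 b hb
    rw [h1 b hb]; exact h2 b hb

lemma meas_TT (t : ℕ) : MeasurableSet {x | TT k0 κ H Y R0 x = t} := by
  rw [TT_eq_iff]
  have : {x | (t < R0 ∧ SE k0 κ H Y t x ∧ ∀ b, b < t → ¬ SE k0 κ H Y b x) ∨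
      (t = R0 ∧ ∀ b, b < t → ¬ SE k0 κ H Y b x)} =
      ({x | t < R0} ∩ ({x | SE k0 κ H Y t x} ∩ {x | ∀ b, b < t → ¬ SE k0 κ H Y b x})) ∪
      ({x | t = R0} ∩ {x | ∀ b, b < t → ¬ SE k0 κ H Y b x}) := rfl
  rw [this]
  exact ((MeasurableSet.const _).inter ((meas_SE _ _ _ _ t).inter (meas_noSE t))).union
    ((MeasurableSet.const _).inter (meas_noSE t))

lemma dep_TT (t : ℕ) : DepS (Finset.Ico 0 t) {x | TT k0 κ H Y R0 x = t} := by
  rw [TT_eq_iff]
  intro x y h
  simp only [Set.mem_ofPred_eq]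
  have h1 := dep_noSE (k0 := k0) (κ := κ) (H := H) (Y := Y) t x y h
  have h2 := dep_SE k0 κ H Y t x y h
  simp only [Set.mem_ofPred_eq] at h1 h2
  rw [h1, h2]

end

lemma jc_anti {α cst : ℝ} (hα : 0 ≤ 1 + α) {i j : ℕ} (hi : 1 ≤ i) (hij : i ≤ j) :
    jc α cst j ≤ jc α cst i := by
  unfold jc
  have h1 : Real.log i ≤ Real.log j :=
    Real.log_le_log (by exact_mod_cast hi) (by exact_mod_cast hij)
  nlinarith

lemma two_jumps {α cst : ℝ} {M a t : ℕ} (ha : 1 ≤ a) (hat : a < t) (htM : t ≤ M) (x : ℕ → ℝ) :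
    -|x 0| + (jc α cst a + jc α cst (t - a) - |x a| + Sm (a + 1) t x) +
      W α cst (M - t) (sh t x) ≤ W α cst M x := by
  have h1 := W_ge (α := α) (cst := cst) ha (by omega : a ≤ M) x
  have h2 := W_ge (α := α) (cst := cst) (by omega : 1 ≤ t - a) (by omega : t - a ≤ M - a) (sh a x)
  have h3 : M - a - (t - a) = M - t := by omega
  have h4 : sh (t - a) (sh a x) = sh t x := by
    funext n
    unfold sh
    congr 1
    omega
  have h5 : Sm 1 (t - a) (sh a x) = Sm (a + 1) t x := by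
    unfold Sm sh
    rw [Finset.sum_Ico_eq_sum_range, Finset.sum_Ico_eq_sum_range]
    rw [show t - a - 1 = t - (a + 1) by omega]
    apply Finset.sum_congr rfl
    intro l _
    congr 1
    omega
  have h6 : sh a x 0 = x a := by unfold sh; rw [zero_add]
  rw [h3, h4, h5, h6] at h2
  have h7 := le_max_left 0 (Sm 1 a x)
  have h8 := le_max_right 0 (Sm (a + 1) t x)
  linarith

variable (γ : Measure ℝ) [IsProbabilityMeasure γ]

theorem rule_growth {α cst : ℝ} (hα : 0 ≤ 1 + α) (hγ : Integrable (fun u => |u|) γ)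
    (k0 κ : ℕ) (H : ℕ → ℕ) (Y : ℕ → ℝ) (G0 A1 A2 p1 p2 : ℝ) (hA1 : 0 ≤ A1) (hA2 : 0 ≤ A2)
    (hGA : 0 ≤ G0 + A1)
    (hV1 : ∀ k, k0 ≤ k → k < κ → G0 ≤ jc α cst (2 ^ (k + 1)) + jc α cst (1 + H k) - 1 + Y k)
    (hV2 : -A1 ≤ jc α cst (2 ^ (κ + 1)) + jc α cst (1 + H κ) - 1 + Y κ)
    (hV3 : -A2 ≤ jc α cst (2 ^ (κ + 1)))
    (hp1 : (disorder γ).real {x | ∀ b, b < 2 ^ κ → ¬ SE k0 κ H Y b x} ≤ p1)
    (hp2 : (disorder γ).real {x | ∀ b, b < 2 ^ (κ + 1) → ¬ SE k0 κ H Y b x} ≤ p2)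
    (hfin : ∫ u, |u| ∂γ + 1 ≤ G0 - (G0 + A1) * p1 - A2 * p2) :
    ∃ C : ℝ, ∃ R0 : ℕ, 1 ≤ R0 ∧ ∀ M : ℕ, (M : ℝ) / R0 - C ≤ ∫ x, W α cst M x ∂(disorder γ) := by
  classical
  set R0 : ℕ := 2 ^ (κ + 1) with hR0
  have hR0' : 1 ≤ R0 := Nat.one_le_two_pow
  set val : ℕ → ℝ := fun t => G0 - (G0 + A1) * (if 2 ^ κ ≤ t then 1 else 0)
    - A2 * (if R0 ≤ t then 1 else 0) with hval
  have hWW : ∀ M, R0 ≤ M → ∀ x, -|x 0| + val (TT k0 κ H Y R0 x) +
      W α cst (M - TT k0 κ H Y R0 x) (sh (TT k0 κ H Y R0 x) x) ≤ W α cst M x := by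
    intro M hM x
    rcases lt_or_ge (TT k0 κ H Y R0 x) R0 with h | h
    · obtain ⟨a, ha, hc, h3, h4⟩ := TT_spec h
      have h5 := two_jumps (α := α) (cst := cst) hc.1 ha (by omega : TT k0 κ H Y R0 x ≤ M) x
      generalize TT k0 κ H Y R0 x = t at *
      have hka : 2 ^ (Nat.log 2 a) ≤ a := Nat.pow_log_le_self 2 (by have := hc.1; omega)
      have h6 : jc α cst (2 ^ (Nat.log 2 a + 1)) ≤ jc α cst a :=
        jc_anti hα hc.1 (Nat.lt_pow_succ_log_self (by norm_num) a).le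
      have h7 : jc α cst (1 + H (Nat.log 2 a)) ≤ jc α cst (t - a) :=
        jc_anti hα (by omega) (by have := hc.2.2.2.2.1; omega)
      have h8 : val t ≤ jc α cst a + jc α cst (t - a) - |x a| + Sm (a + 1) t x := by
        rcases lt_or_ge t (2 ^ κ) with h9 | h9
        · have h10 : Nat.log 2 a < κ := by
            by_contra hcon
            have : 2 ^ κ ≤ 2 ^ (Nat.log 2 a) := Nat.pow_le_pow_right (by norm_num) (not_lt.1 hcon)
            omega
          have h11 := hV1 (Nat.log 2 a) hc.2.2.1 h10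
          have h12 : val t = G0 := by
            simp only [hval]
            rw [if_neg (by omega), if_neg (by omega)]
            ring
          rw [h12]
          linarith
        · have h10 : Nat.log 2 a = κ := by
            apply le_antisymm hc.2.2.2.1
            by_contra hcon
            have : 2 ^ (Nat.log 2 a + 1) ≤ 2 ^ κ := Nat.pow_le_pow_right (by norm_num) (by omega)
            have h12 := hc.2.2.2.2.2
            omega
          rw [h10] at h6 h7 h4
          have h12 : val t = -A1 := by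
            simp only [hval]
            rw [if_pos h9, if_neg (by omega)]
            ring
          rw [h12]
          linarith
      linarith
    · have h1 : TT k0 κ H Y R0 x = R0 := le_antisymm (TT_le x) h
      rw [h1]
      have h2 := W_ge (α := α) (cst := cst) hR0' hM x
      have h3 := le_max_left 0 (Sm 1 R0 x)
      have h4 : val R0 ≤ jc α cst R0 := by
        simp only [hval]
        rw [if_pos (by rw [hR0]; exact Nat.pow_le_pow_right (by norm_num) (by omega)),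
          if_pos le_rfl]
        linarith
      linarith
  have hvv : ∫ u, |u| ∂γ + 1 ≤ ∑ t ∈ Finset.Icc 1 R0,
      (disorder γ).real {x | TT k0 κ H Y R0 x = t} * val t := by
    have hsum1 : ∑ t ∈ Finset.Icc 1 R0, (disorder γ).real {x | TT k0 κ H Y R0 x = t} = 1 := by
      have h1 := measureReal_biUnion_finset (μ := disorder γ) (s := Finset.Icc 1 R0)
        (f := fun t => {x | TT k0 κ H Y R0 x = t}) (by
          intro i _ j _ hij
          rw [Function.onFun, Set.disjoint_left]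
          intro x hx hy
          simp only [Set.mem_ofPred_eq] at hx hy
          omega) (fun t _ => meas_TT t) (fun t _ => measure_ne_top _ _)
      rw [← h1]
      have h2 : ⋃ t ∈ Finset.Icc 1 R0, {x | TT k0 κ H Y R0 x = t} = Set.univ := by
        ext x
        simp only [Set.mem_iUnion, Set.mem_ofPred_eq, Set.mem_univ, iff_true, Finset.mem_Icc,
          exists_prop]
        exact ⟨TT k0 κ H Y R0 x, ⟨TT_pos hR0' x, TT_le x⟩, rfl⟩
      rw [h2]
      simp
    have hge : ∀ m : ℕ, m ≤ R0 → ∑ t ∈ Finset.Icc 1 R0, (disorder γ).real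
        {x | TT k0 κ H Y R0 x = t} * (if m ≤ t then 1 else 0)
        ≤ (disorder γ).real {x | ∀ b, b < m → ¬ SE k0 κ H Y b x} := by
      intro m hm
      have h1 : ∑ t ∈ Finset.Icc 1 R0, (disorder γ).real
          {x | TT k0 κ H Y R0 x = t} * (if m ≤ t then 1 else 0)
          = ∑ t ∈ (Finset.Icc 1 R0).filter (fun t => m ≤ t), (disorder γ).real
            {x | TT k0 κ H Y R0 x = t} := by
        rw [Finset.sum_filter]
        apply Finset.sum_congr rfl
        intro t _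
        split_ifs <;> simp
      rw [h1, ← measureReal_biUnion_finset (μ := disorder γ)
        (f := fun t => {x | TT k0 κ H Y R0 x = t}) (by
          intro i _ j _ hij
          rw [Function.onFun, Set.disjoint_left]
          intro x hx hy
          simp only [Set.mem_ofPred_eq] at hx hy
          omega) (fun t _ => meas_TT t) (fun t _ => measure_ne_top _ _)]
      apply measureReal_mono _ (measure_ne_top _ _)
      intro x hx
      simp only [Set.mem_iUnion, Finset.mem_filter, Finset.mem_Icc, exists_prop,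
        Set.mem_ofPred_eq] at hx
      obtain ⟨t, ⟨⟨_, htR⟩, hmt⟩, hxt⟩ := hx
      simp only [Set.mem_ofPred_eq]
      intro b hb hSE
      have := TT_le_of (R0 := R0) (by omega) hSE
      omega
    have h2 : ∑ t ∈ Finset.Icc 1 R0, (disorder γ).real {x | TT k0 κ H Y R0 x = t} * val t
        = G0 * ∑ t ∈ Finset.Icc 1 R0, (disorder γ).real {x | TT k0 κ H Y R0 x = t}
        - (G0 + A1) * (∑ t ∈ Finset.Icc 1 R0, (disorder γ).real
        {x | TT k0 κ H Y R0 x = t} * (if 2 ^ κ ≤ t then 1 else 0))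
        - A2 * (∑ t ∈ Finset.Icc 1 R0, (disorder γ).real
        {x | TT k0 κ H Y R0 x = t} * (if R0 ≤ t then 1 else 0)) := by
      rw [Finset.mul_sum, Finset.mul_sum, Finset.mul_sum, ← Finset.sum_sub_distrib,
        ← Finset.sum_sub_distrib]
      apply Finset.sum_congr rfl
      intro t _
      simp only [hval]
      ring
    rw [h2, hsum1]
    have h3 := (hge (2 ^ κ) (Nat.pow_le_pow_right (by norm_num) (by omega))).trans hp1
    have h4 := (hge R0 le_rfl).trans hp2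
    have h5 := mul_le_mul_of_nonneg_left h3 hGA
    have h6 := mul_le_mul_of_nonneg_left h4 hA2
    linarith

  obtain ⟨C, hC⟩ := linear_growth (α := α) (cst := cst) γ hγ R0 hR0' (TT k0 κ H Y R0)
    (TT_pos hR0') TT_le meas_TT dep_TT val hWW hvv
  exact ⟨C, R0, hR0', hC⟩

end Pool.Agent.R973.Cp
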