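import Pool.Agent.R973.Cp.GGrow
import Pool.Agent.R973.Cp.Low
import Pool.Agent.Helper764.Cop_strE
import Pool.Agent.Helper764.Cop_int
import Pool.Agent.Helper764.Cop_K
import Pool.Agent.Helper764.Cop_fnn

/-!
# From the value functional to the free energy
-/

set_option autoImplicit false

open MeasureTheory ProbabilityTheory Filter Topology
open scoped ENNReal NNReal

namespace Pool.Agent.R973.Cp

open Cop764 (disorder Data G)

/-- Block sums of the weights. -/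
noncomputable def Xb (D : Data) (h : ℝ) (L : ℕ) (ω : ℕ → ℝ) : ℕ → ℝ := bs L (D.w h ω)

lemma Xb_eq (D : Data) (h : ℝ) {L : ℕ} (hL : 1 ≤ L) (ω : ℕ → ℝ) :
    Xb D h L ω = fun n => (-2 * D.lam * Real.sqrt L) * zb L ω n + -2 * D.lam * h * L := by
  funext n
  have hs : Real.sqrt L ≠ 0 := (Real.sqrt_pos.2 (by exact_mod_cast hL)).ne'
  unfold Xb zb bs Data.w
  rw [← Finset.mul_sum, Finset.sum_add_distrib, Finset.sum_const, Nat.card_Ioc, nsmul_eq_mul]
  have e1 : (n + 1) * L - n * L = L := by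
    rw [Nat.succ_mul]
    omega
  rw [e1]
  field_simp
  ring

lemma measurable_zb (L : ℕ) : Measurable (zb L) := by
  unfold zb bs
  fun_prop

lemma measurable_Xb (D : Data) (h : ℝ) {L : ℕ} (hL : 1 ≤ L) : Measurable (Xb D h L) := by
  have h1 : Xb D h L = fun ω n => (-2 * D.lam * Real.sqrt L) * zb L ω n + -2 * D.lam * h * L := by
    funext ω
    exact Xb_eq D h hL ω
  rw [h1]
  have h2 := measurable_zb L
  have h3 : ∀ n, Measurable fun ω => zb L ω n := fun n => (measurable_pi_apply n).comp h2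
  refine measurable_pi_lambda _ fun n => ?_
  exact ((h3 n).const_mul _).add_const _

lemma map_Xb (D : Data) (h : ℝ) {L : ℕ} (hL : 1 ≤ L) :
    D.P.map (Xb D h L)
      = disorder (muX D.ν L (-2 * D.lam * Real.sqrt L) (-2 * D.lam * h * L)) := by
  have h1 : Xb D h L = (fun (z : ℕ → ℝ) (n : ℕ) =>
      (-2 * D.lam * Real.sqrt L) * z n + -2 * D.lam * h * L) ∘ zb L := by
    funext ω
    exact Xb_eq D h hL ω
  have h2 : Measurable (fun (z : ℕ → ℝ) (n : ℕ) =>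
      (-2 * D.lam * Real.sqrt L) * z n + -2 * D.lam * h * L) := by fun_prop
  rw [h1, ← Measure.map_map h2 (measurable_zb L)]
  unfold Data.P
  rw [map_zb D.ν hL, map_muX]

lemma rot_mp (D : Data) {L : ℕ} (hL : 1 ≤ L) (k : ℕ) :
    MeasurePreserving (fun (ω : ℕ → ℝ) (n : ℕ) => ω (rot L k n)) D.P D.P := by
  refine ⟨by fun_prop, ?_⟩
  unfold Data.P disorder
  exact Measure.map_infinitePi_infinitePi_of_inj (Ω := fun _ => ℝ) (P := fun _ : ℕ => D.ν)
    (rot_inj hL k)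

variable {c0 C1 : ℝ} {n0 : ℕ}

lemma lG_lower_int (D : Data) (hK : KH D.K D.α c0 C1 n0) {h : ℝ} (hh : 0 ≤ h) {ℓ : ℕ}
    (hℓ : n0 ≤ ℓ) (M : ℕ)
    (hi : Integrable (fun x : ℕ → ℝ => W D.α (cJ D.α c0 C1) M x - |x M|)
      (disorder (muX D.ν (4 * ℓ) (-2 * D.lam * Real.sqrt (4 * ℓ : ℕ))
        (-2 * D.lam * h * (4 * ℓ : ℕ))))) :
    ∫ x, (W D.α (cJ D.α c0 C1) M x - |x M|) ∂(disorder (muX D.ν (4 * ℓ)
        (-2 * D.lam * Real.sqrt (4 * ℓ : ℕ)) (-2 * D.lam * h * (4 * ℓ : ℕ))))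
      + Real.log (c0 * (4 * ℓ : ℝ) ^ (-(1 + D.α)))
      ≤ ∫ ω, D.lG h 0 ((M + 1) * (4 * ℓ)) ω ∂D.P := by
  have hn0 := hK.base.n0_pos
  have hℓ1 : 1 ≤ ℓ := by omega
  have hL : 1 ≤ 4 * ℓ := by omega
  have hL' : (0 : ℝ) < ((4 * ℓ : ℕ) : ℝ) := by exact_mod_cast hL
  have hℓ' : (0 : ℝ) < ℓ := by exact_mod_cast hℓ1
  set N := (M + 1) * (4 * ℓ) with hN
  have hNn0 : n0 ≤ N := by
    rw [hN]
    nlinarith
  have hN1 : 1 ≤ N := by omega
  have hKN : 0 < D.K N := by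
    refine lt_of_lt_of_le ?_ (hK.base.lower N hNn0)
    have := hK.base.c0_pos
    have hN' : (0 : ℝ) < N := by exact_mod_cast hN1
    positivity
  have hlG : Integrable (D.lG h 0 N) D.P :=
    ((Cop764.M_int.J_int) D c0 n0 hK.base h hh).2.1 0 N (by omega)
  -- pointwise inequality
  have hpt : ∀ ω : ℕ → ℝ, W D.α (cJ D.α c0 C1) M (Xb D h (4 * ℓ) ω) - |Xb D h (4 * ℓ) ω M|
      + Real.log (c0 * (4 * ℓ : ℝ) ^ (-(1 + D.α)))
      ≤ ∑ k ∈ Finset.range (4 * ℓ), (1 / ((4 * ℓ : ℕ) : ℝ)) *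
        D.lG h 0 N (fun n => ω (rot (4 * ℓ) k n)) := by
    intro ω
    have h1 := G_lower hK hℓ (Xb D h (4 * ℓ) ω) M M 0 0 (by omega) (by omega) (by omega)
    have h2 : sh 0 (Xb D h (4 * ℓ) ω) = Xb D h (4 * ℓ) ω := by
      funext n
      unfold sh
      rw [Nat.add_zero]
    rw [h2] at h1
    have hcpos : 0 < c0 * (4 * ℓ : ℝ) ^ (-(1 + D.α)) := by
      have := hK.base.c0_pos
      positivity
    have h3 := Real.log_le_log (by positivity) h1
    rw [Real.log_mul (Real.exp_pos _).ne' hcpos.ne', Real.log_exp] at h3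
    have h4 := logG_avg hK.base.nonneg hN1 hKN hL (D.w h ω)
    simp only [Nat.cast_zero, zero_mul, sub_self, mul_zero, zero_div, zero_add] at h3
    exact h3.trans h4
  have hmp : ∀ k, Integrable (fun ω : ℕ → ℝ => D.lG h 0 N (fun n => ω (rot (4 * ℓ) k n))) D.P :=
    fun k => (rot_mp D hL k).integrable_comp_of_integrable hlG
  have hterm : ∀ k ∈ Finset.range (4 * ℓ), Integrable (fun ω : ℕ → ℝ =>
      (1 / ((4 * ℓ : ℕ) : ℝ)) * D.lG h 0 N (fun n => ω (rot (4 * ℓ) k n))) D.P :=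
    fun k _ => (hmp k).const_mul _
  have hRi : Integrable (fun ω : ℕ → ℝ => ∑ k ∈ Finset.range (4 * ℓ), (1 / ((4 * ℓ : ℕ) : ℝ)) *
        D.lG h 0 N (fun n => ω (rot (4 * ℓ) k n))) D.P := integrable_finsetSum _ hterm
  have hXm := measurable_Xb D h hL
  have hfm : Measurable (fun x : ℕ → ℝ => W D.α (cJ D.α c0 C1) M x - |x M|) :=
    (measurable_W M).sub (by fun_prop)
  have hLi : Integrable (fun ω : ℕ → ℝ => W D.α (cJ D.α c0 C1) M (Xb D h (4 * ℓ) ω)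
      - |Xb D h (4 * ℓ) ω M|) D.P := by
    rw [← map_Xb D h hL] at hi
    exact hi.comp_measurable hXm
  have hLi2 : Integrable (fun ω : ℕ → ℝ => W D.α (cJ D.α c0 C1) M (Xb D h (4 * ℓ) ω)
      - |Xb D h (4 * ℓ) ω M| + Real.log (c0 * (4 * ℓ : ℝ) ^ (-(1 + D.α)))) D.P :=
    hLi.add (integrable_const _)
  have h5 := integral_mono hLi2 hRi hpt
  rw [integral_add hLi (integrable_const _), integral_finsetSum _ hterm] at h5
  have h6 : ∀ k ∈ Finset.range (4 * ℓ), ∫ ω, (1 / ((4 * ℓ : ℕ) : ℝ)) *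
        D.lG h 0 N (fun n => ω (rot (4 * ℓ) k n)) ∂D.P
      = (1 / ((4 * ℓ : ℕ) : ℝ)) * ∫ ω, D.lG h 0 N ω ∂D.P := by
    intro k _
    rw [integral_const_mul]
    congr 1
    have h7 := (rot_mp D hL k).map_eq
    have h8 : ∫ ω, D.lG h 0 N ω ∂(D.P.map (fun (ω : ℕ → ℝ) (n : ℕ) => ω (rot (4 * ℓ) k n)))
        = ∫ ω, D.lG h 0 N (fun n => ω (rot (4 * ℓ) k n)) ∂D.P := by
      apply integral_map (rot_mp D hL k).measurable.aemeasurable
      rw [h7]
      exact hlG.aestronglyMeasurable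
    rw [← h8, h7]
  rw [Finset.sum_congr rfl h6, Finset.sum_const, Finset.card_range, nsmul_eq_mul] at h5
  have h9 : ((4 * ℓ : ℕ) : ℝ) * (1 / ((4 * ℓ : ℕ) : ℝ) * ∫ ω, D.lG h 0 N ω ∂D.P)
      = ∫ ω, D.lG h 0 N ω ∂D.P := by
    field_simp
  rw [h9] at h5
  rw [← map_Xb D h hL, integral_map hXm.aemeasurable hfm.aestronglyMeasurable]
  simpa using h5

end Pool.Agent.R973.Cp
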